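import Pool.Agent.Y139.SM.Pos

/-! Positivity for the tensor powers of the transcendental part, and odd powers. -/

set_option autoImplicit false

namespace Pool.Agent.Y139.SM

open Complex Filter Topology ComplexConjugate NumberField IsDedekindDomain Asymptotics
  Pool.Agent.W401.Cheb Pool.Agent.W540.BE Pool.Agent.W353.L1 Polynomial
open Pool.Agent.H341R2 (lam lam_tendsto)
open Pool.Agent.W353.TD (ch IsPart rank)
open Pool.Agent.W353.PV (tF)
open Pool.Agent.W353.EF (LFun)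
open Pool.Agent.W353.EH (edgePoint size HasOrder)
open Pool.Agent.W353.AT (tC abs_tC IsArtin exists_common tw_C IsTwistedSystem
  twistRank TwistDefect)

section
variable {K : Type} [Field K] [NumberField K] {l : ℕ} {X : Set (MvPolynomial (Fin l) (𝓞 K))}
  {d m N : ℕ} {V : Type} [AddCommGroup V] [Module ℚ V] [FiniteDimensional ℚ V]
  {ρ : Representation ℚ (GK K) V}

/-- **Positivity for the tensor powers of the transcendental part.** -/
theorem positivity (hmd : m ≤ d) (hV : IsPart X d m N ρ) {κ κ' : Type} [Fintype κ] [Fintype κ']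
    (r n : κ → ℕ) (χ : ∀ k, Representation ℂ (GK K) (Fin (n k) → ℂ)) (hχ : ∀ k, IsArtin (χ k))
    (B : κ → HeightOneSpectrum (𝓞 K) → ℂ[X])
    (hB : ∀ k, IsTensorSystem X d m N ρ (r k) (χ k) (B k)) (c : κ → ℝ)
    (n' : κ' → ℕ) (χ' : ∀ k, Representation ℂ (GK K) (Fin (n' k) → ℂ))
    (hχ' : ∀ k, IsArtin (χ' k)) (B' : κ' → HeightOneSpectrum (𝓞 K) → ℂ[X])
    (hB' : ∀ k, IsTwistedSystem X d (2 * m) N (χ' k) 0 (B' k)) (c' : κ' → ℝ)
    (hc : ∀ t : ℝ, |t| ≤ (N - Module.finrank ℚ V : ℕ) → ∀ g,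
      0 ≤ ∑ k, c k * (t ^ r k * ((χ k).character g).re) +
        ∑ k, c' k * (t * ((χ' k).character g).re)) {η : ℝ} (hη : 0 < η) :
    ∀ᶠ ε : ℝ in 𝓝[>] 0, -η ≤ ∑ k, c k * size (2 * (r k * m)) 0 (B k) ε +
      ∑ k, c' k * (size (2 * m) 0 (B' k) ε - twistRank ρ (χ' k)) := by
  classical
  have hm : 2 * m ≤ 2 * d := by omega
  choose σ hσ using exists_isFrob (F := K)
  have hgood := good_of_part hm hV hσ
  have h := lin_pos (κ := κ ⊕ κ') (T := tC ρ X d (2 * m) N (N - Module.finrank ℚ V) σ)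
    (s := (N - Module.finrank ℚ V : ℕ)) (Nat.cast_nonneg _) (fun v => abs_tC _ _ _ _ _ _ _ _) σ
    (Sum.elim r fun _ => 1) (Sum.elim n n')
    (fun k => match k with
      | Sum.inl k => χ k
      | Sum.inr k => χ' k)
    (fun k => match k with
      | Sum.inl k => hχ k
      | Sum.inr k => hχ' k)
    (fun k => match k with
      | Sum.inl k => size (2 * (r k * m)) 0 (B k)
      | Sum.inr k => fun ε => size (2 * m) 0 (B' k) ε - twistRank ρ (χ' k))
    (fun k => by
      rcases k with k | k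
      · exact (tensor_size hm hσ hgood (r k) (χ k) (hχ k) (B k) (hB k)).2
      · have h1 := (tw_C hm hσ hgood hV.1 ⟨n' k, χ' k⟩ (hχ' k) (B' k) (hB' k)).2
        refine h1.congr fun ε => ?_
        simp only [Sum.elim_inr, pow_one])
    (Sum.elim c c')
    (fun t ht g => by
      have := hc t ht g
      rw [Fintype.sum_sum_type]
      simp only [Sum.elim_inl, Sum.elim_inr, pow_one]
      exact this) hη
  refine h.mono fun ε hε => ?_
  rw [Fintype.sum_sum_type] at hε
  exact hε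

end

section
variable {K : Type} [Field K] [NumberField K] {l : ℕ} {X : Set (MvPolynomial (Fin l) (𝓞 K))}
  {d i N : ℕ}

theorem size_of_order {B : HeightOneSpectrum (𝓞 K) → ℂ[X]} {j : ℕ} {k : ℤ}
    (hnz : ∀ᶠ ε : ℝ in 𝓝[>] 0, LFun B (edgePoint j 0 + ε) ≠ 0) (h : HasOrder j 0 B k) :
    Tendsto (size j 0 B) (𝓝[>] 0) (𝓝 (-(k : ℝ))) := by
  obtain ⟨Λ, h1, h2, h3⟩ := h
  exact Pool.Agent.W353.PV.lim_ord hnz h1 (h2.mono fun s hs hs' => hs (by
    rw [Pool.Agent.W353.AT.edge_re] at hs'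
    exact hs')) h3

/-- **Odd tensor powers.** -/
theorem oddPowers (hi : i ≤ 2 * d) {n : ℕ} (χ : Representation ℂ (GK K) (Fin n → ℂ))
    (hχ : IsArtin χ) {R : ℕ} (hR : Odd R) (B : ℕ → HeightOneSpectrum (𝓞 K) → ℂ[X])
    (hB : ∀ r, Odd r → r ≤ R → IsPowerSystem X d i N r χ (B r)) :
    (∀ r, Odd r → r ≤ R → ∀ᶠ ε : ℝ in 𝓝[>] 0, LFun (B r) (edgePoint (r * i) 0 + ε) ≠ 0) ∧
    (∀ η : ℝ, 0 < η → ∀ᶠ ε : ℝ in 𝓝[>] 0,
      |size (1 * i) 0 (B 1) ε + ∑ r ∈ Finset.range (R + 1) with Odd r ∧ 3 ≤ r,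
        chebC N R r * size (r * i) 0 (B r) ε| ≤ n * ((N : ℝ) / R) + η) ∧
    (n * N < R → (∀ r, Odd r → 3 ≤ r → r ≤ R → HasOrder (r * i) 0 (B r) 0) →
      ∀ k : ℤ, HasOrder (1 * i) 0 (B 1) k → k = 0) := by
  classical
  choose σ hσ using exists_isFrob (F := K)
  have hnz : ∀ r, Odd r → r ≤ R → ∀ᶠ ε : ℝ in 𝓝[>] 0,
      LFun (B r) (edgePoint (r * i) 0 + ε) ≠ 0 := fun r h1 h2 =>
    (power_size hi hσ r χ hχ (B r) (hB r h1 h2)).1
  have hineq : ∀ η : ℝ, 0 < η → ∀ᶠ ε : ℝ in 𝓝[>] 0,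
      |size (1 * i) 0 (B 1) ε + ∑ r ∈ Finset.range (R + 1) with Odd r ∧ 3 ≤ r,
        chebC N R r * size (r * i) 0 (B r) ε| ≤ n * ((N : ℝ) / R) + η := by
    intro η hη
    rcases Nat.eq_zero_or_pos N with hN | hN
    · have h1 := (power_size hi hσ 1 χ hχ (B 1) (hB 1 odd_one hR.pos)).2
      have h2 : ∀ v, tF X d i N K v = 0 := fun v => by
        have h3 : |tF X d i N K v| ≤ (N : ℝ) := abs_tr_le _ _ _
        have h3' : (N : ℝ) = 0 := by rw [hN, Nat.cast_zero]
        exact abs_eq_zero.1 (le_antisymm (h3.trans h3'.le) (abs_nonneg _))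
      have h4 : ∀ ε : ℝ, (EP (nm K) ε fun v => tF X d i N K v ^ 1 * RR χ 0 σ v) = 0 := by
        intro ε
        simp only [h2, pow_one, zero_mul]
        unfold EP
        simp
      simp only [h4, zero_div, zero_sub] at h1
      have h5 := h1.abs
      rw [abs_zero] at h5
      filter_upwards [h5.eventually_lt_const hη] with ε h6
      have h8 : (N : ℝ) = 0 := by rw [hN, Nat.cast_zero]
      have h7 : ∀ r, chebC N R r = 0 := fun r => by
        unfold chebC
        rw [h8]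
        ring
      have h9 : ∑ r ∈ Finset.range (R + 1) with Odd r ∧ 3 ≤ r,
          chebC N R r * size (r * i) 0 (B r) ε = 0 :=
        Finset.sum_eq_zero fun r _ => by rw [h7, zero_mul]
      rw [h9, add_zero, h8, zero_div, mul_zero, zero_add]
      rw [abs_neg] at h6
      exact h6.le
    · have hN' : (0 : ℝ) < N := by exact_mod_cast hN
      exact odd_powers (T := tF X d i N K) hN' (fun v => abs_tr_le _ _ _) σ χ hχ hR
        (fun r => size (r * i) 0 (B r))
        (fun r h1 h2 => (power_size hi hσ r χ hχ (B r) (hB r h1 h2)).2) hη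
  refine ⟨hnz, hineq, fun hlt h0 k hk => ?_⟩
  have hR0 : (0 : ℝ) < R := by exact_mod_cast hR.pos
  have h1 := size_of_order (hnz 1 odd_one hR.pos) hk
  have h2 : Tendsto (fun ε => ∑ r ∈ Finset.range (R + 1) with Odd r ∧ 3 ≤ r,
      chebC N R r * size (r * i) 0 (B r) ε) (𝓝[>] 0) (𝓝 0) := by
    have h3 := tendsto_finsetSum (f := fun r ε => chebC N R r * size (r * i) 0 (B r) ε)
      (a := fun r => chebC N R r * 0) ((Finset.range (R + 1)).filter fun r => Odd r ∧ 3 ≤ r)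
      fun r hr => by
        rw [Finset.mem_filter, Finset.mem_range] at hr
        have h4 := size_of_order (hnz r hr.2.1 (by omega)) (h0 r hr.2.1 hr.2.2 (by omega))
        rw [Int.cast_zero, neg_zero] at h4
        exact h4.const_mul _
    simpa using h3
  have h5 := (h1.add h2).abs
  rw [add_zero, abs_neg] at h5
  have hc : (n : ℝ) * ((N : ℝ) / R) < 1 := by
    rw [← mul_div_assoc, div_lt_one hR0]
    exact_mod_cast hlt
  set η : ℝ := (1 - n * ((N : ℝ) / R)) / 2 with hη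
  have hη0 : 0 < η := by
    rw [hη]
    linarith
  have h6 : |(k : ℝ)| ≤ n * ((N : ℝ) / R) + η := le_of_tendsto h5 (hineq η hη0)
  have h7 : |(k : ℝ)| < 1 := by linarith
  rw [← Int.cast_abs] at h7
  have h8 : |k| < 1 := by exact_mod_cast h7
  exact Int.abs_lt_one_iff.1 h8

end

end Pool.Agent.Y139.SM
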