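import Pool.Agent.Y139.SM.Rigid2
import Pool.Agent.Y139.SM.Fin2

/-! Rigidity for the transcendental part: the dichotomy. -/

set_option autoImplicit false

namespace Pool.Agent.Y139.SM

open Complex Filter Topology ComplexConjugate NumberField IsDedekindDomain Asymptotics
  Pool.Agent.W401.Cheb Pool.Agent.W540.BE Pool.Agent.W353.L1 Polynomial
open Pool.Agent.H341R2 (lam lam_tendsto)
open Pool.Agent.W353.TD (ch IsPart rank)
open Pool.Agent.W353.PV (tF)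
open Pool.Agent.W353.EF (LFun)
open Pool.Agent.W353.EH (edgePoint size HasOrder)
open Pool.Agent.W353.AT (tC abs_tC IsArtin exists_common tw_C IsTwistedSystem
  twistRank TwistDefect fixedDim)

section
variable {K : Type} [Field K] [NumberField K]

/-- the square of the imaginary part has small mean value -/
theorem core_im {T : HeightOneSpectrum (𝓞 K) → ℝ} {c : HeightOneSpectrum (𝓞 K) → ℂ}
    {s a : ℝ} (hs : 0 ≤ s)
    (hT : ∀ v, |T v| ≤ s) (hc : ∀ v, ‖c v‖ ≤ a)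
    (h3 : Has (fun v => ‖c v‖ ^ 2) 1) {x S₂ : ℝ → ℝ}
    (hS₂ : Tendsto (fun ε : ℝ => (EP (nm K) ε fun v => T v ^ 2) / lam ε - S₂ ε) (𝓝[>] 0) (𝓝 0))
    (hx : Tendsto (fun ε : ℝ => (EP (nm K) ε fun v => T v * (c v).re) / lam ε - x ε)
      (𝓝[>] 0) (𝓝 0)) {e : ℝ} (he : e = 1 ∨ e = -1) {q m : ℝ}
    (hq : Tendsto (fun ε => S₂ ε + 2 * e * x ε + 1) (𝓝[>] 0) (𝓝 q))
    (hm : Has (fun v => (c v).im ^ 2) m) : m ≤ q := by
  classical
  have hN : NormSys (nm K) := normSys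
  have hee : e * e = 1 := by rcases he with h | h <;> rw [h] <;> norm_num
  have hea : |e| = 1 := by rcases he with h | h <;> rw [h] <;> norm_num
  set D : HeightOneSpectrum (𝓞 K) → ℝ := fun v => T v ^ 2 + (2 * e * (T v * (c v).re) +
    ‖c v‖ ^ 2) with hD
  have b1 : ∀ v, |T v ^ 2| ≤ s ^ 2 := fun v => by
    rw [abs_pow]
    exact pow_le_pow_left₀ (abs_nonneg _) (hT v) 2
  have b2 : ∀ v, |2 * e * (T v * (c v).re)| ≤ 2 * (s * a) := fun v => by
    rw [abs_mul, abs_mul, abs_mul, abs_two, hea, mul_one]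
    refine mul_le_mul_of_nonneg_left ?_ (by norm_num)
    exact mul_le_mul (hT v) ((Complex.abs_re_le_norm _).trans (hc v)) (abs_nonneg _) hs
  have b3 : ∀ v, |‖c v‖ ^ 2| ≤ a ^ 2 := fun v => by
    rw [abs_of_nonneg (by positivity)]
    exact pow_le_pow_left₀ (norm_nonneg _) (hc v) 2
  have b4 : ∀ v, |2 * e * (T v * (c v).re) + ‖c v‖ ^ 2| ≤ 2 * (s * a) + a ^ 2 := fun v =>
    (abs_add_le _ _).trans (add_le_add (b2 v) (b3 v))
  have b5 : ∀ v, |D v| ≤ s ^ 2 + (2 * (s * a) + a ^ 2) := fun v =>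
    (abs_add_le _ _).trans (add_le_add (b1 v) (b4 v))
  have hED : ∀ ε : ℝ, 0 < ε → EP (nm K) ε D = (EP (nm K) ε fun v => T v ^ 2) +
      (2 * e * (EP (nm K) ε fun v => T v * (c v).re) + EP (nm K) ε fun v => ‖c v‖ ^ 2) := by
    intro ε hε
    rw [hD, EP_add hN hε b1 b4, EP_add hN hε b2 b3, EP_const_mul]
  have hle : ∀ v, (c v).im ^ 2 ≤ D v := by
    intro v
    have h1 : ‖c v‖ ^ 2 = (c v).re ^ 2 + (c v).im ^ 2 := by
      rw [← Complex.normSq_eq_norm_sq, Complex.normSq_apply]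
      ring
    simp only [hD]
    rw [h1]
    nlinarith [sq_nonneg (T v + e * (c v).re)]
  have hlim : Tendsto (fun ε => (EP (nm K) ε D) / lam ε) (𝓝[>] 0) (𝓝 q) := by
    have h1 := (((hS₂.add (hx.const_mul (2 * e))).add (h3.2.sub_const 1)).add hq)
    have e0 : (0 : ℝ) + 2 * e * 0 + (1 - 1) + q = q := by ring
    rw [e0] at h1
    refine h1.congr' ?_
    filter_upwards [self_mem_nhdsWithin] with ε hε
    rw [hED ε hε]
    ring
  refine le_of_tendsto_of_tendsto hm.2 hlim ?_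
  filter_upwards [self_mem_nhdsWithin, lam_tendsto.eventually_gt_atTop 0] with ε hε hε'
  refine div_le_div_of_nonneg_right ?_ hε'.le
  have h1 := EP_abs_le (F := K) (φ := fun v => (c v).im ^ 2) b5 (fun v => by
    rw [abs_of_nonneg (sq_nonneg _)]
    exact hle v) hε
  exact (le_abs_self _).trans h1

/-- the mean value of the square of the imaginary part of a character; if it is `0`, the character is
real -/
theorem has_im {n : ℕ} (θ : Representation ℂ (GK K) (Fin n → ℂ)) (hθ : IsArtin θ)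
    (σ : HeightOneSpectrum (𝓞 K) → GK K) (hσ : ∀ v, IsFrob v (σ v)) :
    ∃ m : ℝ, Has (fun v => (θ.character (σ v)⁻¹).im ^ 2) m ∧
      (m ≤ 0 → ∀ g, (θ.character g).im = 0) := by
  classical
  obtain ⟨U, hUn, hU, hx1⟩ := exists_common (κ := Unit) (n := fun _ => n)
    (fun _ => θ) fun _ => hθ
  have hx1 : ∀ u ∈ U, θ u = 1 := hx1 ()
  have hfin : Finite (GK K ⧸ U) := Subgroup.quotient_finite_of_isOpen U hU
  let _ : Fintype (GK K ⧸ U) := Fintype.ofFinite _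
  set Q := qrep U θ hx1 with hQ
  set f : GK K ⧸ U → ℝ := fun q => (Q.character q⁻¹).im ^ 2 with hf
  have hmean : avC U (fun q => ((f q : ℝ) : ℂ)) = ((avR U f : ℝ) : ℂ) := avC_ofReal U f
  have h1 := cheb_edge U hU (fun q => ((f q : ℝ) : ℂ)) (fun a g => by
    have h2 : (g * a * g⁻¹)⁻¹ = g * a⁻¹ * g⁻¹ := by group
    simp only [hf]
    rw [h2, Representation.char_conj]) _ hmean σ hσ 0
  rw [if_pos rfl] at h1
  have he : ∀ v, (((f (QuotientGroup.mk (σ v)) : ℝ) : ℂ) *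
      ((nm K v : ℕ) : ℂ) ^ (-(((0 : ℝ) : ℂ) * I))).re = (θ.character (σ v)⁻¹).im ^ 2 := by
    intro v
    have e1 : -(((0 : ℝ) : ℂ) * I) = 0 := by simp
    rw [e1, Complex.cpow_zero, mul_one, Complex.ofReal_re]
    rfl
  refine ⟨avR U f, ⟨⟨(n : ℝ) ^ 2, fun v => ?_⟩, ?_⟩, fun h0 g => ?_⟩
  · rw [abs_pow]
    exact pow_le_pow_left₀ (abs_nonneg _) ((Complex.abs_im_le_norm _).trans
      (norm_char_le U θ hx1 (σ v)⁻¹)) 2
  · refine h1.congr fun ε => ?_
    congr 2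
    funext v
    exact he v
  · have h2 : avR U f = (Nat.card (GK K ⧸ U) : ℝ)⁻¹ * ∑ q, f q := by
      unfold avR
      rw [finsum_eq_sum_of_fintype]
    have hc : (0 : ℝ) < (Nat.card (GK K ⧸ U) : ℝ)⁻¹ := inv_pos.2 (by exact_mod_cast Nat.card_pos)
    have h3 : ∑ q, f q ≤ 0 := by
      by_contra hcon
      rw [not_le] at hcon
      have := mul_pos hc hcon
      linarith
    have h4 : ∑ q, f q = 0 := le_antisymm h3 (Finset.sum_nonneg fun q _ => sq_nonneg _)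
    have h5 := (Finset.sum_eq_zero_iff_of_nonneg (fun q _ => sq_nonneg _)).1 h4
      (QuotientGroup.mk g)⁻¹ (Finset.mem_univ _)
    have h6 : (Q.character ((QuotientGroup.mk g : GK K ⧸ U)⁻¹)⁻¹).im ^ 2 = 0 := h5
    rw [inv_inv] at h6
    have h7 : Q.character (QuotientGroup.mk g : GK K ⧸ U) = θ.character g := rfl
    rw [h7] at h6
    exact pow_eq_zero_iff (two_ne_zero) |>.1 h6

variable {l : ℕ} {X : Set (MvPolynomial (Fin l) (𝓞 K))}
  {d m N : ℕ} {V : Type} [AddCommGroup V] [Module ℚ V] [FiniteDimensional ℚ V]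
  {ρ : Representation ℚ (GK K) V}

/-- **Rigidity for the tensor powers of the transcendental part.** -/
theorem rigidT (hmd : m ≤ d) (hV : IsPart X d m N ρ) {n : ℕ}
    {χ : Representation ℂ (GK K) (Fin n → ℂ)}
    (hχ : IsArtin χ) (hirr : χ.IsIrreducible) {B₁ B₂ : HeightOneSpectrum (𝓞 K) → ℂ[X]}
    (hB₁ : IsTwistedSystem X d (2 * m) N χ 0 B₁)
    (hB₂ : IsTensorSystem X d m N ρ 2 (1 : Representation ℂ (GK K) (Fin 1 → ℂ)) B₂)
    {e : ℝ} (he : e = 1 ∨ e = -1)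
    (r : ℕ) {n' : ℕ} {ψ : Representation ℂ (GK K) (Fin n' → ℂ)} (hψ : IsArtin ψ)
    {n'' : ℕ} {θ : Representation ℂ (GK K) (Fin n'' → ℂ)} (hθ : IsArtin θ)
    (hc : ∀ g, θ.character g = χ.character g ^ r * ψ.character g)
    {B : HeightOneSpectrum (𝓞 K) → ℂ[X]} (hB : IsTensorSystem X d m N ρ r ψ B)
    {δ η : ℝ} (hδ : 0 < δ) (hη : 0 < η) :
    ∀ᶠ ε : ℝ in 𝓝[>] 0,
      0 ≤ size (2 * (2 * m)) 0 B₂ ε +
        2 * e * (size (2 * m) 0 B₁ ε - twistRank ρ χ) + 1 + η ∧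
      |size (2 * (r * m)) 0 B ε - (-e) ^ r * Module.finrank ℂ θ.invariants| ≤
        r * (((N - Module.finrank ℚ V : ℕ) : ℝ) + n) ^ (r - 1) * n' *
          ((δ + (size (2 * (2 * m)) 0 B₂ ε +
            2 * e * (size (2 * m) 0 B₁ ε - twistRank ρ χ) + 1) / δ) / 2) + η := by
  classical
  have hm : 2 * m ≤ 2 * d := by omega
  choose σ hσ using exists_isFrob (F := K)
  have hgood := good_of_part hm hV hσ
  obtain ⟨U, hUn, hU, hx1⟩ := exists_common (κ := Unit) (n := fun _ => n)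
    (fun _ => χ) fun _ => hχ
  have hx1 : ∀ u ∈ U, χ u = 1 := hx1 ()
  have hfin : Finite (GK K ⧸ U) := Subgroup.quotient_finite_of_isOpen U hU
  obtain ⟨U', hUn', hU', hx1'⟩ := exists_common (κ := Unit) (n := fun _ => n')
    (fun _ => ψ) fun _ => hψ
  have hx1' : ∀ u ∈ U', ψ u = 1 := hx1' ()
  have hfin' : Finite (GK K ⧸ U') := Subgroup.quotient_finite_of_isOpen U' hU'
  set s : ℕ := N - Module.finrank ℚ V with hs
  have g1 := (tw_C hm hσ hgood hV.1 ⟨n, χ⟩ hχ B₁ hB₁).2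
  have g2 := (tensor_size hm hσ hgood 2 _ one_artin B₂ hB₂).2
  have g3 := (tensor_size hm hσ hgood r ψ hψ B hB).2
  refine core_rigid (K := K) (T := tC ρ X d (2 * m) N s σ) (c := fun v => χ.character (σ v)⁻¹)
    (w := fun v => ψ.character (σ v)⁻¹) (s := s) (a := n) (b := n') (Nat.cast_nonneg _)
    (Nat.cast_nonneg _) (Nat.cast_nonneg _) (fun v => abs_tC _ _ _ _ _ _ _ _)
    (fun v => norm_char_le U χ hx1 (σ v)⁻¹) (fun v => norm_char_le U' ψ hx1' (σ v)⁻¹)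
    (has_norm χ hχ hirr σ hσ) (S₂ := size (2 * (2 * m)) 0 B₂)
    (x := fun ε => size (2 * m) 0 B₁ ε - twistRank ρ χ)
    (y := size (2 * (r * m)) 0 B) ?_ ?_ r ?_ (char_pow_mul hc hθ σ hσ) he hδ hη
  · refine g2.congr fun ε => ?_
    simp only [RR_one, mul_one]
    rfl
  · refine g1.congr fun ε => ?_
    simp only [RR_zero]
  · refine g3.congr fun ε => ?_
    simp only [RR_zero]
    rfl

/-- the consequences for the defects -/
theorem rigidT_defects (hmd : m ≤ d) (hV : IsPart X d m N ρ) {n : ℕ}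
    {χ : Representation ℂ (GK K) (Fin n → ℂ)}
    (hχ : IsArtin χ) (hirr : χ.IsIrreducible) {k₂ : ℕ}
    (h2 : TensorPole X d m N ρ 2 (1 : Representation ℂ (GK K) (Fin 1 → ℂ)) k₂) (hk₂ : k₂ ≤ 1)
    {δ : ℤ} (h1 : TwistDefect X d m N ρ χ δ) (hδ : δ ≠ 0) :
    (δ = 1 ∨ δ = -1) ∧ k₂ = 1 ∧ (∀ g, (χ.character g).im = 0) ∧
    ∀ (r n' n'' : ℕ) (ψ : Representation ℂ (GK K) (Fin n' → ℂ))
      (θ : Representation ℂ (GK K) (Fin n'' → ℂ)) (B : HeightOneSpectrum (𝓞 K) → ℂ[X]),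
      IsArtin ψ → IsArtin θ → (∀ g, θ.character g = χ.character g ^ r * ψ.character g) →
      IsTensorSystem X d m N ρ r ψ B →
      Tendsto (size (2 * (r * m)) 0 B) (𝓝[>] 0)
        (𝓝 ((-δ : ℤ) ^ r * Module.finrank ℂ θ.invariants)) := by
  classical
  have hm : 2 * m ≤ 2 * d := by omega
  choose σ hσ using exists_isFrob (F := K)
  have hgood := good_of_part hm hV hσ
  obtain ⟨B₁, hB₁, t1⟩ := h1
  obtain ⟨B₂, hB₂, t2⟩ := h2
  have t1' : Tendsto (fun ε => size (2 * m) 0 B₁ ε - twistRank ρ χ) (𝓝[>] 0) (𝓝 (-(δ : ℝ))) := by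
    have := t1.sub_const (twistRank ρ χ : ℝ)
    have e0 : ((twistRank ρ χ : ℝ) - δ) - twistRank ρ χ = -(δ : ℝ) := by ring
    rwa [e0] at this
  obtain ⟨U, hUn, hU, hx1⟩ := exists_common (κ := Unit) (n := fun _ => n)
    (fun _ => χ) fun _ => hχ
  have hfin : Finite (GK K ⧸ U) := Subgroup.quotient_finite_of_isOpen U hU
  have hx1 : ∀ u ∈ U, χ u = 1 := hx1 ()
  -- the sign
  obtain ⟨e, he, hek⟩ : ∃ e : ℤ, (e = 1 ∨ e = -1) ∧ 1 ≤ e * δ := by
    rcases lt_or_gt_of_ne hδ with h | h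
    · exact ⟨-1, Or.inr rfl, by omega⟩
    · exact ⟨1, Or.inl rfl, by omega⟩
  have he' : (e : ℝ) = 1 ∨ (e : ℝ) = -1 := by
    rcases he with h | h
    · left; rw [h]; norm_num
    · right; rw [h]; norm_num
  have hQ : Tendsto (fun ε => size (2 * (2 * m)) 0 B₂ ε +
      2 * (e : ℝ) * (size (2 * m) 0 B₁ ε - twistRank ρ χ) + 1) (𝓝[>] 0)
      (𝓝 ((k₂ : ℝ) + 2 * (e : ℝ) * (-(δ : ℝ)) + 1)) := (t2.add (t1'.const_mul _)).add_const _
  obtain ⟨mi, hmi, hmi0⟩ := has_im χ hχ σ hσ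
  set s : ℕ := N - Module.finrank ℚ V with hs
  have g1 := (tw_C hm hσ hgood hV.1 ⟨n, χ⟩ hχ B₁ hB₁).2
  have g2 := (tensor_size hm hσ hgood 2 _ one_artin B₂ hB₂).2
  have him : mi ≤ (k₂ : ℝ) + 2 * (e : ℝ) * (-(δ : ℝ)) + 1 := by
    refine core_im (K := K) (T := tC ρ X d (2 * m) N s σ) (c := fun v => χ.character (σ v)⁻¹)
      (s := s) (a := n) (Nat.cast_nonneg _)
      (fun v => abs_tC _ _ _ _ _ _ _ _) (fun v => norm_char_le U χ hx1 (σ v)⁻¹)
      (has_norm χ hχ hirr σ hσ) (S₂ := size (2 * (2 * m)) 0 B₂)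
      (x := fun ε => size (2 * m) 0 B₁ ε - twistRank ρ χ) ?_ ?_ he' hQ hmi
    · refine g2.congr fun ε => ?_
      simp only [RR_one, mul_one]
      rfl
    · refine g1.congr fun ε => ?_
      simp only [RR_zero]
  have hmi1 : 0 ≤ mi := Has.nonneg hmi fun v => sq_nonneg _
  have hk2' : (k₂ : ℝ) ≤ 1 := by exact_mod_cast hk₂
  have hek' : (1 : ℝ) ≤ (e : ℝ) * δ := by exact_mod_cast hek
  have e1 : (e : ℝ) * δ = 1 := by nlinarith
  have e2 : (k₂ : ℝ) = 1 := by nlinarith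
  have e1' : e * δ = 1 := by exact_mod_cast e1
  have e2' : k₂ = 1 := by exact_mod_cast e2
  have hke : δ = e := by
    rcases he with h | h
    · rw [h] at e1' ⊢
      omega
    · rw [h] at e1' ⊢
      omega
  have hz : (k₂ : ℝ) + 2 * (e : ℝ) * (-(δ : ℝ)) + 1 = 0 := by
    rw [e2]
    linarith
  rw [hz] at hQ him
  refine ⟨by rw [hke]; exact he, e2', hmi0 him, fun r n' n'' ψ θ B hψ hθ hc hB => ?_⟩
  have h5 := rigid_lim (C := r * (((N - Module.finrank ℚ V : ℕ) : ℝ) + n) ^ (r - 1) * n')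
    (by positivity) hQ (y := size (2 * (r * m)) 0 B)
    (z := (-(e : ℝ)) ^ r * Module.finrank ℂ θ.invariants)
    (fun δ η hδ hη => (rigidT hmd hV hχ hirr hB₁ hB₂ he' r hψ hθ hc hB hδ hη).mono
      fun ε hε => hε.2)
  rw [hke]
  push_cast
  exact h5

/-- **The dichotomy.** -/
theorem dichotomy (hmd : m ≤ d) (hV : IsPart X d m N ρ) {k₂ : ℕ}
    (h2 : TensorPole X d m N ρ 2 (1 : Representation ℂ (GK K) (Fin 1 → ℂ)) k₂) (hk₂ : k₂ ≤ 1)
    (H : ∀ (n : ℕ) (χ : Representation ℂ (GK K) (Fin n → ℂ)), IsArtin χ →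
      χ.IsIrreducible → ∃ δ : ℤ, TwistDefect X d m N ρ χ δ) :
    (∀ (F : IntermediateField K (AlgebraicClosure K)) [NumberField F]
      (B : HeightOneSpectrum (𝓞 F) → ℂ[X]), Pool.Agent.W353.EF.IsEulerSystem X d (2 * m) N B →
      Tendsto (Pool.Agent.W353.EF.size (2 * m) B) (𝓝[>] 0) (𝓝 (rank ρ F : ℝ))) ∨
    ∃ (n : ℕ) (χ : Representation ℂ (GK K) (Fin n → ℂ)) (δ : ℤ),
      IsArtin χ ∧ χ.IsIrreducible ∧ (∀ g, (χ.character g).im = 0) ∧ (δ = 1 ∨ δ = -1) ∧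
      k₂ = 1 ∧ TwistDefect X d m N ρ χ δ ∧
      (∀ (n' : ℕ) (χ' : Representation ℂ (GK K) (Fin n' → ℂ)), IsArtin χ' →
        χ'.IsIrreducible → IsEmpty (χ'.Equiv χ) → TwistDefect X d m N ρ χ' 0) ∧
      (∀ (F : IntermediateField K (AlgebraicClosure K)) [NumberField F]
        (B : HeightOneSpectrum (𝓞 F) → ℂ[X]), Pool.Agent.W353.EF.IsEulerSystem X d (2 * m) N B →
        Tendsto (Pool.Agent.W353.EF.size (2 * m) B) (𝓝[>] 0)
          (𝓝 ((rank ρ F : ℝ) - δ * fixedDim χ F))) ∧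
      ∀ (r n' n'' : ℕ) (ψ : Representation ℂ (GK K) (Fin n' → ℂ))
        (θ : Representation ℂ (GK K) (Fin n'' → ℂ)) (B : HeightOneSpectrum (𝓞 K) → ℂ[X]),
        IsArtin ψ → IsArtin θ → (∀ g, θ.character g = χ.character g ^ r * ψ.character g) →
        IsTensorSystem X d m N ρ r ψ B →
        Tendsto (size (2 * (r * m)) 0 B) (𝓝[>] 0)
          (𝓝 ((-δ : ℤ) ^ r * Module.finrank ℂ θ.invariants)) := by
  classical
  have hm : 2 * m ≤ 2 * d := by omega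
  obtain ⟨κ, hκf, n, χ, δ, M, g1, g2, -, g4, -, -, g7⟩ :=
    (Pool.Agent.W353.AT.tateOverAllFields hmd hV).2 H
  -- at most one exceptional representation
  have hsum : ∑ k, ((δ k : ℤ) : ℝ) ^ 2 ≤ 1 := by
    choose σ hσ using exists_isFrob (F := K)
    have hgood := good_of_part hm hV hσ
    obtain ⟨U, hUn, hU, hx1⟩ := exists_common χ fun k => (g1 k).1
    have hfin : Finite (GK K ⧸ U) := Subgroup.quotient_finite_of_isOpen U hU
    have hB : ∀ k, ∃ B : HeightOneSpectrum (𝓞 K) → ℂ[X],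
        IsTwistedSystem X d (2 * m) N (χ k) 0 B ∧
        Tendsto (size (2 * m) 0 B) (𝓝[>] 0) (𝓝 ((twistRank ρ (χ k) : ℝ) - δ k)) :=
      fun k => (g1 k).2.2.2
    choose B hB hlim using hB
    obtain ⟨B₂, hB₂, t2⟩ := h2
    set s : ℕ := N - Module.finrank ℚ V with hs
    have h3 := bessel_two_lim U hU Finset.univ χ hx1 (fun _ => (0 : ℝ)) σ hσ
      (T := tC ρ X d (2 * m) N s σ) (s := s) (Nat.cast_nonneg _)
      (fun v => abs_tC _ _ _ _ _ _ _ _)
      (x := fun k ε => size (2 * m) 0 (B k) ε - twistRank ρ (χ k))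
      (fun k _ => (tw_C hm hσ hgood hV.1 ⟨n k, χ k⟩ (g1 k).1 (B k) (hB k)).2)
      (S := size (2 * (2 * m)) 0 B₂) (by
        refine (tensor_size hm hσ hgood 2 _ one_artin B₂ hB₂).2.congr fun ε => ?_
        simp only [RR_one, mul_one, pow_two]
        rfl) (fun k _ => (g1 k).2.1) (fun k _ k' _ h _ => g2 k k' h)
      (y := fun k => -((δ k : ℤ) : ℝ)) (fun k _ => by
        have := (hlim k).sub_const (twistRank ρ (χ k) : ℝ)
        have e0 : ((twistRank ρ (χ k) : ℝ) - δ k) - twistRank ρ (χ k) = -((δ k : ℤ) : ℝ) := by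
          ring
        rwa [e0] at this) t2
    have h4 : (k₂ : ℝ) ≤ 1 := by exact_mod_cast hk₂
    refine le_trans (le_of_eq ?_) (h3.trans h4)
    refine Finset.sum_congr rfl fun k _ => ?_
    ring
  rcases isEmpty_or_nonempty κ with hκ | ⟨⟨k₀⟩⟩
  · left
    intro F _ B hB
    have h6 := ((g7 F).1 B hB).2
    rw [Finset.univ_eq_empty, Finset.sum_empty, sub_zero] at h6
    exact h6
  · right
    have hone : ∀ k, (1 : ℝ) ≤ ((δ k : ℤ) : ℝ) ^ 2 := by
      intro k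
      have h1 : δ k ≠ 0 := (g1 k).2.2.1
      have h2 : 1 ≤ δ k ^ 2 := by
        have := sq_pos_of_ne_zero h1
        omega
      exact_mod_cast h2
    have huniq : ∀ k, k = k₀ := by
      intro k
      by_contra hne
      have h1 : ((δ k : ℤ) : ℝ) ^ 2 + ((δ k₀ : ℤ) : ℝ) ^ 2 ≤ ∑ k, ((δ k : ℤ) : ℝ) ^ 2 := by
        rw [← Finset.sum_pair (f := fun k => ((δ k : ℤ) : ℝ) ^ 2) hne]
        exact Finset.sum_le_univ_sum_of_nonneg fun _ => sq_nonneg _
      have := hone k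
      have := hone k₀
      linarith
    obtain ⟨a1, a2, a3, a4⟩ := g1 k₀
    obtain ⟨b1, b2, b3, b4⟩ := rigidT_defects hmd hV a1 a2 h2 hk₂ a4 a3
    refine ⟨n k₀, χ k₀, δ k₀, a1, a2, b3, b1, b2, a4, fun n' χ' h1 h2 h3 =>
      g4 n' χ' h1 h2 fun k => by rw [huniq k]; exact h3, fun F _ B hB => ?_, b4⟩
    have h6 := ((g7 F).1 B hB).2
    have h7 : ∑ k, ((δ k : ℤ) : ℝ) * (fixedDim (χ k) F : ℝ) =
        (δ k₀ : ℝ) * fixedDim (χ k₀) F := by
      refine Finset.sum_eq_single_of_mem k₀ (Finset.mem_univ _) fun k _ hk => ?_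
      exact absurd (huniq k) hk
    rw [h7] at h6
    exact h6

end

end Pool.Agent.Y139.SM
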