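import Pool.Agent.Y139.SM.Final
import Pool.Agent.Y139.SM.GDefs

/-! The sizes of the `L`-functions of the tensor powers of `H^i(X)`; positivity. -/

set_option autoImplicit false

namespace Pool.Agent.Y139.SM

open Complex Filter Topology ComplexConjugate NumberField IsDedekindDomain Asymptotics
  Pool.Agent.W401.Cheb Pool.Agent.W540.BE Pool.Agent.W353.L1 Polynomial
open Pool.Agent.H341R2 (lam lam_tendsto)
open Pool.Agent.W353.PV (tF Eig alp pick pick_spec)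
open Pool.Agent.W353.EF (LFun)
open Pool.Agent.W353.EH (edgePoint size)
open Pool.Agent.W353.AT (IsArtin exists_common)

section
variable {K : Type} [Field K] [NumberField K] {l : ℕ} {X : Set (MvPolynomial (Fin l) (𝓞 K))}
  {d i N : ℕ}

theorem edge_gen (r : ℕ) : ((((r : ℝ) * ((i : ℝ) / 2) : ℝ)) : ℂ) + 1 + ((0 : ℝ) : ℂ) * I =
    edgePoint (r * i) 0 := by
  unfold edgePoint
  push_cast
  ring

/-- **The sizes of the tensor powers of the cohomology.** -/
theorem power_size (hi : i ≤ 2 * d) {σ : HeightOneSpectrum (𝓞 K) → GK K}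
    (hσ : ∀ v, IsFrob v (σ v))
    (r : ℕ) {n : ℕ} (χ : Representation ℂ (GK K) (Fin n → ℂ)) (hχ : IsArtin χ)
    (B : HeightOneSpectrum (𝓞 K) → ℂ[X]) (hB : IsPowerSystem X d i N r χ B) :
    (∀ᶠ ε : ℝ in 𝓝[>] 0, LFun B (edgePoint (r * i) 0 + ε) ≠ 0) ∧
    Tendsto (fun ε : ℝ => (EP (nm K) ε fun v => (tF X d i N K v) ^ r * RR χ 0 σ v) / lam ε -
      size (r * i) 0 B ε) (𝓝[>] 0) (𝓝 0) := by
  classical
  obtain ⟨U, hUn, hU, hx1⟩ := exists_common (κ := Unit) (n := fun _ => n)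
    (fun _ => χ) fun _ => hχ
  have hx1 : ∀ u ∈ U, χ u = 1 := hx1 ()
  have hfin : Finite (GK K ⧸ U) := Subgroup.quotient_finite_of_isOpen U hU
  set β : HeightOneSpectrum (𝓞 K) → Fin N → ℂ := fun v =>
    pick fun α => Eig X d i v α ∧ ∀ σ, IsFrob v σ → ∀ z : ℂ, (B v).eval z =
      ∏ f : Fin r → Fin N, LinearMap.det (1 - ((∏ j, α (f j)) * z) • χ σ⁻¹) with hβ
  have hb : ∀ᶠ v in cofinite, Eig X d i v (β v) ∧
      ∀ σ, IsFrob v σ → ∀ z : ℂ, (B v).eval z =
        ∏ f : Fin r → Fin N, LinearMap.det (1 - ((∏ j, β v (f j)) * z) • χ σ⁻¹) :=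
    hB.1.mono fun v hv => pick_spec hv
  have hq0 : ∀ v : HeightOneSpectrum (𝓞 K), (0 : ℝ) < (nm K v : ℝ) := fun v => by
    have := Pool.Agent.W353.L1.nm_pos v
    exact_mod_cast this
  have hnorm0 : ∀ᶠ v in cofinite, ∀ j, ‖β v j‖ = (nm K v : ℝ) ^ ((i : ℝ) / 2) :=
    hb.mono fun v hv j => hv.1.norm j
  have hnorm : ∀ᶠ v in cofinite, ∀ j, ‖prods r (β v) j‖ =
      (nm K v : ℝ) ^ ((r : ℝ) * ((i : ℝ) / 2)) := by
    refine hnorm0.mono fun v hv j => ?_
    unfold prods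
    rw [norm_prod, Finset.prod_congr rfl fun i _ => hv _, Finset.prod_const, Finset.card_univ,
      Fintype.card_fin, mul_comm, Real.rpow_mul (hq0 v).le, Real.rpow_natCast]
  have htF : ∀ᶠ v in cofinite, ((tF X d i N K v : ℝ) : ℂ) =
      (∑ j, β v j) * ((nm K v : ℕ) : ℂ) ^ (-((((i : ℝ) / 2 : ℝ)) : ℂ)) := by
    refine hb.mono fun v hv => ?_
    have h3 : Eig X d i v (alp X d i N K v) := pick_spec ⟨_, hv.1⟩
    have h4 := hv.1.unique' hi h3
    have h5 : ∑ j, alp X d i N K v j = ∑ j, β v j := (congrArg Multiset.sum h4).symm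
    have h6 := tr_eq (w := (i : ℝ) / 2) (α := alp X d i N K) (fun j => h3.norm j) (h3.im hi)
    rw [h5] at h6
    exact h6
  have hsum : ∀ᶠ v in cofinite, ∑ j, prods r (β v) j =
      (((tF X d i N K v) ^ r : ℝ) : ℂ) *
        ((((nm K v : ℝ) ^ ((r : ℝ) * ((i : ℝ) / 2)) : ℝ)) : ℂ) := by
    filter_upwards [htF] with v hv
    have hqC : ((nm K v : ℕ) : ℂ) ≠ 0 := by
      have := (hq0 v).ne'
      exact_mod_cast this
    have h1 : ∑ j, β v j = ((tF X d i N K v : ℝ) : ℂ) *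
        ((((nm K v : ℝ) ^ ((i : ℝ) / 2) : ℝ)) : ℂ) := by
      rw [hv, mul_assoc, Complex.ofReal_cpow (hq0 v).le]
      have e : (((nm K v : ℝ)) : ℂ) = ((nm K v : ℕ) : ℂ) := by push_cast; rfl
      rw [e, ← Complex.cpow_add _ _ hqC, neg_add_cancel, Complex.cpow_zero, mul_one]
    rw [prods_sum, h1, mul_pow, mul_comm (r : ℝ), Real.rpow_mul (hq0 v).le, Real.rpow_natCast]
    push_cast
    rfl
  have hreal : ∀ᶠ v in cofinite, (∑ j, prods r (β v) j).im = 0 := by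
    refine hsum.mono fun v hv => ?_
    rw [hv, ← Complex.ofReal_mul, Complex.ofReal_im]
  have hsz := size_corr ((r : ℝ) * ((i : ℝ) / 2)) (fun v => prods r (β v)) hnorm hreal U χ hx1 0 B
    (hb.mono fun v hv g hg z => by
      rw [hv.2 g hg z]
      exact (prods_prod (β v) (fun y => LinearMap.det (1 - (y * z) • χ g⁻¹))).symm)
    (by
      rw [edge_gen]
      exact hB.2) (LFun B) (fun s _ => rfl) σ hσ
  simp only [edge_gen] at hsz
  refine ⟨hsz.1, ?_⟩
  have htr : ∀ᶠ v in cofinite, tr ((r : ℝ) * ((i : ℝ) / 2)) (fun v => prods r (β v)) v =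
      (tF X d i N K v) ^ r := by
    filter_upwards [hnorm, hreal, hsum] with v h1 h2 h3
    have h5 := tr_eq (w := (r : ℝ) * ((i : ℝ) / 2)) (α := fun v => prods r (β v)) (v := v) h1 h2
    rw [h3] at h5
    have h7 : ((((nm K v : ℝ) ^ ((r : ℝ) * ((i : ℝ) / 2)) : ℝ)) : ℂ) *
        ((nm K v : ℕ) : ℂ) ^ (-((((r : ℝ) * ((i : ℝ) / 2) : ℝ)) : ℂ)) = 1 := by
      have hqC : ((nm K v : ℕ) : ℂ) ≠ 0 := by
        have := (hq0 v).ne'
        exact_mod_cast this
      rw [Complex.ofReal_cpow (hq0 v).le]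
      have e : (((nm K v : ℝ)) : ℂ) = ((nm K v : ℕ) : ℂ) := by push_cast; rfl
      rw [e, ← Complex.cpow_add _ _ hqC, add_neg_cancel, Complex.cpow_zero]
    rw [mul_assoc, h7, mul_one] at h5
    exact_mod_cast h5
  have hcong := EP_cofinite (K := K)
    (φ := fun v => (tF X d i N K v) ^ r * RR χ 0 σ v)
    (ψ := fun v => tr ((r : ℝ) * ((i : ℝ) / 2)) (fun v => prods r (β v)) v * RR χ 0 σ v)
    (B := (N : ℝ) ^ r * n) (C := ((N ^ r : ℕ) : ℝ) * n)
    (fun v => by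
      rw [abs_mul, abs_pow]
      exact mul_le_mul (pow_le_pow_left₀ (abs_nonneg _) (abs_tr_le _ _ _) r)
        (abs_RR_le U χ hx1 _ _ _) (abs_nonneg _) (by positivity))
    (fun v => by
      rw [abs_mul]
      exact mul_le_mul (abs_tr_le _ _ _) (abs_RR_le U χ hx1 _ _ _) (abs_nonneg _) (by positivity))
    (htr.mono fun v hv => by rw [hv])
  have h8 := hcong.add hsz.2
  rw [add_zero] at h8
  refine h8.congr fun ε => ?_
  have e : (fun v => ((tr ((r : ℝ) * ((i : ℝ) / 2)) (fun v => prods r (β v)) v : ℂ) *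
      (χ.character (σ v)⁻¹ * zz 0 v)).re) =
      fun v => tr ((r : ℝ) * ((i : ℝ) / 2)) (fun v => prods r (β v)) v * RR χ 0 σ v := by
    funext v
    rw [Complex.re_ofReal_mul]
    rfl
  rw [e]
  unfold size
  ring

end

end Pool.Agent.Y139.SM
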