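import Pool.Agent.W353.AT.Bessel

/-! Bessel's inequality with the second moment, for Artin twists of a bounded function on the primes. -/

set_option autoImplicit false

namespace Pool.Agent.Y139.SM

open Complex Filter Topology ComplexConjugate Pool.Agent.H341R2 NumberField IsDedekindDomain
  Pool.Agent.W401.Cheb Pool.Agent.W540.BE Polynomial Pool.Agent.W353.L1 Pool.Agent.W353.AT

section
variable {F : Type} [Field F] [NumberField F]

variable (U : Subgroup (GK F)) [U.Normal] (hU : IsOpen (U : Set (GK F))) [Finite (GK F ⧸ U)]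
  {κ : Type*} (K : Finset κ) {n : κ → ℕ}
  (ρ : ∀ k, Representation ℂ (GK F) (Fin (n k) → ℂ)) (hρ : ∀ k, ∀ u ∈ U, ρ k u = 1)
  (τ : κ → ℝ) (σ : HeightOneSpectrum (𝓞 F) → GK F) (hσ : ∀ v, IsFrob v (σ v))

include hU hσ in
/-- orthogonality of the characters with heights -/
theorem has_kl (hirr : ∀ k ∈ K, (ρ k).IsIrreducible)
    (hne : ∀ k ∈ K, ∀ l ∈ K, k ≠ l → τ k = τ l → IsEmpty ((ρ k).Equiv (ρ l)))
    {k l : κ} (hk : k ∈ K) (hl : l ∈ K) [Decidable (k = l)] :
    Has (((chF U ρ hρ k).mul (chF U ρ hρ l).star).R (τ k - τ l) σ) (if k = l then 1 else 0) := by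
  classical
  have h2 := ((chF U ρ hρ k).mul (chF U ρ hρ l).star).has hU σ hσ (τ k - τ l)
  refine h2.congr (fun v => rfl) ?_
  by_cases hkl : k = l
  · subst hkl
    rw [sub_self, if_pos rfl, if_pos rfl]
    have h4 := avC_ortho U ρ hρ (hirr k hk) (hirr k hk)
    rw [if_pos ⟨Representation.Equiv.refl _⟩] at h4
    have h5 : avC U ((chF U ρ hρ k).mul (chF U ρ hρ k).star).f = 1 := h4
    rw [h5, Complex.one_re]
  · rw [if_neg hkl]
    by_cases ht : τ k - τ l = 0
    · rw [if_pos ht]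
      have h4 := avC_ortho U ρ hρ (hirr k hk) (hirr l hl)
      rw [if_neg (by
        rw [not_nonempty_iff]
        exact hne k hk l hl hkl (sub_eq_zero.1 ht))] at h4
      have h5 : avC U ((chF U ρ hρ k).mul (chF U ρ hρ l).star).f = 0 := h4
      rw [h5, Complex.zero_re]
    · rw [if_neg ht]

/-- the combination of the characters with heights -/
noncomputable def gg (c : κ → ℝ) (v : HeightOneSpectrum (𝓞 F)) : ℂ :=
  ∑ k ∈ K, (c k : ℂ) * ((chF U ρ hρ k).f (QuotientGroup.mk (σ v)) * zz (τ k) v)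

theorem re_gg (c : κ → ℝ) (v : HeightOneSpectrum (𝓞 F)) :
    (gg U K ρ hρ τ σ c v).re = ∑ k ∈ K, c k * RR (ρ k) (τ k) σ v := by
  unfold gg
  rw [Complex.re_sum]
  refine Finset.sum_congr rfl fun k _ => ?_
  rw [Complex.re_ofReal_mul]
  rfl

theorem sq_gg (c : κ → ℝ) (v : HeightOneSpectrum (𝓞 F)) :
    ‖gg U K ρ hρ τ σ c v‖ ^ 2 = ∑ k ∈ K, ∑ l ∈ K, c k * c l *
      ((chF U ρ hρ k).mul (chF U ρ hρ l).star).R (τ k - τ l) σ v := by
  have h1 : (‖gg U K ρ hρ τ σ c v‖ ^ 2 : ℝ) =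
      (gg U K ρ hρ τ σ c v * conj (gg U K ρ hρ τ σ c v)).re := by
    rw [Complex.mul_conj, Complex.normSq_eq_norm_sq, Complex.ofReal_re]
  rw [h1]
  unfold gg
  rw [map_sum, Finset.sum_mul_sum, Complex.re_sum]
  refine Finset.sum_congr rfl fun k _ => ?_
  rw [Complex.re_sum]
  refine Finset.sum_congr rfl fun l _ => ?_
  have h2 : (c k : ℂ) * ((chF U ρ hρ k).f (QuotientGroup.mk (σ v)) * zz (τ k) v) *
      conj ((c l : ℂ) * ((chF U ρ hρ l).f (QuotientGroup.mk (σ v)) * zz (τ l) v)) =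
      ((c k * c l : ℝ) : ℂ) * (((chF U ρ hρ k).f (QuotientGroup.mk (σ v)) *
        conj ((chF U ρ hρ l).f (QuotientGroup.mk (σ v)))) * zz (τ k - τ l) v) := by
    rw [map_mul, map_mul, Complex.conj_ofReal, conj_zz, sub_eq_add_neg, zz_add]
    push_cast
    ring
  rw [h2, Complex.re_ofReal_mul]
  rfl

variable {T : HeightOneSpectrum (𝓞 F) → ℝ} {s : ℝ} (hs : 0 ≤ s) (hT : ∀ v, |T v| ≤ s)
  {x : κ → ℝ → ℝ} (hx : ∀ k ∈ K, Tendsto (fun ε : ℝ =>
    (EP (nm F) ε fun v => T v * RR (ρ k) (τ k) σ v) / lam ε - x k ε) (𝓝[>] 0) (𝓝 0))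
  {S : ℝ → ℝ} (hS : Tendsto (fun ε : ℝ =>
    (EP (nm F) ε fun v => T v * T v) / lam ε - S ε) (𝓝[>] 0) (𝓝 0))

include hU hρ hσ hs hT hx hS in
/-- **Bessel's inequality for the sizes, with the second moment.** -/
theorem bessel_two (hirr : ∀ k ∈ K, (ρ k).IsIrreducible)
    (hne : ∀ k ∈ K, ∀ l ∈ K, k ≠ l → τ k = τ l → IsEmpty ((ρ k).Equiv (ρ l)))
    {η : ℝ} (hη : 0 < η) : ∀ᶠ ε : ℝ in 𝓝[>] 0, ∑ k ∈ K, (x k ε) ^ 2 ≤ S ε + η := by
  classical
  have hN : NormSys (nm F) := normSys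
  -- the sizes are bounded
  obtain ⟨D, hD0, hD⟩ : ∃ D : ℝ, 0 < D ∧ ∀ k ∈ K, (n k : ℝ) ≤ D := by
    refine ⟨1 + ∑ k ∈ K, (n k : ℝ), by positivity, fun k hk => ?_⟩
    have := Finset.single_le_sum (f := fun k => (n k : ℝ)) (fun k _ => Nat.cast_nonneg _) hk
    linarith
  set B : ℝ := 2 * (s * D) + 1 with hB
  have hB0 : 0 < B := by positivity
  have hEP1 : ∀ᶠ ε : ℝ in 𝓝[>] 0, (EP (nm F) ε fun _ => 1) ≤ 2 * lam ε := by
    filter_upwards [(EP_one F).eventually_lt_const (by norm_num : (1 : ℝ) < 2),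
      lam_tendsto.eventually_gt_atTop 0] with ε h1 h2
    rw [div_lt_iff₀ h2] at h1
    exact h1.le
  have hTR : ∀ k ∈ K, ∀ v, |T v * RR (ρ k) (τ k) σ v| ≤ s * D := by
    intro k hk v
    rw [abs_mul]
    exact mul_le_mul (hT v) ((abs_RR_le U (ρ k) (hρ k) _ _ _).trans (hD k hk)) (abs_nonneg _) hs
  have hxB : ∀ᶠ ε : ℝ in 𝓝[>] 0, ∀ k ∈ K, |x k ε| ≤ B := by
    rw [Filter.eventually_all_finset]
    intro k hk
    filter_upwards [hEP1, (Metric.tendsto_nhds.1 (hx k hk)) 1 one_pos,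
      lam_tendsto.eventually_gt_atTop 0, self_mem_nhdsWithin] with ε h1 h2 h3 h4
    have hε : (0 : ℝ) < ε := h4
    rw [Real.dist_eq, sub_zero] at h2
    have h5 : |EP (nm F) ε fun v => T v * RR (ρ k) (τ k) σ v| ≤
        s * D * EP (nm F) ε fun _ => 1 := by
      rw [← EP_const_mul]
      refine EP_abs_le (B := s * D) (fun v => ?_) (fun v => ?_) hε
      · rw [mul_one, abs_of_nonneg (by positivity)]
      · rw [mul_one]
        exact hTR k hk v
    have h6 : |(EP (nm F) ε fun v => T v * RR (ρ k) (τ k) σ v) / lam ε| ≤ 2 * (s * D) := by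
      rw [abs_div, abs_of_pos h3, div_le_iff₀ h3]
      refine h5.trans ?_
      calc s * D * EP (nm F) ε (fun _ => 1) ≤ s * D * (2 * lam ε) :=
            mul_le_mul_of_nonneg_left h1 (by positivity)
        _ = _ := by ring
    have h7 : |x k ε| ≤ |(EP (nm F) ε fun v => T v * RR (ρ k) (τ k) σ v) / lam ε| +
        |(EP (nm F) ε fun v => T v * RR (ρ k) (τ k) σ v) / lam ε - x k ε| := by
      have := abs_sub_abs_le_abs_sub (x k ε)
        ((EP (nm F) ε fun v => T v * RR (ρ k) (τ k) σ v) / lam ε)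
      rw [abs_sub_comm] at this
      linarith
    rw [hB]
    linarith
  -- the small quantities
  set C : ℝ := (K.card : ℝ) with hC
  have hC0 : 0 ≤ C := Nat.cast_nonneg _
  set θ : ℝ := η / (4 * (C * B + C * C * (B * B) + 1)) with hθ
  have hθ0 : 0 < θ := by positivity
  have hsm1 : ∀ᶠ ε : ℝ in 𝓝[>] 0, ∀ k ∈ K,
      |(EP (nm F) ε fun v => T v * RR (ρ k) (τ k) σ v) / lam ε - x k ε| < θ := by
    rw [Filter.eventually_all_finset]
    intro k hk
    have := (Metric.tendsto_nhds.1 (hx k hk)) θ hθ0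
    refine this.mono fun ε h => ?_
    rwa [Real.dist_eq, sub_zero] at h
  set R2 : κ → κ → HeightOneSpectrum (𝓞 F) → ℝ := fun k l =>
    ((chF U ρ hρ k).mul (chF U ρ hρ l).star).R (τ k - τ l) σ with hR2
  have hsm2 : ∀ᶠ ε : ℝ in 𝓝[>] 0, ∀ k ∈ K, ∀ l ∈ K,
      |(EP (nm F) ε (R2 k l)) / lam ε - if k = l then 1 else 0| < θ := by
    rw [Filter.eventually_all_finset]
    intro k hk
    rw [Filter.eventually_all_finset]
    intro l hl
    have h1 := has_kl U hU K ρ hρ τ σ hσ hirr hne hk hl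
    exact (Metric.tendsto_nhds.1 h1.2) θ hθ0
  have hsm3 : ∀ᶠ ε : ℝ in 𝓝[>] 0,
      |(EP (nm F) ε fun v => T v * T v) / lam ε - S ε| < η / 4 := by
    have := (Metric.tendsto_nhds.1 hS) (η / 4) (by positivity)
    refine this.mono fun ε h => ?_
    rwa [Real.dist_eq, sub_zero] at h
  have hR2b : ∀ k ∈ K, ∀ l ∈ K, ∃ b : ℝ, ∀ v, |R2 k l v| ≤ b := fun k hk l hl =>
    (has_kl U hU K ρ hρ τ σ hσ hirr hne hk hl).1
  filter_upwards [hxB, hsm1, hsm2, hsm3, lam_tendsto.eventually_gt_atTop 0, self_mem_nhdsWithin]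
    with ε g1 g2 g3 g4 g5 g6
  have hε : (0 : ℝ) < ε := g6
  set c : κ → ℝ := fun k => x k ε with hc
  set W : HeightOneSpectrum (𝓞 F) → ℝ := fun v => ∑ k ∈ K, c k * RR (ρ k) (τ k) σ v with hW
  -- first step
  have e1 : ∑ k ∈ K, c k * ((EP (nm F) ε fun v => T v * RR (ρ k) (τ k) σ v) / lam ε) =
      (EP (nm F) ε fun v => T v * W v) / lam ε := by
    have e2 : ∀ k ∈ K, c k * ((EP (nm F) ε fun v => T v * RR (ρ k) (τ k) σ v) / lam ε) =
        (EP (nm F) ε fun v => c k * (T v * RR (ρ k) (τ k) σ v)) / lam ε := by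
      intro k _
      rw [EP_const_mul, mul_div_assoc]
    rw [Finset.sum_congr rfl e2, ← Finset.sum_div, ← EP_sum hN hε K
      (fun k v => c k * (T v * RR (ρ k) (τ k) σ v)) (fun k => |c k| * (s * D)) (by
        intro k hk v
        rw [abs_mul]
        exact mul_le_mul_of_nonneg_left (hTR k hk v) (abs_nonneg _))]
    congr 2
    funext v
    rw [hW, Finset.mul_sum]
    refine Finset.sum_congr rfl fun k _ => ?_
    ring
  have e3 : ∑ k ∈ K, (x k ε) ^ 2 ≤ (EP (nm F) ε fun v => T v * W v) / lam ε + C * (B * θ) := by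
    rw [← e1]
    have e4 : ∑ k ∈ K, (x k ε) ^ 2 ≤ ∑ k ∈ K, (c k *
        ((EP (nm F) ε fun v => T v * RR (ρ k) (τ k) σ v) / lam ε) + B * θ) := by
      refine Finset.sum_le_sum fun k hk => ?_
      have h1 := g2 k hk
      have h2 := g1 k hk
      have h3 : x k ε * (x k ε - (EP (nm F) ε fun v => T v * RR (ρ k) (τ k) σ v) / lam ε) ≤
          B * θ := by
        refine (le_abs_self _).trans ?_
        rw [abs_mul]
        refine mul_le_mul h2 ?_ (abs_nonneg _) hB0.le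
        rw [abs_sub_comm]
        exact h1.le
      have h4 : c k = x k ε := rfl
      rw [h4]
      nlinarith
    rw [Finset.sum_add_distrib, Finset.sum_const, nsmul_eq_mul] at e4
    exact e4
  -- second step
  have hWb : ∀ v, |W v| ≤ C * (B * D) := by
    intro v
    rw [hW]
    refine (Finset.abs_sum_le_sum_abs _ _).trans ?_
    refine (Finset.sum_le_sum (g := fun _ => B * D) fun k hk => ?_).trans ?_
    · rw [abs_mul]
      exact mul_le_mul (g1 k hk) ((abs_RR_le U (ρ k) (hρ k) _ _ _).trans (hD k hk))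
        (abs_nonneg _) hB0.le
    · rw [Finset.sum_const, nsmul_eq_mul]
  have hgb : ∀ v, ‖gg U K ρ hρ τ σ c v‖ ≤ C * (B * D) := by
    intro v
    unfold gg
    refine (norm_sum_le _ _).trans ?_
    refine (Finset.sum_le_sum (g := fun _ => B * D) fun k hk => ?_).trans ?_
    · rw [norm_mul, norm_mul, norm_zz, mul_one, Complex.norm_real, Real.norm_eq_abs]
      refine mul_le_mul (g1 k hk) ?_ (norm_nonneg _) hB0.le
      exact (norm_char_le U (ρ k) (hρ k) (σ v)⁻¹).trans (hD k hk)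
    · rw [Finset.sum_const, nsmul_eq_mul]
  have hWg : ∀ v, |W v| ≤ ‖gg U K ρ hρ τ σ c v‖ := by
    intro v
    have := re_gg U K ρ hρ τ σ c v
    rw [hW]
    simp only
    rw [← this]
    exact Complex.abs_re_le_norm _
  have hpt : ∀ v, T v * W v ≤ 1 / 2 * (T v * T v) + 1 / 2 * ‖gg U K ρ hρ τ σ c v‖ ^ 2 := by
    intro v
    have h1 : W v * W v ≤ ‖gg U K ρ hρ τ σ c v‖ ^ 2 := by
      have h2 := hWg v
      have h3 : |W v| * |W v| = W v * W v := abs_mul_abs_self _
      nlinarith [abs_nonneg (W v)]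
    nlinarith [sq_nonneg (T v - W v)]
  have hTT : ∀ v, |T v * T v| ≤ s * s := by
    intro v
    rw [abs_mul]
    exact mul_le_mul (hT v) (hT v) (abs_nonneg _) hs
  have hgg : ∀ v, |‖gg U K ρ hρ τ σ c v‖ ^ 2| ≤ (C * (B * D)) ^ 2 := by
    intro v
    rw [abs_of_nonneg (by positivity)]
    exact pow_le_pow_left₀ (norm_nonneg _) (hgb v) 2
  have e5 : (EP (nm F) ε fun v => T v * W v) ≤
      1 / 2 * (EP (nm F) ε fun v => T v * T v) +
      1 / 2 * (EP (nm F) ε fun v => ‖gg U K ρ hρ τ σ c v‖ ^ 2) := by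
    rw [← EP_const_mul, ← EP_const_mul, ← EP_add hN hε (B := 1 / 2 * (s * s))
      (B' := 1 / 2 * (C * (B * D)) ^ 2)]
    · refine EP_mono (B := s * (C * (B * D)))
        (B' := 1 / 2 * (s * s) + 1 / 2 * (C * (B * D)) ^ 2) (fun v => ?_) (fun v => ?_) hpt hε
      · rw [abs_mul]
        exact mul_le_mul (hT v) (hWb v) (abs_nonneg _) hs
      · refine (abs_add_le _ _).trans (add_le_add ?_ ?_)
        · rw [abs_mul, abs_of_nonneg (by norm_num : (0 : ℝ) ≤ 1 / 2)]
          exact mul_le_mul_of_nonneg_left (hTT v) (by norm_num)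
        · rw [abs_mul, abs_of_nonneg (by norm_num : (0 : ℝ) ≤ 1 / 2)]
          exact mul_le_mul_of_nonneg_left (hgg v) (by norm_num)
    · intro v
      rw [abs_mul, abs_of_nonneg (by norm_num : (0 : ℝ) ≤ 1 / 2)]
      exact mul_le_mul_of_nonneg_left (hTT v) (by norm_num)
    · intro v
      rw [abs_mul, abs_of_nonneg (by norm_num : (0 : ℝ) ≤ 1 / 2)]
      exact mul_le_mul_of_nonneg_left (hgg v) (by norm_num)
  -- third step
  have hR2b' : ∃ b : ℝ, ∀ k ∈ K, ∀ l ∈ K, ∀ v, |R2 k l v| ≤ b := by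
    choose! b hb using hR2b
    refine ⟨∑ k ∈ K, ∑ l ∈ K, |b k l|, fun k hk l hl v => ?_⟩
    have h1 : |b k l| ≤ ∑ l ∈ K, |b k l| :=
      Finset.single_le_sum (f := fun l => |b k l|) (fun _ _ => abs_nonneg _) hl
    have h2 : ∑ l ∈ K, |b k l| ≤ ∑ k ∈ K, ∑ l ∈ K, |b k l| :=
      Finset.single_le_sum (f := fun k => ∑ l ∈ K, |b k l|)
        (fun _ _ => Finset.sum_nonneg fun _ _ => abs_nonneg _) hk
    exact (hb k hk l hl v).trans ((le_abs_self _).trans (h1.trans h2))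
  obtain ⟨b, hb⟩ := hR2b'
  have e6 : (EP (nm F) ε fun v => ‖gg U K ρ hρ τ σ c v‖ ^ 2) =
      ∑ k ∈ K, ∑ l ∈ K, c k * c l * EP (nm F) ε (R2 k l) := by
    have e7 : (fun v => ‖gg U K ρ hρ τ σ c v‖ ^ 2) = fun v => ∑ k ∈ K, ∑ l ∈ K,
        c k * c l * R2 k l v := by
      funext v
      exact sq_gg U K ρ hρ τ σ c v
    rw [e7, EP_sum hN hε K (fun k v => ∑ l ∈ K, c k * c l * R2 k l v)
      (fun k => ∑ l ∈ K, |c k * c l| * b) (by
        intro k hk v
        refine (Finset.abs_sum_le_sum_abs _ _).trans (Finset.sum_le_sum fun l hl => ?_)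
        rw [abs_mul]
        exact mul_le_mul_of_nonneg_left (hb k hk l hl v) (abs_nonneg _))]
    refine Finset.sum_congr rfl fun k hk => ?_
    rw [EP_sum hN hε K (fun l v => c k * c l * R2 k l v)
      (fun l => |c k * c l| * b) (by
        intro l hl v
        rw [abs_mul]
        exact mul_le_mul_of_nonneg_left (hb k hk l hl v) (abs_nonneg _))]
    refine Finset.sum_congr rfl fun l hl => ?_
    rw [EP_const_mul]
  have e8 : (EP (nm F) ε fun v => ‖gg U K ρ hρ τ σ c v‖ ^ 2) / lam ε ≤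
      ∑ k ∈ K, (x k ε) ^ 2 + C * C * (B * B * θ) := by
    rw [e6, Finset.sum_div]
    have e9 : ∑ k ∈ K, (∑ l ∈ K, c k * c l * EP (nm F) ε (R2 k l)) / lam ε ≤
        ∑ k ∈ K, ((x k ε) ^ 2 + C * (B * B * θ)) := by
      refine Finset.sum_le_sum fun k hk => ?_
      rw [Finset.sum_div]
      have e10 : ∑ l ∈ K, c k * c l * EP (nm F) ε (R2 k l) / lam ε ≤
          ∑ l ∈ K, ((if k = l then (x k ε) ^ 2 else 0) + B * B * θ) := by
        refine Finset.sum_le_sum fun l hl => ?_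
        have h1 := g3 k hk l hl
        have h2 : c k * c l * (EP (nm F) ε (R2 k l) / lam ε - if k = l then 1 else 0) ≤
            B * B * θ := by
          refine (le_abs_self _).trans ?_
          rw [abs_mul, abs_mul]
          exact mul_le_mul (mul_le_mul (g1 k hk) (g1 l hl) (abs_nonneg _) hB0.le) h1.le
            (abs_nonneg _) (by positivity)
        have h3 : c k * c l * (if k = l then (1 : ℝ) else 0) =
            if k = l then (x k ε) ^ 2 else 0 := by
          by_cases h : k = l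
          · subst h
            rw [if_pos rfl, if_pos rfl]
            ring
          · rw [if_neg h, if_neg h, mul_zero]
        rw [mul_div_assoc]
        rw [mul_sub, h3] at h2
        linarith
      rw [Finset.sum_add_distrib, Finset.sum_ite_eq, if_pos hk, Finset.sum_const,
        nsmul_eq_mul] at e10
      exact e10
    rw [Finset.sum_add_distrib, Finset.sum_const, nsmul_eq_mul] at e9
    refine e9.trans (le_of_eq ?_)
    ring
  -- conclusion
  have e11 : (EP (nm F) ε fun v => T v * W v) / lam ε ≤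
      1 / 2 * ((EP (nm F) ε fun v => T v * T v) / lam ε) +
      1 / 2 * ((EP (nm F) ε fun v => ‖gg U K ρ hρ τ σ c v‖ ^ 2) / lam ε) := by
    rw [← mul_div_assoc, ← mul_div_assoc, ← add_div]
    exact div_le_div_of_nonneg_right e5 g5.le
  have e12 : C * (B * θ) + 1 / 2 * (C * C * (B * B * θ)) ≤ η / 4 := by
    have h1 : θ * (C * B + C * C * (B * B)) ≤ η / 4 := by
      rw [hθ, div_mul_eq_mul_div, div_le_div_iff₀ (by positivity) (by norm_num)]
      have : 0 ≤ C * B + C * C * (B * B) := by positivity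
      nlinarith
    have h2 : 0 ≤ C * C * (B * B * θ) := by positivity
    nlinarith
  have e13 := (abs_lt.1 g4).2
  linarith

include hU hρ hσ hs hT hx hS in
/-- **Bessel's inequality for the limits, with the second moment.** -/
theorem bessel_two_lim (hirr : ∀ k ∈ K, (ρ k).IsIrreducible)
    (hne : ∀ k ∈ K, ∀ l ∈ K, k ≠ l → τ k = τ l → IsEmpty ((ρ k).Equiv (ρ l)))
    {y : κ → ℝ} (hy : ∀ k ∈ K, Tendsto (x k) (𝓝[>] 0) (𝓝 (y k))) {M : ℝ}
    (hM : Tendsto S (𝓝[>] 0) (𝓝 M)) :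
    ∑ k ∈ K, (y k) ^ 2 ≤ M := by
  refine le_of_forall_pos_le_add fun η hη => ?_
  exact le_of_tendsto_of_tendsto (tendsto_finsetSum K fun k hk => (hy k hk).pow 2)
    (hM.add_const η) (bessel_two U hU K ρ hρ τ σ hσ hs hT hx hS hirr hne hη)

end

end Pool.Agent.Y139.SM
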