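import Pool.Agent.Y139.SM.Fin2

/-! The tensor square and the tensor cube. -/

set_option autoImplicit false

namespace Pool.Agent.Y139.SM

open Complex Filter Topology ComplexConjugate NumberField IsDedekindDomain Asymptotics
  Pool.Agent.W401.Cheb Pool.Agent.W540.BE Pool.Agent.W353.L1 Polynomial
open Pool.Agent.H341R2 (lam lam_tendsto)
open Pool.Agent.W353.PV (tF)
open Pool.Agent.W353.EF (LFun)
open Pool.Agent.W353.EH (edgePoint size HasOrder)
open Pool.Agent.W353.AT (IsArtin exists_common)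

section
variable {K : Type} [Field K] [NumberField K] {l : ℕ} {X : Set (MvPolynomial (Fin l) (𝓞 K))}
  {d i N : ℕ}

/-- **Positivity for the tensor powers of the cohomology.** -/
theorem power_pos (hi : i ≤ 2 * d) {κ : Type} [Fintype κ]
    (r n : κ → ℕ) (χ : ∀ k, Representation ℂ (GK K) (Fin (n k) → ℂ)) (hχ : ∀ k, IsArtin (χ k))
    (B : κ → HeightOneSpectrum (𝓞 K) → ℂ[X])
    (hB : ∀ k, IsPowerSystem X d i N (r k) (χ k) (B k)) (c : κ → ℝ)
    (hc : ∀ t : ℝ, |t| ≤ N → ∀ g, 0 ≤ ∑ k, c k * (t ^ r k * ((χ k).character g).re))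
    {η : ℝ} (hη : 0 < η) :
    ∀ᶠ ε : ℝ in 𝓝[>] 0, -η ≤ ∑ k, c k * size (r k * i) 0 (B k) ε := by
  choose σ hσ using exists_isFrob (F := K)
  exact lin_pos (T := tF X d i N K) (Nat.cast_nonneg N) (fun v => abs_tr_le _ _ _) σ r n χ hχ
    (fun k => size (r k * i) 0 (B k))
    (fun k => (power_size hi hσ (r k) (χ k) (hχ k) (B k) (hB k)).2) c hc hη

theorem cube_pw {t b e : ℝ} (ht : |t| ≤ b) (he : e = 1 ∨ e = -1) :
    0 ≤ b + e * ((2 * b - 1) * t - t ^ 3) + (b - 2) * t ^ 2 := by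
  have h := abs_le.1 ht
  rcases he with rfl | rfl
  · have : 0 ≤ (t + 1) ^ 2 * (b - t) := mul_nonneg (sq_nonneg _) (by linarith)
    nlinarith
  · have : 0 ≤ (t - 1) ^ 2 * (b + t) := mul_nonneg (sq_nonneg _) (by linarith)
    nlinarith

/-- **The square and the cube.** -/
theorem squareCube (hi : i ≤ 2 * d) (χ : Representation ℂ (GK K) (Fin 1 → ℂ)) (hχ : IsArtin χ)
    (hreal : ∀ g, χ.character g = 1 ∨ χ.character g = -1)
    (B₁ B₂ B₃ : HeightOneSpectrum (𝓞 K) → ℂ[X]) (hB₁ : IsPowerSystem X d i N 1 χ B₁)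
    (hB₂ : IsPowerSystem X d i N 2 (1 : Representation ℂ (GK K) (Fin 1 → ℂ)) B₂)
    (hB₃ : IsPowerSystem X d i N 3 χ B₃) {η : ℝ} (hη : 0 < η) :
    ∀ᶠ ε : ℝ in 𝓝[>] 0, |(2 * N - 1) * size (1 * i) 0 B₁ ε - size (3 * i) 0 B₃ ε| ≤
      N + (N - 2) * size (2 * i) 0 B₂ ε + η := by
  classical
  choose σ hσ using exists_isFrob (F := K)
  obtain ⟨U, hUn, hU, hx1⟩ := exists_common (κ := Unit) (n := fun _ => 1)
    (fun _ => χ) fun _ => hχ
  have hx1 : ∀ u ∈ U, χ u = 1 := hx1 ()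
  have hfin : Finite (GK K ⧸ U) := Subgroup.quotient_finite_of_isOpen U hU
  set T := tF X d i N K with hT
  have hTb : ∀ v, |T v| ≤ (N : ℝ) := fun v => abs_tr_le _ _ _
  have g1 := (power_size hi hσ 1 χ hχ B₁ hB₁).2
  have g2 := (power_size hi hσ 2 _ one_artin B₂ hB₂).2
  have g3 := (power_size hi hσ 3 χ hχ B₃ hB₃).2
  have hN : NormSys (nm K) := normSys
  have hrr : ∀ v, RR χ 0 σ v = 1 ∨ RR χ 0 σ v = -1 := by
    intro v
    rw [RR_zero]
    rcases hreal (σ v)⁻¹ with h | h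
    · left; rw [h]; simp
    · right; rw [h]; simp
  have hrb : ∀ v, |RR χ 0 σ v| ≤ 1 := by
    intro v
    rcases hrr v with h | h <;> rw [h] <;> norm_num
  have key : ∀ e : ℝ, (e = 1 ∨ e = -1) → ∀ ε : ℝ, 0 < ε →
      0 ≤ (N : ℝ) * (EP (nm K) ε fun _ => 1) +
        e * ((2 * N - 1) * (EP (nm K) ε fun v => T v ^ 1 * RR χ 0 σ v) -
          EP (nm K) ε fun v => T v ^ 3 * RR χ 0 σ v) +
        (N - 2) * EP (nm K) ε fun v => T v ^ 2 := by
    intro e he ε hε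
    have b1 : ∀ v, |T v ^ 1 * RR χ 0 σ v| ≤ (N : ℝ) := fun v => by
      rw [abs_mul, pow_one]
      calc |T v| * |RR χ 0 σ v| ≤ N * 1 := mul_le_mul (hTb v) (hrb v) (abs_nonneg _) (by positivity)
        _ = N := mul_one _
    have b3 : ∀ v, |T v ^ 3 * RR χ 0 σ v| ≤ (N : ℝ) ^ 3 := fun v => by
      rw [abs_mul, abs_pow]
      calc |T v| ^ 3 * |RR χ 0 σ v| ≤ (N : ℝ) ^ 3 * 1 :=
            mul_le_mul (pow_le_pow_left₀ (abs_nonneg _) (hTb v) 3) (hrb v) (abs_nonneg _)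
              (by positivity)
        _ = _ := mul_one _
    have b2 : ∀ v, |T v ^ 2| ≤ (N : ℝ) ^ 2 := fun v => by
      rw [abs_pow]
      exact pow_le_pow_left₀ (abs_nonneg _) (hTb v) 2
    have c0 : ∀ v : HeightOneSpectrum (𝓞 K), |(N : ℝ) * 1| ≤ N := fun _ => by simp
    have c1 : ∀ v, |(e * (2 * N - 1)) * (T v ^ 1 * RR χ 0 σ v)| ≤ |e * (2 * N - 1)| * N := fun v => by
      rw [abs_mul]
      exact mul_le_mul_of_nonneg_left (b1 v) (abs_nonneg _)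
    have c3 : ∀ v, |(-e) * (T v ^ 3 * RR χ 0 σ v)| ≤ |(-e)| * (N : ℝ) ^ 3 := fun v => by
      rw [abs_mul]
      exact mul_le_mul_of_nonneg_left (b3 v) (abs_nonneg _)
    have c2 : ∀ v, |((N : ℝ) - 2) * T v ^ 2| ≤ |(N : ℝ) - 2| * (N : ℝ) ^ 2 := fun v => by
      rw [abs_mul]
      exact mul_le_mul_of_nonneg_left (b2 v) (abs_nonneg _)
    have d1 : ∀ v, |(-e) * (T v ^ 3 * RR χ 0 σ v) + ((N : ℝ) - 2) * T v ^ 2| ≤
        |(-e)| * (N : ℝ) ^ 3 + |(N : ℝ) - 2| * (N : ℝ) ^ 2 := fun v =>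
      (abs_add_le _ _).trans (add_le_add (c3 v) (c2 v))
    have d2 : ∀ v, |(e * (2 * N - 1)) * (T v ^ 1 * RR χ 0 σ v) + ((-e) * (T v ^ 3 * RR χ 0 σ v) +
        ((N : ℝ) - 2) * T v ^ 2)| ≤
        |e * (2 * N - 1)| * N + (|(-e)| * (N : ℝ) ^ 3 + |(N : ℝ) - 2| * (N : ℝ) ^ 2) := fun v =>
      (abs_add_le _ _).trans (add_le_add (c1 v) (d1 v))
    have h1 : (EP (nm K) ε fun v => (N : ℝ) * 1 + ((e * (2 * N - 1)) * (T v ^ 1 * RR χ 0 σ v) +
        ((-e) * (T v ^ 3 * RR χ 0 σ v) + ((N : ℝ) - 2) * T v ^ 2))) =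
        (N : ℝ) * (EP (nm K) ε fun _ => 1) +
        e * ((2 * N - 1) * (EP (nm K) ε fun v => T v ^ 1 * RR χ 0 σ v) -
          EP (nm K) ε fun v => T v ^ 3 * RR χ 0 σ v) +
        (N - 2) * EP (nm K) ε fun v => T v ^ 2 := by
      rw [EP_add hN hε c0 d2, EP_add hN hε c1 d1, EP_add hN hε c3 c2, EP_const_mul, EP_const_mul,
        EP_const_mul, EP_const_mul]
      ring
    rw [← h1]
    unfold EP
    refine tsum_nonneg fun v => mul_nonneg ?_ (wP_nonneg ε v)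
    beta_reduce
    rcases hrr v with h | h
    · have := cube_pw (hTb v) he
      rw [h]
      nlinarith
    · have := cube_pw (e := -e) (hTb v) (by
        rcases he with h | h
        · right; rw [h]
        · left; rw [h]; norm_num)
      rw [h]
      nlinarith
  set θ : ℝ := η / (2 * ((N : ℝ) + (2 * N + 1) + 1 + (N + 2))) with hθ
  have hθ0 : 0 < θ := by positivity
  filter_upwards [(Metric.tendsto_nhds.1 g1) θ hθ0, (Metric.tendsto_nhds.1 g2) θ hθ0,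
    (Metric.tendsto_nhds.1 g3) θ hθ0, (Metric.tendsto_nhds.1 (EP_one K)) θ hθ0,
    lam_tendsto.eventually_gt_atTop 0, self_mem_nhdsWithin] with ε k1 k2 k3 k0 k4 k5
  have hε : (0 : ℝ) < ε := k5
  rw [Real.dist_eq, sub_zero] at k1 k2 k3
  rw [Real.dist_eq] at k0
  simp only [RR_one, mul_one] at k2
  set a1 := (EP (nm K) ε fun v => T v ^ 1 * RR χ 0 σ v) / lam ε with ha1
  set a2 := (EP (nm K) ε fun v => T v ^ 2) / lam ε with ha2
  set a3 := (EP (nm K) ε fun v => T v ^ 3 * RR χ 0 σ v) / lam ε with ha3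
  set a0 := (EP (nm K) ε fun _ => 1) / lam ε with ha0
  have r1 : (EP (nm K) ε fun v => T v ^ 1 * RR χ 0 σ v) = a1 * lam ε := by
    rw [ha1, div_mul_cancel₀ _ k4.ne']
  have r2 : (EP (nm K) ε fun v => T v ^ 2) = a2 * lam ε := by rw [ha2, div_mul_cancel₀ _ k4.ne']
  have r3 : (EP (nm K) ε fun v => T v ^ 3 * RR χ 0 σ v) = a3 * lam ε := by
    rw [ha3, div_mul_cancel₀ _ k4.ne']
  have r0 : (EP (nm K) ε fun _ => 1) = a0 * lam ε := by rw [ha0, div_mul_cancel₀ _ k4.ne']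
  have key2 : ∀ e : ℝ, (e = 1 ∨ e = -1) →
      0 ≤ (N : ℝ) * a0 + e * ((2 * N - 1) * a1 - a3) + (N - 2) * a2 := by
    intro e he
    have h1 := key e he ε hε
    rw [r1, r2, r3, r0] at h1
    by_contra hcon
    rw [not_le] at hcon
    have := mul_neg_of_neg_of_pos hcon k4
    nlinarith
  have m1 := abs_lt.1 k1
  have m2 := abs_lt.1 k2
  have m3 := abs_lt.1 k3
  have m0 := abs_lt.1 k0
  have hN0 : (0 : ℝ) ≤ N := Nat.cast_nonneg N
  set y1 := size (1 * i) 0 B₁ ε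
  set y2 := size (2 * i) 0 B₂ ε
  set y3 := size (3 * i) 0 B₃ ε
  have e0 : |(N : ℝ) * (a0 - 1)| ≤ N * θ := by
    rw [abs_mul, abs_of_nonneg hN0]
    exact mul_le_mul_of_nonneg_left k0.le hN0
  have e1 : |(2 * (N : ℝ) - 1) * (a1 - y1)| ≤ (2 * N + 1) * θ := by
    rw [abs_mul]
    refine mul_le_mul ?_ k1.le (abs_nonneg _) (by positivity)
    rw [abs_le]
    constructor <;> linarith
  have e2 : |((N : ℝ) - 2) * (a2 - y2)| ≤ (N + 2) * θ := by
    rw [abs_mul]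
    refine mul_le_mul ?_ k2.le (abs_nonneg _) (by positivity)
    rw [abs_le]
    constructor <;> linarith
  have hθη : ((N : ℝ) + (2 * N + 1) + 1 + (N + 2)) * θ = η / 2 := by
    rw [hθ]
    have : ((N : ℝ) + (2 * N + 1) + 1 + (N + 2)) ≠ 0 := by positivity
    field_simp
  have f0 := abs_le.1 e0
  have f1 := abs_le.1 e1
  have f2 := abs_le.1 e2
  have p1 := key2 1 (Or.inl rfl)
  have p2 := key2 (-1) (Or.inr rfl)
  rw [abs_le]
  constructor <;> nlinarith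

end

end Pool.Agent.Y139.SM
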