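import Pool.Agent.Y139.SM.Cube

/-! The tensor square and the tensor cube: orders. -/

set_option autoImplicit false

namespace Pool.Agent.Y139.SM

open Complex Filter Topology NumberField IsDedekindDomain
  Pool.Agent.W401.Cheb Pool.Agent.W540.BE Pool.Agent.W353.L1 Polynomial
open Pool.Agent.W353.EF (LFun)
open Pool.Agent.W353.EH (edgePoint size HasOrder)
open Pool.Agent.W353.AT (IsArtin)

section
variable {K : Type} [Field K] [NumberField K] {l : ℕ} {X : Set (MvPolynomial (Fin l) (𝓞 K))}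
  {d i N : ℕ}

/-- **The order of the `L`-function and the orders of its square and its cube.** -/
theorem squareCubeOrders (hi : i ≤ 2 * d) (χ : Representation ℂ (GK K) (Fin 1 → ℂ))
    (hχ : IsArtin χ) (hreal : ∀ g, χ.character g = 1 ∨ χ.character g = -1)
    (B₁ B₂ B₃ : HeightOneSpectrum (𝓞 K) → ℂ[X]) (hB₁ : IsPowerSystem X d i N 1 χ B₁)
    (hB₂ : IsPowerSystem X d i N 2 (1 : Representation ℂ (GK K) (Fin 1 → ℂ)) B₂)
    (hB₃ : IsPowerSystem X d i N 3 χ B₃) :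
    (∀ᶠ ε : ℝ in 𝓝[>] 0, LFun B₁ (edgePoint (1 * i) 0 + ε) ≠ 0 ∧
      LFun B₂ (edgePoint (2 * i) 0 + ε) ≠ 0 ∧ LFun B₃ (edgePoint (3 * i) 0 + ε) ≠ 0) ∧
    (∀ η : ℝ, 0 < η → ∀ᶠ ε : ℝ in 𝓝[>] 0,
      |(2 * N - 1) * size (1 * i) 0 B₁ ε - size (3 * i) 0 B₃ ε| ≤
        N + (N - 2) * size (2 * i) 0 B₂ ε + η) ∧
    (2 ≤ N → ∀ k₁ k₂ k₃ : ℤ, HasOrder (1 * i) 0 B₁ k₁ → HasOrder (2 * i) 0 B₂ k₂ →
      HasOrder (3 * i) 0 B₃ k₃ → -1 ≤ k₂ → (k₃ ≤ 0 → k₁ ≤ 0) ∧ (0 ≤ k₃ → 0 ≤ k₁)) := by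
  classical
  choose σ hσ using exists_isFrob (F := K)
  have n1 := (power_size hi hσ 1 χ hχ B₁ hB₁).1
  have n2 := (power_size hi hσ 2 _ one_artin B₂ hB₂).1
  have n3 := (power_size hi hσ 3 χ hχ B₃ hB₃).1
  refine ⟨?_, fun η hη => squareCube hi χ hχ hreal B₁ B₂ B₃ hB₁ hB₂ hB₃ hη, ?_⟩
  · filter_upwards [n1, n2, n3] with ε h1 h2 h3
    exact ⟨h1, h2, h3⟩
  · intro hN k₁ k₂ k₃ o1 o2 o3 hk₂
    have t1 := size_of_order n1 o1
    have t2 := size_of_order n2 o2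
    have t3 := size_of_order n3 o3
    have hN' : (2 : ℝ) ≤ N := by exact_mod_cast hN
    have hk₂' : (-1 : ℝ) ≤ k₂ := by exact_mod_cast hk₂
    have hl : |(2 * (N : ℝ) - 1) * (-(k₁ : ℝ)) - (-(k₃ : ℝ))| ≤ N + (N - 2) * (-(k₂ : ℝ)) := by
      have h1 : Tendsto (fun ε => |(2 * (N : ℝ) - 1) * size (1 * i) 0 B₁ ε -
          size (3 * i) 0 B₃ ε|) (𝓝[>] 0)
          (𝓝 |(2 * (N : ℝ) - 1) * (-(k₁ : ℝ)) - (-(k₃ : ℝ))|) := ((t1.const_mul _).sub t3).abs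
      refine le_of_forall_pos_le_add fun η hη => ?_
      have h2 : Tendsto (fun ε => (N : ℝ) + (N - 2) * size (2 * i) 0 B₂ ε + η) (𝓝[>] 0)
          (𝓝 ((N : ℝ) + (N - 2) * (-(k₂ : ℝ)) + η)) :=
        ((t2.const_mul _).const_add _).add_const _
      exact le_of_tendsto_of_tendsto h1 h2
        (squareCube hi χ hχ hreal B₁ B₂ B₃ hB₁ hB₂ hB₃ hη)
    have h2 : (N : ℝ) + (N - 2) * (-(k₂ : ℝ)) ≤ 2 * N - 2 := by nlinarith
    have h3 := abs_le.1 (hl.trans h2)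
    have h5 : (0 : ℝ) < 2 * N - 1 := by linarith
    constructor
    · intro hk₃
      have h4 : (k₃ : ℝ) ≤ 0 := by exact_mod_cast hk₃
      by_contra hcon
      have h6 : (1 : ℝ) ≤ k₁ := by
        have : 1 ≤ k₁ := by omega
        exact_mod_cast this
      nlinarith [h3.1]
    · intro hk₃
      have h4 : (0 : ℝ) ≤ k₃ := by exact_mod_cast hk₃
      by_contra hcon
      have h6 : (k₁ : ℝ) ≤ -1 := by
        have : k₁ ≤ -1 := by omega
        exact_mod_cast this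
      nlinarith [h3.2]

end

end Pool.Agent.Y139.SM
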