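import Pool.Agent.W353.AT.TDefs

/-!
# The tensor powers of the transcendental part: definitions

`X` is a smooth projective variety over a number field `K`, of dimension `d`, `0 ≤ m ≤ d`, `N` the `2m`-th
Betti number and `V` a part of `H^{2m}(X)(m)`, for example `V = A^m(X) ⊗ ℚ`.  The transcendental part is
the complement `T` of `V(-m)` in `H^{2m}(X)`, of dimension `N - dim V`; for `r = 2` the tensor power
`T^{⊗ r}` is a part of `H^{4m}(X × X)`, and in general of `H^{2rm}(X^r)`.
-/

set_option autoImplicit false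

namespace Pool.Agent.Y139.SM

open NumberField IsDedekindDomain Filter Topology Polynomial
open Pool.Agent.W353.EF (IsFrobenius LFun)
open Pool.Agent.W353.EH (edgePoint size)
open Pool.Agent.W353.TD (eigenvalues)
open Pool.Agent.W353.AT (IsFrobeniusElement IsArtin)

section
variable {K : Type} [Field K] [NumberField K] {l : ℕ} (X : Set (MvPolynomial (Fin l) (𝓞 K)))
  (d m N : ℕ) {V : Type} [AddCommGroup V] [Module ℚ V] [FiniteDimensional ℚ V]
  (ρ : Representation ℚ Gal(AlgebraicClosure K/K) V)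

/-- `β_1, …, β_s`, `s = N - dim V`, are the eigenvalues of the geometric Frobenius at `v` on the
transcendental part `T`: together with the eigenvalues on `V`, multiplied by `q_v^m`, they are the
eigenvalues on `H^{2m}(X)`. -/
def IsTranscendental (v : HeightOneSpectrum (𝓞 K))
    (β : Fin (N - Module.finrank ℚ V) → ℂ) : Prop :=
  ∃ α : Fin N → ℂ, IsFrobenius X d (2 * m) v α ∧ ∀ σ, IsFrobeniusElement v σ →
    Finset.univ.val.map α = Finset.univ.val.map β +
      (eigenvalues (ρ σ⁻¹)).map (fun z => (Ideal.absNorm v.asIdeal : ℂ) ^ m * z)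

/-- The polynomials `B v` are the Euler factors of `L(T^{⊗ r} ⊗ χ, s)` for the complex representation `χ`
of the absolute Galois group of `K`: for almost all primes `v`,
`B_v(z) = ∏ det(1 - β_{f(1)} ⋯ β_{f(r)} z χ(σ⁻¹))`, the product over all `f : {1, …, r} → {1, …, s}`;
at the other primes `B v` is an arbitrary polynomial, and no factor `1 / B_v(q_v^{-s})` has a pole at
`s = r m + 1`. -/
def IsTensorSystem (r : ℕ) {n : ℕ} (χ : Representation ℂ Gal(AlgebraicClosure K/K) (Fin n → ℂ))
    (B : HeightOneSpectrum (𝓞 K) → ℂ[X]) : Prop :=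
  (∀ᶠ v in cofinite, ∃ β : Fin (N - Module.finrank ℚ V) → ℂ, IsTranscendental X d m N ρ v β ∧
    ∀ σ, IsFrobeniusElement v σ → ∀ z : ℂ, (B v).eval z =
      ∏ f : Fin r → Fin (N - Module.finrank ℚ V),
        LinearMap.det (1 - ((∏ i, β (f i)) * z) • χ σ⁻¹)) ∧
  ∀ v, (B v).eval ((Ideal.absNorm v.asIdeal : ℂ) ^ (-edgePoint (2 * (r * m)) 0)) ≠ 0

/-- `L(T^{⊗ r} ⊗ χ, s)` has a pole of order `k` at the edge `s = r m + 1`, in the sense that
`log |L(r m + 1 + ε)| / log(1/ε)` tends to `k` as `ε → 0+`. -/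
def TensorPole (r : ℕ) {n : ℕ} (χ : Representation ℂ Gal(AlgebraicClosure K/K) (Fin n → ℂ))
    (k : ℕ) : Prop :=
  ∃ B : HeightOneSpectrum (𝓞 K) → ℂ[X], IsTensorSystem X d m N ρ r χ B ∧
    Tendsto (size (2 * (r * m)) 0 B) (𝓝[>] 0) (𝓝 (k : ℝ))

end

end Pool.Agent.Y139.SM
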