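import Pool.Agent.Y139.SM.Fin2
import Mathlib.MeasureTheory.Integral.Bochner.Basic
import Mathlib.MeasureTheory.Function.L1Space.Integrable

/-! High odd powers of the transcendental part. -/

set_option autoImplicit false

namespace Pool.Agent.Y139.SM

open Complex Filter Topology ComplexConjugate NumberField IsDedekindDomain Asymptotics
  Pool.Agent.W401.Cheb Pool.Agent.W540.BE Pool.Agent.W353.L1 Polynomial MeasureTheory
open Pool.Agent.H341R2 (lam lam_tendsto)
open Pool.Agent.W353.TD (ch IsPart rank)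
open Pool.Agent.W353.PV (tF)
open Pool.Agent.W353.EF (LFun)
open Pool.Agent.W353.EH (edgePoint size HasOrder)
open Pool.Agent.W353.AT (tC abs_tC IsArtin exists_common tw_C IsTwistedSystem
  twistRank TwistDefect)

section
variable {K : Type} [Field K] [NumberField K] {l : ℕ} {X : Set (MvPolynomial (Fin l) (𝓞 K))}
  {d m N : ℕ} {V : Type} [AddCommGroup V] [Module ℚ V] [FiniteDimensional ℚ V]
  {ρ : Representation ℚ (GK K) V}

theorem highPowers (hmd : m ≤ d) (hV : IsPart X d m N ρ) {n : ℕ}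
    (χ : Representation ℂ (GK K) (Fin n → ℂ)) (hχ : IsArtin χ) {R : ℕ} (hR : Odd R)
    (B : ℕ → HeightOneSpectrum (𝓞 K) → ℂ[X])
    (hB : ∀ r, Odd r → 3 ≤ r → r ≤ R → IsTensorSystem X d m N ρ r χ (B r))
    (B' : HeightOneSpectrum (𝓞 K) → ℂ[X]) (hB' : IsTwistedSystem X d (2 * m) N χ 0 B')
    {η : ℝ} (hη : 0 < η) :
    ∀ᶠ ε : ℝ in 𝓝[>] 0, |size (2 * m) 0 B' ε - twistRank ρ χ +
      ∑ r ∈ Finset.range (R + 1) with Odd r ∧ 3 ≤ r,
        chebC (N - Module.finrank ℚ V : ℕ) R r * size (2 * (r * m)) 0 (B r) ε| ≤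
      n * ((N - Module.finrank ℚ V : ℕ) / R) + η := by
  classical
  have hm : 2 * m ≤ 2 * d := by omega
  choose σ hσ using exists_isFrob (F := K)
  have hgood := good_of_part hm hV hσ
  set s : ℕ := N - Module.finrank ℚ V with hs
  have htw := (tw_C hm hσ hgood hV.1 ⟨n, χ⟩ hχ B' hB').2
  rcases Nat.eq_zero_or_pos s with h0 | h0
  · have h2 : ∀ v, tC ρ X d (2 * m) N s σ v = 0 := fun v => by
      have h3 : |tC ρ X d (2 * m) N s σ v| ≤ (s : ℝ) := abs_tC _ _ _ _ _ _ _ _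
      have h3' : (s : ℝ) = 0 := by rw [h0, Nat.cast_zero]
      exact abs_eq_zero.1 (le_antisymm (h3.trans h3'.le) (abs_nonneg _))
    have h4 : ∀ ε : ℝ, (EP (nm K) ε fun v => tC ρ X d (2 * m) N s σ v * RR χ 0 σ v) = 0 := by
      intro ε
      simp only [h2, zero_mul]
      unfold EP
      simp
    simp only [h4, zero_div, zero_sub] at htw
    have h5 := htw.abs
    rw [abs_zero] at h5
    filter_upwards [h5.eventually_lt_const hη] with ε h6
    have h7 : ∀ r, chebC (s : ℝ) R r = 0 := fun r => by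
      unfold chebC
      rw [h0, Nat.cast_zero]
      ring
    have h9 : ∑ r ∈ Finset.range (R + 1) with Odd r ∧ 3 ≤ r,
        chebC (s : ℝ) R r * size (2 * (r * m)) 0 (B r) ε = 0 :=
      Finset.sum_eq_zero fun r _ => by rw [h7, zero_mul]
    rw [h9, add_zero, h0, Nat.cast_zero, zero_div, mul_zero, zero_add]
    rw [abs_neg] at h6
    exact h6.le
  · have hs0 : (0 : ℝ) < s := by exact_mod_cast h0
    have h1 := odd_powers (T := tC ρ X d (2 * m) N s σ) hs0
      (fun v => abs_tC _ _ _ _ _ _ _ _) σ χ hχ hR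
      (fun r ε => if r = 1 then size (2 * m) 0 B' ε - twistRank ρ χ else
        size (2 * (r * m)) 0 (B r) ε) (fun r h1 h2 => by
          by_cases h3 : r = 1
          · subst h3
            simp only [if_true, pow_one]
            exact htw
          · simp only [if_neg h3]
            have h4 : 3 ≤ r := by
              obtain ⟨k, hk⟩ := h1
              omega
            exact (tensor_size hm hσ hgood r χ hχ (B r) (hB r h1 h4 h2)).2) hη
    filter_upwards [h1] with ε h2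
    have h3 : ∑ r ∈ Finset.range (R + 1) with Odd r ∧ 3 ≤ r,
        chebC (s : ℝ) R r * (if r = 1 then size (2 * m) 0 B' ε - twistRank ρ χ else
          size (2 * (r * m)) 0 (B r) ε) =
        ∑ r ∈ Finset.range (R + 1) with Odd r ∧ 3 ≤ r,
          chebC (s : ℝ) R r * size (2 * (r * m)) 0 (B r) ε :=
      Finset.sum_congr rfl fun r hr => by
        rw [Finset.mem_filter] at hr
        rw [if_neg (by omega)]
    rw [h3] at h2
    simpa using h2

/-- the moments of a probability space -/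
theorem moment_bound {Ω : Type} [MeasurableSpace Ω] (P : Measure Ω) [IsProbabilityMeasure P]
    {t c : Ω → ℝ} (ht : Measurable t) (hc : Measurable c) {s n : ℝ} (hs : 0 ≤ s) (hn : 0 ≤ n)
    (hts : ∀ ω, |t ω| ≤ s) (hcn : ∀ ω, |c ω| ≤ n) (h0 : ∫ ω, t ω * c ω ∂P = 0)
    {R : ℕ} (hR : Odd R) :
    |∑ r ∈ Finset.range (R + 1) with Odd r ∧ 3 ≤ r,
      chebC s R r * ∫ ω, t ω ^ r * c ω ∂P| ≤ n * (s / R) := by
  classical
  have hR0 : (0 : ℝ) < R := by exact_mod_cast hR.pos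
  rcases hs.eq_or_lt with hs0 | hs0
  · have h7 : ∀ r, chebC s R r = 0 := fun r => by
      unfold chebC
      rw [← hs0]
      ring
    simp only [h7, zero_mul, Finset.sum_const_zero, abs_zero]
    positivity
  have hint : ∀ r, Integrable (fun ω => t ω ^ r * c ω) P := by
    intro r
    refine Integrable.of_bound (C := s ^ r * n) ((ht.pow_const r).mul hc).aestronglyMeasurable ?_
    refine Filter.Eventually.of_forall fun ω => ?_
    rw [Real.norm_eq_abs, abs_mul, abs_pow]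
    exact mul_le_mul (pow_le_pow_left₀ (abs_nonneg _) (hts ω) _) (hcn ω) (abs_nonneg _)
      (by positivity)
  have h1 : ∑ r ∈ Finset.range (R + 1) with Odd r ∧ 3 ≤ r, chebC s R r * ∫ ω, t ω ^ r * c ω ∂P =
      ∑ r ∈ Finset.range (R + 1), chebC s R r * ∫ ω, t ω ^ r * c ω ∂P := by
    rw [Finset.sum_filter]
    refine Finset.sum_congr rfl fun r _ => ?_
    split_ifs with h
    · rfl
    · by_cases h2 : Odd r
      · have h3 : r = 1 := by
          by_contra h3
          obtain ⟨k, hk⟩ := h2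
          exact h ⟨⟨k, hk⟩, by omega⟩
        subst h3
        simp only [pow_one]
        rw [h0, mul_zero]
      · rw [chebC_even hR (Nat.not_odd_iff_even.1 h2), zero_mul]
  have h2 : ∑ r ∈ Finset.range (R + 1), chebC s R r * ∫ ω, t ω ^ r * c ω ∂P =
      ∫ ω, (∑ r ∈ Finset.range (R + 1), chebC s R r * t ω ^ r) * c ω ∂P := by
    simp only [← integral_const_mul]
    rw [← integral_finsetSum _ fun r _ => (hint r).const_mul _]
    refine integral_congr_ae (Filter.Eventually.of_forall fun ω => ?_)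
    simp only [Finset.sum_mul, mul_assoc]
  rw [h1, h2, ← Real.norm_eq_abs]
  have h3 := norm_integral_le_of_norm_le_const (μ := P)
    (f := fun ω => (∑ r ∈ Finset.range (R + 1), chebC s R r * t ω ^ r) * c ω)
    (C := n * (s / R)) (Filter.Eventually.of_forall fun ω => by
      rw [Real.norm_eq_abs, abs_mul, mul_comm]
      exact mul_le_mul (hcn ω) (chebC_sum hs0 hR (hts ω)) (abs_nonneg _) hn)
  simpa using h3

/-- **High odd tensor powers.** -/
theorem highPowers_measure (hmd : m ≤ d) (hV : IsPart X d m N ρ) {n : ℕ}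
    (χ : Representation ℂ (GK K) (Fin n → ℂ)) (hχ : IsArtin χ) {R : ℕ} (hR : Odd R)
    {Ω : Type} [MeasurableSpace Ω] (P : Measure Ω) [IsProbabilityMeasure P]
    {t c : Ω → ℝ} (ht : Measurable t) (hc : Measurable c)
    (hts : ∀ ω, |t ω| ≤ (N - Module.finrank ℚ V : ℕ)) (hcn : ∀ ω, |c ω| ≤ n)
    (h0 : ∫ ω, t ω * c ω ∂P = 0)
    (hM : ∀ r, Odd r → 3 ≤ r → r ≤ R → ∃ B, IsTensorSystem X d m N ρ r χ B ∧
      Tendsto (size (2 * (r * m)) 0 B) (𝓝[>] 0) (𝓝 (∫ ω, t ω ^ r * c ω ∂P))) :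
    (∀ B', IsTwistedSystem X d (2 * m) N χ 0 B' → ∀ η : ℝ, 0 < η → ∀ᶠ ε : ℝ in 𝓝[>] 0,
      |size (2 * m) 0 B' ε - twistRank ρ χ| ≤
        2 * n * ((N - Module.finrank ℚ V : ℕ) / R) + η) ∧
    (2 * n * (N - Module.finrank ℚ V) < R → ∀ δ : ℤ, TwistDefect X d m N ρ χ δ → δ = 0) := by
  classical
  have hex : ∀ r, ∃ B, (Odd r → 3 ≤ r → r ≤ R → IsTensorSystem X d m N ρ r χ B ∧
      Tendsto (size (2 * (r * m)) 0 B) (𝓝[>] 0) (𝓝 (∫ ω, t ω ^ r * c ω ∂P))) := by
    intro r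
    by_cases h : Odd r ∧ 3 ≤ r ∧ r ≤ R
    · obtain ⟨B, hB⟩ := hM r h.1 h.2.1 h.2.2
      exact ⟨B, fun _ _ _ => hB⟩
    · exact ⟨fun _ => 0, fun h1 h2 h3 => absurd ⟨h1, h2, h3⟩ h⟩
  choose B hB using hex
  have hR0 : (0 : ℝ) < R := by exact_mod_cast hR.pos
  set s : ℕ := N - Module.finrank ℚ V with hs
  have hmb := moment_bound P ht hc (Nat.cast_nonneg s) (Nat.cast_nonneg n) hts hcn h0 hR
  have hA : ∀ B', IsTwistedSystem X d (2 * m) N χ 0 B' → ∀ η : ℝ, 0 < η → ∀ᶠ ε : ℝ in 𝓝[>] 0,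
      |size (2 * m) 0 B' ε - twistRank ρ χ| ≤ 2 * n * ((s : ℝ) / R) + η := by
    intro B' hB' η hη
    have h1 := highPowers hmd hV χ hχ hR B (fun r h1 h2 h3 => (hB r h1 h2 h3).1) B' hB'
      (η := η / 2) (by positivity)
    have h2 : Tendsto (fun ε => ∑ r ∈ Finset.range (R + 1) with Odd r ∧ 3 ≤ r,
        chebC s R r * size (2 * (r * m)) 0 (B r) ε) (𝓝[>] 0)
        (𝓝 (∑ r ∈ Finset.range (R + 1) with Odd r ∧ 3 ≤ r,
          chebC s R r * ∫ ω, t ω ^ r * c ω ∂P)) :=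
      tendsto_finsetSum _ fun r hr => by
        rw [Finset.mem_filter, Finset.mem_range] at hr
        exact (hB r hr.2.1 hr.2.2 (by omega)).2.const_mul _
    filter_upwards [h1, (Metric.tendsto_nhds.1 h2) (η / 2) (by positivity)] with ε h3 h4
    rw [Real.dist_eq] at h4
    set A := size (2 * m) 0 B' ε - twistRank ρ χ
    set s₁ := ∑ r ∈ Finset.range (R + 1) with Odd r ∧ 3 ≤ r,
        chebC s R r * size (2 * (r * m)) 0 (B r) ε
    set s₂ := ∑ r ∈ Finset.range (R + 1) with Odd r ∧ 3 ≤ r,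
          chebC s R r * ∫ ω, t ω ^ r * c ω ∂P
    have h5 := abs_le.1 h3
    have h6 := abs_lt.1 h4
    have h7 := abs_le.1 hmb
    rw [abs_le]
    constructor <;> linarith [h5.1, h5.2, h6.1, h6.2, h7.1, h7.2]
  refine ⟨hA, fun hlt δ hδ => ?_⟩
  obtain ⟨B', hB', hlim⟩ := hδ
  have h1 : Tendsto (fun ε => |size (2 * m) 0 B' ε - twistRank ρ χ|) (𝓝[>] 0)
      (𝓝 |((twistRank ρ χ : ℝ) - δ) - twistRank ρ χ|) := (hlim.sub_const _).abs
  have e1 : ((twistRank ρ χ : ℝ) - δ) - twistRank ρ χ = -(δ : ℝ) := by ring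
  rw [e1, abs_neg] at h1
  have hc : 2 * (n : ℝ) * ((s : ℝ) / R) < 1 := by
    rw [← mul_div_assoc, div_lt_one hR0]
    exact_mod_cast hlt
  set η : ℝ := (1 - 2 * n * ((s : ℝ) / R)) / 2 with hη
  have hη0 : 0 < η := by
    rw [hη]
    linarith
  have h6 : |(δ : ℝ)| ≤ 2 * n * ((s : ℝ) / R) + η := le_of_tendsto h1 (hA B' hB' η hη0)
  have h7 : |(δ : ℝ)| < 1 := by linarith
  rw [← Int.cast_abs] at h7
  have h8 : |δ| < 1 := by exact_mod_cast h7
  exact Int.abs_lt_one_iff.1 h8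

end

end Pool.Agent.Y139.SM
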