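import Pool.Agent.Y139.SM.Main

/-! The sizes of `L(T)`, `L(T⊗T)` and `L(T⊗T⊗T⊗T)`: an inequality without continuation. -/

set_option autoImplicit false

namespace Pool.Agent.Y139.SM

open Complex Filter Topology ComplexConjugate NumberField IsDedekindDomain Asymptotics
  Pool.Agent.W401.Cheb Pool.Agent.W540.BE Pool.Agent.W353.L1 Polynomial
open Pool.Agent.H341R2 (lam lam_tendsto)
open Pool.Agent.W353.TD (ch IsPart tF_sub_le rank)
open Pool.Agent.W353.PV (tF)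
open Pool.Agent.W353.EF (LFun)
open Pool.Agent.W353.EH (edgePoint size)
open Pool.Agent.W353.AT (tC abs_tC IsArtin exists_common tw_C IsTwistedSystem
  twistRank TwistDefect)

section
variable {K : Type} [Field K] [NumberField K]

/-- **The inequality between the mean values.** -/
theorem core_ineq {T : HeightOneSpectrum (𝓞 K) → ℝ} {c : HeightOneSpectrum (𝓞 K) → ℂ} {s b : ℝ}
    (hT : ∀ v, |T v| ≤ s) (hc : ∀ v, ‖c v‖ ≤ b) (hsb : 0 < s + b)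
    (h3 : Has (fun v => ‖c v‖ ^ 2) 1) {x S₂ S₄ Sψ : ℝ → ℝ}
    (hS₂ : Tendsto (fun ε : ℝ => (EP (nm K) ε fun v => T v ^ 2) / lam ε - S₂ ε) (𝓝[>] 0) (𝓝 0))
    (hSψ : Tendsto (fun ε : ℝ => (EP (nm K) ε fun v => T v ^ 2 * ‖c v‖ ^ 2) / lam ε - Sψ ε)
      (𝓝[>] 0) (𝓝 0))
    (hS₄ : Tendsto (fun ε : ℝ => (EP (nm K) ε fun v => T v ^ 4) / lam ε - S₄ ε) (𝓝[>] 0) (𝓝 0))
    (hx : Tendsto (fun ε : ℝ => (EP (nm K) ε fun v => T v * (c v).re) / lam ε - x ε)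
      (𝓝[>] 0) (𝓝 0)) {η : ℝ} (hη : 0 < η) :
    ∀ᶠ ε : ℝ in 𝓝[>] 0, |x ε| ≤
      (S₂ ε + 1) / 2 - (S₄ ε - 2 * Sψ ε + 1) / (2 * (s + b) ^ 2) + η := by
  set A : HeightOneSpectrum (𝓞 K) → ℝ := fun v => (s + b) ^ 2 * (T v ^ 2 + ‖c v‖ ^ 2) -
      (T v ^ 4 - 2 * (T v ^ 2 * ‖c v‖ ^ 2) + (2 * ‖c v‖ ^ 2 - 1)) with hA
  have hc0 : (0 : ℝ) < 2 * (s + b) ^ 2 := by positivity
  have hb : ∀ v, |2 * (s + b) ^ 2 * (T v * (c v).re)| ≤ A v := by
    intro v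
    rw [abs_le]
    have e1 := pw_four (hT v) (hc v) (e := 1) (Or.inl rfl)
    have e2 := pw_four (hT v) (hc v) (e := -1) (Or.inr rfl)
    constructor
    · have e3 : 2 * (s + b) ^ 2 * (-1 * (T v * (c v).re)) =
        -(2 * (s + b) ^ 2 * (T v * (c v).re)) := by ring
      rw [e3] at e2
      rw [hA]
      linarith
    · rw [one_mul] at e1
      exact e1
  -- bounds
  have b1 : ∀ v, |T v ^ 2| ≤ s ^ 2 := fun v => by
    rw [abs_pow]
    exact pow_le_pow_left₀ (abs_nonneg _) (hT v) 2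
  have b2 : ∀ v, |‖c v‖ ^ 2| ≤ b ^ 2 := fun v => by
    rw [abs_of_nonneg (by positivity)]
    exact pow_le_pow_left₀ (norm_nonneg _) (hc v) 2
  have b3 : ∀ v, |T v ^ 2 * ‖c v‖ ^ 2| ≤ s ^ 2 * b ^ 2 := fun v => by
    rw [abs_mul]
    exact mul_le_mul (b1 v) (b2 v) (abs_nonneg _) (by positivity)
  have b4 : ∀ v, |T v ^ 4| ≤ s ^ 4 := fun v => by
    rw [abs_pow]
    exact pow_le_pow_left₀ (abs_nonneg _) (hT v) 4
  -- the mean value of `A`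
  have hEA : ∀ ε : ℝ, 0 < ε → EP (nm K) ε A = (s + b) ^ 2 * ((EP (nm K) ε fun v => T v ^ 2) +
      EP (nm K) ε fun v => ‖c v‖ ^ 2) - (EP (nm K) ε fun v => T v ^ 4) +
      2 * (EP (nm K) ε fun v => T v ^ 2 * ‖c v‖ ^ 2) - 2 * (EP (nm K) ε fun v => ‖c v‖ ^ 2) +
      EP (nm K) ε fun _ => 1 := by
    intro ε hε
    have hN : NormSys (nm K) := normSys
    have c1 : EP (nm K) ε (fun v => (s + b) ^ 2 * (T v ^ 2 + ‖c v‖ ^ 2)) =
        (s + b) ^ 2 * ((EP (nm K) ε fun v => T v ^ 2) + EP (nm K) ε fun v => ‖c v‖ ^ 2) := by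
      rw [EP_const_mul, EP_add hN hε b1 b2]
    have d1 : ∀ v, |(s + b) ^ 2 * (T v ^ 2 + ‖c v‖ ^ 2)| ≤ (s + b) ^ 2 * (s ^ 2 + b ^ 2) := by
      intro v
      rw [abs_mul, abs_of_nonneg (sq_nonneg (s + b))]
      exact mul_le_mul_of_nonneg_left ((abs_add_le _ _).trans (add_le_add (b1 v) (b2 v)))
        (sq_nonneg _)
    have d2 : ∀ v, |(-1) * T v ^ 4| ≤ s ^ 4 := by
      intro v
      rw [abs_mul, abs_neg, abs_one, one_mul]
      exact b4 v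
    have d3 : ∀ v, |2 * (T v ^ 2 * ‖c v‖ ^ 2)| ≤ 2 * (s ^ 2 * b ^ 2) := by
      intro v
      rw [abs_mul, abs_two]
      exact mul_le_mul_of_nonneg_left (b3 v) (by norm_num)
    have d4 : ∀ v, |(-2) * ‖c v‖ ^ 2| ≤ 2 * b ^ 2 := by
      intro v
      rw [abs_mul, abs_neg, abs_two]
      exact mul_le_mul_of_nonneg_left (b2 v) (by norm_num)
    have d5 : ∀ v : HeightOneSpectrum (𝓞 K), |(1 : ℝ)| ≤ 1 := fun _ => by simp
    have d6 : ∀ v, |(-2) * ‖c v‖ ^ 2 + 1| ≤ 2 * b ^ 2 + 1 := fun v =>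
      (abs_add_le _ _).trans (add_le_add (d4 v) (d5 v))
    have d7 : ∀ v, |2 * (T v ^ 2 * ‖c v‖ ^ 2) + ((-2) * ‖c v‖ ^ 2 + 1)| ≤
        2 * (s ^ 2 * b ^ 2) + (2 * b ^ 2 + 1) := fun v =>
      (abs_add_le _ _).trans (add_le_add (d3 v) (d6 v))
    have d8 : ∀ v, |(-1) * T v ^ 4 + (2 * (T v ^ 2 * ‖c v‖ ^ 2) + ((-2) * ‖c v‖ ^ 2 + 1))| ≤
        s ^ 4 + (2 * (s ^ 2 * b ^ 2) + (2 * b ^ 2 + 1)) := fun v =>
      (abs_add_le _ _).trans (add_le_add (d2 v) (d7 v))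
    have e1 : A = fun v => (s + b) ^ 2 * (T v ^ 2 + ‖c v‖ ^ 2) + ((-1) * T v ^ 4 +
        (2 * (T v ^ 2 * ‖c v‖ ^ 2) + ((-2) * ‖c v‖ ^ 2 + 1))) := by
      funext v
      rw [hA]
      ring
    rw [e1, EP_add hN hε d1 d8, EP_add hN hε d2 d7, EP_add hN hε d3 d6, EP_add hN hε d4 d5, c1,
      EP_const_mul, EP_const_mul, EP_const_mul]
    ring
  have hAb : ∃ B : ℝ, ∀ v, |A v| ≤ B := by
    refine ⟨(s + b) ^ 2 * (s ^ 2 + b ^ 2) + (s ^ 4 + (2 * (s ^ 2 * b ^ 2) + (2 * b ^ 2 + 1))),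
      fun v => ?_⟩
    have e1 : A v = (s + b) ^ 2 * (T v ^ 2 + ‖c v‖ ^ 2) + (-(T v ^ 4) +
        (2 * (T v ^ 2 * ‖c v‖ ^ 2) + (-(2 * ‖c v‖ ^ 2) + 1))) := by
      rw [hA]
      ring
    rw [e1]
    refine (abs_add_le _ _).trans (add_le_add ?_ ((abs_add_le _ _).trans (add_le_add ?_
      ((abs_add_le _ _).trans (add_le_add ?_ ((abs_add_le _ _).trans (add_le_add ?_ ?_)))))))
    · rw [abs_mul, abs_of_nonneg (sq_nonneg (s + b))]
      exact mul_le_mul_of_nonneg_left ((abs_add_le _ _).trans (add_le_add (b1 v) (b2 v)))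
        (sq_nonneg _)
    · rw [abs_neg]
      exact b4 v
    · rw [abs_mul, abs_two]
      exact mul_le_mul_of_nonneg_left (b3 v) (by norm_num)
    · rw [abs_neg, abs_mul, abs_two]
      exact mul_le_mul_of_nonneg_left (b2 v) (by norm_num)
    · simp
  obtain ⟨B, hB⟩ := hAb
  set θ : ℝ := η * (2 * (s + b) ^ 2) / (2 * ((s + b) ^ 2 + 4 + 2 * (s + b) ^ 2 + (s + b) ^ 2)) with hθ
  have hsum0 : (0 : ℝ) < (s + b) ^ 2 + 4 + 2 * (s + b) ^ 2 + (s + b) ^ 2 := by positivity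
  have hθ0 : 0 < θ := by positivity
  filter_upwards [(Metric.tendsto_nhds.1 hS₂) θ hθ0, (Metric.tendsto_nhds.1 hSψ) θ hθ0,
    (Metric.tendsto_nhds.1 hS₄) θ hθ0, (Metric.tendsto_nhds.1 hx) θ hθ0,
    (Metric.tendsto_nhds.1 h3.2) θ hθ0, (Metric.tendsto_nhds.1 (EP_one K)) θ hθ0,
    lam_tendsto.eventually_gt_atTop 0, self_mem_nhdsWithin] with ε k1 k2 k3 k4 k5 k6 k7 k8
  have hε : (0 : ℝ) < ε := k8
  rw [Real.dist_eq, sub_zero] at k1 k2 k3 k4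
  rw [Real.dist_eq] at k5 k6
  have g1 := EP_abs_le (F := K) (φ := fun v => 2 * (s + b) ^ 2 * (T v * (c v).re)) hB hb hε
  rw [EP_const_mul, abs_mul, abs_of_pos hc0, hEA ε hε] at g1
  set e2 := (EP (nm K) ε fun v => T v ^ 2) / lam ε with he2
  set eψ := (EP (nm K) ε fun v => T v ^ 2 * ‖c v‖ ^ 2) / lam ε with heψ
  set e4 := (EP (nm K) ε fun v => T v ^ 4) / lam ε with he4
  set ex := (EP (nm K) ε fun v => T v * (c v).re) / lam ε with hex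
  set ec := (EP (nm K) ε fun v => ‖c v‖ ^ 2) / lam ε with hec
  set eo := (EP (nm K) ε fun _ => 1) / lam ε with heo
  have r2 : (EP (nm K) ε fun v => T v ^ 2) = e2 * lam ε := by rw [he2, div_mul_cancel₀ _ k7.ne']
  have rψ : (EP (nm K) ε fun v => T v ^ 2 * ‖c v‖ ^ 2) = eψ * lam ε := by
    rw [heψ, div_mul_cancel₀ _ k7.ne']
  have r4 : (EP (nm K) ε fun v => T v ^ 4) = e4 * lam ε := by rw [he4, div_mul_cancel₀ _ k7.ne']
  have rx : (EP (nm K) ε fun v => T v * (c v).re) = ex * lam ε := by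
    rw [hex, div_mul_cancel₀ _ k7.ne']
  have rc : (EP (nm K) ε fun v => ‖c v‖ ^ 2) = ec * lam ε := by rw [hec, div_mul_cancel₀ _ k7.ne']
  have ro : (EP (nm K) ε fun _ => 1) = eo * lam ε := by rw [heo, div_mul_cancel₀ _ k7.ne']
  rw [r2, rψ, r4, rx, rc, ro, abs_mul, abs_of_pos k7] at g1
  have g2 : 2 * (s + b) ^ 2 * |ex| ≤ (s + b) ^ 2 * (e2 + ec) - e4 + 2 * eψ - 2 * ec + eo := by
    by_contra hcon
    rw [not_le] at hcon
    have := mul_lt_mul_of_pos_right hcon k7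
    linarith
  have k1' := abs_lt.1 k1
  have k2' := abs_lt.1 k2
  have k3' := abs_lt.1 k3
  have k5' := abs_lt.1 k5
  have k6' := abs_lt.1 k6
  have k4' : |x ε| ≤ |ex| + θ := by
    have := abs_sub_abs_le_abs_sub (x ε) ex
    rw [abs_sub_comm] at this
    linarith
  have hq : (0 : ℝ) ≤ (s + b) ^ 2 := sq_nonneg _
  set Q : ℝ := (s + b) ^ 2 with hQ
  have g3 : 2 * Q * |x ε| ≤ Q * (S₂ ε + 1) - (S₄ ε - 2 * Sψ ε + 1) +
      (Q + 4 + 2 * Q + Q) * (2 * θ) := by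
    have m1 : Q * e2 ≤ Q * (S₂ ε + θ) := mul_le_mul_of_nonneg_left (by linarith [k1'.2]) hq
    have m2 : Q * ec ≤ Q * (1 + θ) := mul_le_mul_of_nonneg_left (by linarith [k5'.2]) hq
    have m3 : 2 * Q * |x ε| ≤ 2 * Q * (|ex| + θ) := mul_le_mul_of_nonneg_left k4' (by positivity)
    nlinarith [k1'.1, k1'.2, k2'.1, k2'.2, k3'.1, k3'.2, k5'.1, k5'.2, k6'.1, k6'.2]
  have g4 : (Q + 4 + 2 * Q + Q) * (2 * θ) = η * (2 * Q) := by
    rw [hθ]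
    field_simp
  rw [g4] at g3
  have g5 : |x ε| ≤ (Q * (S₂ ε + 1) - (S₄ ε - 2 * Sψ ε + 1) + η * (2 * Q)) / (2 * Q) := by
    rw [le_div_iff₀ hc0]
    linarith
  refine g5.trans (le_of_eq ?_)
  have hQ0 : Q ≠ 0 := by
    intro h0
    rw [h0] at hc0
    norm_num at hc0
  field_simp

variable {l : ℕ} {X : Set (MvPolynomial (Fin l) (𝓞 K))}
  {d m N : ℕ} {V : Type} [AddCommGroup V] [Module ℚ V] [FiniteDimensional ℚ V]
  {ρ : Representation ℚ (GK K) V}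

theorem four_ineq (hmd : m ≤ d) (hV : IsPart X d m N ρ)
    {n : ℕ} {χ : Representation ℂ (GK K) (Fin n → ℂ)} (hχ : IsArtin χ) (hirr : χ.IsIrreducible)
    {n' : ℕ} {ψ : Representation ℂ (GK K) (Fin n' → ℂ)} (hψ : IsArtin ψ)
    (hψχ : ∀ g, ψ.character g = ((‖χ.character g‖ ^ 2 : ℝ) : ℂ))
    {B B₂ Bψ B₄ : HeightOneSpectrum (𝓞 K) → ℂ[X]} (hB : IsTwistedSystem X d (2 * m) N χ 0 B)
    (hB₂ : IsTensorSystem X d m N ρ 2 (1 : Representation ℂ (GK K) (Fin 1 → ℂ)) B₂)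
    (hBψ : IsTensorSystem X d m N ρ 2 ψ Bψ)
    (hB₄ : IsTensorSystem X d m N ρ 4 (1 : Representation ℂ (GK K) (Fin 1 → ℂ)) B₄)
    {η : ℝ} (hη : 0 < η) :
    ∀ᶠ ε : ℝ in 𝓝[>] 0, |size (2 * m) 0 B ε - twistRank ρ χ| ≤
      (size (2 * (2 * m)) 0 B₂ ε + 1) / 2 -
        (size (2 * (4 * m)) 0 B₄ ε - 2 * size (2 * (2 * m)) 0 Bψ ε + 1) /
          (2 * (((N - Module.finrank ℚ V : ℕ) : ℝ) + n) ^ 2) + η := by
  classical
  have hm : 2 * m ≤ 2 * d := by omega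
  choose σ hσ using exists_isFrob (F := K)
  obtain ⟨U, hUn, hU, hx1⟩ := exists_common (κ := Unit) (n := fun _ => n)
    (fun _ => χ) fun _ => hχ
  have hx1 : ∀ u ∈ U, χ u = 1 := hx1 ()
  have hfin : Finite (GK K ⧸ U) := Subgroup.quotient_finite_of_isOpen U hU
  have hgood := good_of_part hm hV hσ
  have h1 := tw_C hm hσ hgood hV.1 ⟨n, χ⟩ hχ B hB
  have hn : 0 < n := dim_pos U (fun _ : Unit => χ) (fun _ => hx1) (k := ()) hirr
  have hn' : (0 : ℝ) < n := by exact_mod_cast hn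
  set s : ℕ := N - Module.finrank ℚ V with hs
  have g1 := (tensor_size hm hσ hgood 2 _ one_artin B₂ hB₂).2
  have g2 := (tensor_size hm hσ hgood 2 ψ hψ Bψ hBψ).2
  have g4 := (tensor_size hm hσ hgood 4 _ one_artin B₄ hB₄).2
  refine core_ineq (K := K) (T := tC ρ X d (2 * m) N s σ)
    (c := fun v => χ.character (σ v)⁻¹) (s := s) (b := n) (fun v => abs_tC _ _ _ _ _ _ _ _)
    (fun v => norm_char_le U χ hx1 (σ v)⁻¹) (by positivity) (has_norm χ hχ hirr σ hσ)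
    ?_ ?_ ?_ ?_ hη
  · refine g1.congr fun ε => ?_
    simp only [RR_one, mul_one]
    rfl
  · refine g2.congr fun ε => ?_
    simp only [RR_zero, hψχ, Complex.ofReal_re]
    rfl
  · refine g4.congr fun ε => ?_
    simp only [RR_one, mul_one]
    rfl
  · refine h1.2.congr fun ε => ?_
    simp only [RR_zero]

/-- **Self-products and the pole conjecture.** -/
theorem selfProducts (hmd : m ≤ d) (hV : IsPart X d m N ρ) :
    (∀ (n : ℕ) (χ : Representation ℂ (GK K) (Fin n → ℂ)), IsArtin χ → χ.IsIrreducible →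
      ∀ (n' : ℕ) (ψ : Representation ℂ (GK K) (Fin n' → ℂ)), IsArtin ψ →
      (∀ g, ψ.character g = ((‖χ.character g‖ ^ 2 : ℝ) : ℂ)) →
      (∀ B B₂ Bψ B₄ : HeightOneSpectrum (𝓞 K) → ℂ[X], IsTwistedSystem X d (2 * m) N χ 0 B →
        IsTensorSystem X d m N ρ 2 (1 : Representation ℂ (GK K) (Fin 1 → ℂ)) B₂ →
        IsTensorSystem X d m N ρ 2 ψ Bψ →
        IsTensorSystem X d m N ρ 4 (1 : Representation ℂ (GK K) (Fin 1 → ℂ)) B₄ →
        (∀ᶠ ε : ℝ in 𝓝[>] 0, LFun B (edgePoint (2 * m) 0 + ε) ≠ 0) ∧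
        ∀ η : ℝ, 0 < η → ∀ᶠ ε : ℝ in 𝓝[>] 0, |size (2 * m) 0 B ε - twistRank ρ χ| ≤
          (size (2 * (2 * m)) 0 B₂ ε + 1) / 2 -
            (size (2 * (4 * m)) 0 B₄ ε - 2 * size (2 * (2 * m)) 0 Bψ ε + 1) /
              (2 * (((N - Module.finrank ℚ V : ℕ) : ℝ) + n) ^ 2) + η) ∧
      ∀ k : ℕ, TensorPole X d m N ρ 2 (1 : Representation ℂ (GK K) (Fin 1 → ℂ)) 1 →
        TensorPole X d m N ρ 2 ψ 1 →
        TensorPole X d m N ρ 4 (1 : Representation ℂ (GK K) (Fin 1 → ℂ)) k → k ≠ 1 →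
        ∀ δ : ℤ, TwistDefect X d m N ρ χ δ → δ = 0) ∧
    ((∀ (n : ℕ) (ψ : Representation ℂ (GK K) (Fin n → ℂ)), IsArtin ψ →
        TensorPole X d m N ρ 2 ψ (Module.finrank ℂ ψ.invariants)) →
      (∀ k : ℕ, TensorPole X d m N ρ 4 (1 : Representation ℂ (GK K) (Fin 1 → ℂ)) k → k ≠ 1 →
      (∀ (n : ℕ) (χ : Representation ℂ (GK K) (Fin n → ℂ)), IsArtin χ →
        χ.IsIrreducible → ∃ δ : ℤ, TwistDefect X d m N ρ χ δ) →
      ∀ (F : IntermediateField K (AlgebraicClosure K)) [NumberField F]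
        (B : HeightOneSpectrum (𝓞 F) → ℂ[X]), Pool.Agent.W353.EF.IsEulerSystem X d (2 * m) N B →
        (∀ᶠ ε : ℝ in 𝓝[>] 0, LFun B (((2 * m : ℕ) : ℂ) / 2 + 1 + ε) ≠ 0) ∧
        Tendsto (Pool.Agent.W353.EF.size (2 * m) B) (𝓝[>] 0) (𝓝 (rank ρ F : ℝ)))) := by
  refine ⟨fun n χ hχ hirr n' ψ hψ hψχ => ⟨fun B B₂ Bψ B₄ hB hB₂ hBψ hB₄ => ⟨?_, fun η hη =>
    four_ineq hmd hV hχ hirr hψ hψχ hB hB₂ hBψ hB₄ hη⟩, ?_⟩, fun h2 k h4 hk H => ?_⟩
  · have hm : 2 * m ≤ 2 * d := by omega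
    choose σ hσ using exists_isFrob (F := K)
    exact (tw_C hm hσ (good_of_part hm hV hσ) hV.1 ⟨n, χ⟩ hχ B hB).1
  · intro k h2 hψ2 h4 hk δ hδ
    have hk1 := one_le_four hmd hV h2 h4
    have hk2 : (2 : ℝ) ≤ k := by
      have : 2 ≤ k := by omega
      exact_mod_cast this
    obtain ⟨B, hB, hlim⟩ := hδ
    obtain ⟨B₂, hB₂, l2⟩ := h2
    obtain ⟨Bψ, hBψ, lψ⟩ := hψ2
    obtain ⟨B₄, hB₄, l4⟩ := h4
    obtain ⟨U, hUn, hU, hx1⟩ := exists_common (κ := Unit) (n := fun _ => n)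
      (fun _ => χ) fun _ => hχ
    have hfin : Finite (GK K ⧸ U) := Subgroup.quotient_finite_of_isOpen U hU
    have hn : 0 < n := dim_pos U (fun _ : Unit => χ) hx1 (k := ()) hirr
    have hn' : (0 : ℝ) < n := by exact_mod_cast hn
    set c : ℝ := ((k : ℝ) - 1) / (2 * (((N - Module.finrank ℚ V : ℕ) : ℝ) + n) ^ 2) with hc
    have hc0 : 0 < c := by
      rw [hc]
      exact div_pos (by linarith) (by positivity)
    have e1 : Tendsto (fun ε => |size (2 * m) 0 B ε - twistRank ρ χ|) (𝓝[>] 0)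
        (𝓝 |(δ : ℝ)|) := by
      have h1 := (hlim.sub_const (twistRank ρ χ : ℝ)).abs
      have e : |((twistRank ρ χ : ℝ) - δ) - twistRank ρ χ| = |(δ : ℝ)| := by
        rw [← abs_neg]
        congr 1
        ring
      rw [e] at h1
      exact h1
    have e2 : Tendsto (fun ε => (size (2 * (2 * m)) 0 B₂ ε + 1) / 2 -
        (size (2 * (4 * m)) 0 B₄ ε - 2 * size (2 * (2 * m)) 0 Bψ ε + 1) /
          (2 * (((N - Module.finrank ℚ V : ℕ) : ℝ) + n) ^ 2) + c / 2) (𝓝[>] 0)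
        (𝓝 (1 - c + c / 2)) := by
      have h1 := (((l2.add_const 1).div_const 2).sub (((l4.sub (lψ.const_mul 2)).add_const
        1).div_const (2 * (((N - Module.finrank ℚ V : ℕ) : ℝ) + n) ^ 2))).add_const (c / 2)
      have e3 : (((1 : ℕ) : ℝ) + 1) / 2 - ((k : ℝ) - 2 * ((1 : ℕ) : ℝ) + 1) /
          (2 * (((N - Module.finrank ℚ V : ℕ) : ℝ) + n) ^ 2) + c / 2 = 1 - c + c / 2 := by
        rw [hc]
        push_cast
        ring
      rw [e3] at h1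
      exact h1
    have h3 : |(δ : ℝ)| ≤ 1 - c + c / 2 := le_of_tendsto_of_tendsto e1 e2
      (four_ineq hmd hV hχ hirr hψ hψχ hB hB₂ hBψ hB₄ (by positivity))
    have h4 : |(δ : ℝ)| < 1 := by linarith
    rw [← Int.cast_abs] at h4
    have h5 : |δ| < 1 := by exact_mod_cast h4
    exact Int.abs_lt_one_iff.1 h5
  · exact (main hmd hV h2 hk h4).2 H

end

end Pool.Agent.Y139.SM
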