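import Pool.Agent.Y139.SM.TPow
import Pool.Agent.Y139.SM.Bessel
import Pool.Agent.W353.AT.TMain

/-! The pole of the tensor square and the fourth tensor power: the analytic part. -/

set_option autoImplicit false

namespace Pool.Agent.Y139.SM

open Complex Filter Topology ComplexConjugate NumberField IsDedekindDomain Asymptotics
  Pool.Agent.W401.Cheb Pool.Agent.W540.BE Pool.Agent.W353.L1 Polynomial
open Pool.Agent.H341R2 (lam lam_tendsto)

section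
variable {F : Type} [Field F] [NumberField F]

theorem pw_four {t s b : ℝ} {z : ℂ} (ht : |t| ≤ s) (hz : ‖z‖ ≤ b) {e : ℝ} (he : e = 1 ∨ e = -1) :
    2 * (s + b) ^ 2 * (e * (t * z.re)) ≤ (s + b) ^ 2 * (t ^ 2 + ‖z‖ ^ 2) -
      (t ^ 4 - 2 * (t ^ 2 * ‖z‖ ^ 2) + (2 * ‖z‖ ^ 2 - 1)) := by
  have h0 : 0 ≤ ‖z‖ := norm_nonneg z
  have h1 : (‖z‖ ^ 2) ^ 2 ≥ 2 * ‖z‖ ^ 2 - 1 := by nlinarith [sq_nonneg (‖z‖ ^ 2 - 1)]
  have h2 : |z.re| ≤ ‖z‖ := Complex.abs_re_le_norm z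
  have h3 : e * (t * z.re) ≤ |t| * ‖z‖ := by
    have h4 : |e * (t * z.re)| ≤ |t| * ‖z‖ := by
      rw [abs_mul, abs_mul]
      have h5 : |e| = 1 := by rcases he with h | h <;> rw [h] <;> norm_num
      rw [h5, one_mul]
      exact mul_le_mul_of_nonneg_left h2 (abs_nonneg _)
    exact (le_abs_self _).trans h4
  have h6 : t ^ 2 = |t| ^ 2 := (sq_abs t).symm
  have h7 : t ^ 4 = (|t| ^ 2) ^ 2 := by rw [sq_abs]; ring
  set a := |t| with ha
  have ha0 : 0 ≤ a := abs_nonneg t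
  set r := ‖z‖ with hr
  have h8 : (a ^ 2 - r ^ 2) ^ 2 ≤ (s + b) ^ 2 * (a - r) ^ 2 := by
    have e1 : (a ^ 2 - r ^ 2) ^ 2 = (a + r) ^ 2 * (a - r) ^ 2 := by ring
    rw [e1]
    refine mul_le_mul_of_nonneg_right ?_ (sq_nonneg _)
    exact pow_le_pow_left₀ (by positivity) (add_le_add ht hz) 2
  have h9 : 0 ≤ (s + b) ^ 2 := sq_nonneg _
  have h10 : 2 * (s + b) ^ 2 * (e * (t * z.re)) ≤ 2 * (s + b) ^ 2 * (a * r) :=
    mul_le_mul_of_nonneg_left h3 (by positivity)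
  rw [h6, h7]
  nlinarith

/-- **The fourth moment excludes a defect.** -/
theorem core_four {T : HeightOneSpectrum (𝓞 F) → ℝ} {c : HeightOneSpectrum (𝓞 F) → ℂ} {s b : ℝ}
    (hT : ∀ v, |T v| ≤ s) (hc : ∀ v, ‖c v‖ ≤ b) (hsb : 0 < s + b) {k : ℝ}
    (h1 : Has (fun v => T v ^ 2) 1) (h2 : Has (fun v => T v ^ 2 * ‖c v‖ ^ 2) 1)
    (h3 : Has (fun v => ‖c v‖ ^ 2) 1) (h4 : Has (fun v => T v ^ 4) k) {x : ℝ → ℝ}
    (hx : Tendsto (fun ε : ℝ => (EP (nm F) ε fun v => T v * (c v).re) / lam ε - x ε)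
      (𝓝[>] 0) (𝓝 0)) {η : ℝ} (hη : 0 < η) :
    ∀ᶠ ε : ℝ in 𝓝[>] 0, |x ε| ≤ 1 - (k - 1) / (2 * (s + b) ^ 2) + η := by
  set A : HeightOneSpectrum (𝓞 F) → ℝ := fun v => (s + b) ^ 2 * (T v ^ 2 + ‖c v‖ ^ 2) -
      (T v ^ 4 - 2 * (T v ^ 2 * ‖c v‖ ^ 2) + (2 * ‖c v‖ ^ 2 - 1)) with hA
  have hAh : Has A (2 * (s + b) ^ 2 - (k - 1)) := by
    have g1 := (h1.add h3).const_mul ((s + b) ^ 2)
    have g2 := (h4.add (h2.const_mul (-2))).const_mul (-1)
    have g3 := (h3.const_mul (-2)).add (has_one (F := F))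
    refine ((g1.add g2).add g3).congr (fun v => ?_) ?_
    · rw [hA]
      ring
    · ring
  have hc0 : (0 : ℝ) < 2 * (s + b) ^ 2 := by positivity
  obtain ⟨⟨B, hB⟩, hlim⟩ := hAh
  have hb : ∀ v, |2 * (s + b) ^ 2 * (T v * (c v).re)| ≤ A v := by
    intro v
    rw [abs_le]
    have e1 := pw_four (hT v) (hc v) (e := 1) (Or.inl rfl)
    have e2 := pw_four (hT v) (hc v) (e := -1) (Or.inr rfl)
    constructor
    · have e3 : 2 * (s + b) ^ 2 * (-1 * (T v * (c v).re)) =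
        -(2 * (s + b) ^ 2 * (T v * (c v).re)) := by ring
      rw [e3] at e2
      rw [hA]
      linarith
    · rw [one_mul] at e1
      exact e1
  have hlim2 : Tendsto (fun ε : ℝ => (EP (nm F) ε A) / lam ε / (2 * (s + b) ^ 2)) (𝓝[>] 0)
      (𝓝 ((2 * (s + b) ^ 2 - (k - 1)) / (2 * (s + b) ^ 2))) := hlim.div_const _
  have e0 : (2 * (s + b) ^ 2 - (k - 1)) / (2 * (s + b) ^ 2) =
      1 - (k - 1) / (2 * (s + b) ^ 2) := by
    rw [sub_div, div_self hc0.ne']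
  rw [e0] at hlim2
  filter_upwards [(Metric.tendsto_nhds.1 hlim2) (η / 2) (by positivity),
    (Metric.tendsto_nhds.1 hx) (η / 2) (by positivity),
    lam_tendsto.eventually_gt_atTop 0, self_mem_nhdsWithin] with ε k1 k2 k3 k4
  have hε : (0 : ℝ) < ε := k4
  rw [Real.dist_eq] at k1 k2
  rw [sub_zero] at k2
  have k5 := EP_abs_le (F := F) (φ := fun v => 2 * (s + b) ^ 2 * (T v * (c v).re)) hB hb hε
  rw [EP_const_mul, abs_mul, abs_of_pos hc0] at k5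
  have k6 : |(EP (nm F) ε fun v => T v * (c v).re) / lam ε| ≤
      (EP (nm F) ε A) / lam ε / (2 * (s + b) ^ 2) := by
    rw [abs_div, abs_of_pos k3, div_div, mul_comm (lam ε), ← div_div]
    refine div_le_div_of_nonneg_right ?_ k3.le
    rw [le_div_iff₀ hc0, mul_comm]
    exact k5
  have k7 : |x ε| ≤ |(EP (nm F) ε fun v => T v * (c v).re) / lam ε| + η / 2 := by
    have := abs_sub_abs_le_abs_sub (x ε) ((EP (nm F) ε fun v => T v * (c v).re) / lam ε)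
    rw [abs_sub_comm] at this
    linarith
  have k8 := abs_lt.1 k1
  linarith [k8.2]

end

end Pool.Agent.Y139.SM
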