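import Pool.Agent.Y139.SM.Prod

/-! The pole conjecture for the tensor square and the fourth tensor power implies the pole conjecture. -/

set_option autoImplicit false

namespace Pool.Agent.Y139.SM

open Complex Filter Topology ComplexConjugate NumberField IsDedekindDomain Asymptotics
  Pool.Agent.W401.Cheb Pool.Agent.W540.BE Pool.Agent.W353.L1 Polynomial
open Pool.Agent.H341R2 (lam lam_tendsto)
open Pool.Agent.W353.TD (ch IsPart tF_sub_le rank)
open Pool.Agent.W353.PV (tF)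
open Pool.Agent.W353.EF (LFun)
open Pool.Agent.W353.EH (edgePoint size)
open Pool.Agent.W353.AT (tC abs_tC IsArtin exists_common tw_C IsTwistedSystem
  twistRank TwistDefect)

section
variable {K : Type} [Field K] [NumberField K]

theorem Has.nonneg {φ : HeightOneSpectrum (𝓞 K) → ℝ} {k : ℝ} (h : Has φ k) (h0 : ∀ v, 0 ≤ φ v) :
    0 ≤ k := by
  obtain ⟨⟨B, hB⟩, hlim⟩ := h
  refine ge_of_tendsto hlim ?_
  filter_upwards [self_mem_nhdsWithin, lam_tendsto.eventually_gt_atTop 0] with ε hε hε'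
  have hε0 : (0 : ℝ) < ε := hε
  have h1 := EP_abs_le (F := K) (φ := φ) hB (fun v => (abs_of_nonneg (h0 v)).le) hε0
  exact div_nonneg ((abs_nonneg _).trans h1) hε'.le

variable {l : ℕ} {X : Set (MvPolynomial (Fin l) (𝓞 K))}
  {d m N : ℕ} {V : Type} [AddCommGroup V] [Module ℚ V] [FiniteDimensional ℚ V]
  {ρ : Representation ℚ (GK K) V}

/-- the fourth moment is at least one -/
theorem one_le_four (hmd : m ≤ d) (hV : IsPart X d m N ρ)
    (h2 : TensorPole X d m N ρ 2 (1 : Representation ℂ (GK K) (Fin 1 → ℂ)) 1) {k : ℕ}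
    (h4 : TensorPole X d m N ρ 4 (1 : Representation ℂ (GK K) (Fin 1 → ℂ)) k) : 1 ≤ k := by
  have hm : 2 * m ≤ 2 * d := by omega
  choose σ hσ using exists_isFrob (F := K)
  have g1 := has_pow hm hV hσ one_artin h2
  have g4 := has_pow hm hV hσ one_artin h4
  have g5 := (g4.add (g1.const_mul (-2))).add (has_one (F := K))
  have h := Has.nonneg g5 (fun v => by
    rw [RR_one, mul_one, mul_one]
    nlinarith [sq_nonneg ((tC ρ X d (2 * m) N (N - Module.finrank ℚ V) σ v) ^ 2 - 1)])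
  push_cast at h
  have h6 : (1 : ℝ) ≤ k := by linarith
  exact_mod_cast h6

/-- **The defects vanish.** -/
theorem defect_zero (hmd : m ≤ d) (hV : IsPart X d m N ρ)
    {n : ℕ} {χ : Representation ℂ (GK K) (Fin n → ℂ)} (hχ : IsArtin χ) (hirr : χ.IsIrreducible)
    (h2 : TensorPole X d m N ρ 2 (1 : Representation ℂ (GK K) (Fin 1 → ℂ)) 1)
    (h2χ : TensorPole X d m N ρ 2 (endRep χ) 1) {k : ℕ} (hk : k ≠ 1)
    (h4 : TensorPole X d m N ρ 4 (1 : Representation ℂ (GK K) (Fin 1 → ℂ)) k)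
    {δ : ℤ} (hδ : TwistDefect X d m N ρ χ δ) : δ = 0 := by
  obtain ⟨B, hB, hlim⟩ := hδ
  obtain ⟨hn, -, h⟩ := four_bound hmd hV hχ hirr h2 h2χ h4 B hB
  have hk1 := one_le_four hmd hV h2 h4
  have hk2 : (2 : ℝ) ≤ k := by
    have : 2 ≤ k := by omega
    exact_mod_cast this
  set c : ℝ := ((k : ℝ) - 1) / (2 * (((N - Module.finrank ℚ V : ℕ) : ℝ) + n) ^ 2) with hc
  have hn' : (0 : ℝ) < n := by exact_mod_cast hn
  have hc0 : 0 < c := by
    rw [hc]
    refine div_pos (by linarith) (by positivity)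
  have hlim2 : Tendsto (fun ε => |size (2 * m) 0 B ε - twistRank ρ χ|) (𝓝[>] 0) (𝓝 |(δ : ℝ)|) := by
    have h1 := (hlim.sub_const (twistRank ρ χ : ℝ)).abs
    have e : |((twistRank ρ χ : ℝ) - δ) - twistRank ρ χ| = |(δ : ℝ)| := by
      rw [← abs_neg]
      congr 1
      ring
    rw [e] at h1
    exact h1
  have h3 : |(δ : ℝ)| ≤ 1 - c + c / 2 := le_of_tendsto hlim2 (h (c / 2) (by positivity))
  have h4 : |(δ : ℝ)| < 1 := by linarith
  rw [← Int.cast_abs] at h4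
  have h5 : |δ| < 1 := by exact_mod_cast h4
  exact Int.abs_lt_one_iff.1 h5

/-- **The pole conjecture for the tensor square and the fourth tensor power implies it over all number
fields.** -/
theorem main (hmd : m ≤ d) (hV : IsPart X d m N ρ)
    (h2 : ∀ (n : ℕ) (ψ : Representation ℂ (GK K) (Fin n → ℂ)), IsArtin ψ →
      TensorPole X d m N ρ 2 ψ (Module.finrank ℂ ψ.invariants))
    {k : ℕ} (hk : k ≠ 1)
    (h4 : TensorPole X d m N ρ 4 (1 : Representation ℂ (GK K) (Fin 1 → ℂ)) k) :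
    (∀ (n : ℕ) (χ : Representation ℂ (GK K) (Fin n → ℂ)), IsArtin χ → χ.IsIrreducible →
      (∀ B : HeightOneSpectrum (𝓞 K) → ℂ[X], IsTwistedSystem X d (2 * m) N χ 0 B →
        (∀ᶠ ε : ℝ in 𝓝[>] 0, LFun B (edgePoint (2 * m) 0 + ε) ≠ 0) ∧
        ∀ η : ℝ, 0 < η → ∀ᶠ ε : ℝ in 𝓝[>] 0, |size (2 * m) 0 B ε - twistRank ρ χ| ≤
          1 - ((k : ℝ) - 1) / (2 * (((N - Module.finrank ℚ V : ℕ) : ℝ) + n) ^ 2) + η) ∧
      ∀ δ : ℤ, TwistDefect X d m N ρ χ δ → δ = 0) ∧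
    ((∀ (n : ℕ) (χ : Representation ℂ (GK K) (Fin n → ℂ)), IsArtin χ →
      χ.IsIrreducible → ∃ δ : ℤ, TwistDefect X d m N ρ χ δ) →
      ∀ (F : IntermediateField K (AlgebraicClosure K)) [NumberField F]
        (B : HeightOneSpectrum (𝓞 F) → ℂ[X]), Pool.Agent.W353.EF.IsEulerSystem X d (2 * m) N B →
        (∀ᶠ ε : ℝ in 𝓝[>] 0, LFun B (((2 * m : ℕ) : ℂ) / 2 + 1 + ε) ≠ 0) ∧
        Tendsto (Pool.Agent.W353.EF.size (2 * m) B) (𝓝[>] 0) (𝓝 (rank ρ F : ℝ))) := by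
  have h21 : TensorPole X d m N ρ 2 (1 : Representation ℂ (GK K) (Fin 1 → ℂ)) 1 := by
    have := h2 1 1 one_artin
    rwa [one_inv] at this
  have h2e : ∀ (n : ℕ) (χ : Representation ℂ (GK K) (Fin n → ℂ)), IsArtin χ → χ.IsIrreducible →
      TensorPole X d m N ρ 2 (endRep χ) 1 := by
    intro n χ hχ hirr
    have := h2 _ (endRep χ) (endRep_artin hχ)
    rwa [endRep_inv hirr] at this
  have hdef : ∀ (n : ℕ) (χ : Representation ℂ (GK K) (Fin n → ℂ)), IsArtin χ → χ.IsIrreducible →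
      ∀ δ : ℤ, TwistDefect X d m N ρ χ δ → δ = 0 := fun n χ hχ hirr δ hδ =>
    defect_zero hmd hV hχ hirr h21 (h2e n χ hχ hirr) hk h4 hδ
  refine ⟨fun n χ hχ hirr => ⟨fun B hB => ?_, hdef n χ hχ hirr⟩, fun H F _ B hB => ?_⟩
  · exact (four_bound hmd hV hχ hirr h21 (h2e n χ hχ hirr) h4 B hB).2
  · obtain ⟨κ, _, n, χ, δ, M, h1, -, -, -, -, -, h3⟩ :=
      (Pool.Agent.W353.AT.tateOverAllFields hmd hV).2 H
    have hκ : IsEmpty κ := ⟨fun k' => (h1 k').2.2.1 (hdef _ _ (h1 k').1 (h1 k').2.1 _ (h1 k').2.2.2)⟩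
    obtain ⟨h5, -, -⟩ := h3 F
    have h6 := h5 B hB
    refine ⟨h6.1, ?_⟩
    have h7 := h6.2
    rw [Finset.univ_eq_empty, Finset.sum_empty, sub_zero] at h7
    exact h7

end

end Pool.Agent.Y139.SM
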