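import Pool.Agent.Y139.SM.Gen
import Mathlib.Analysis.SpecialFunctions.Trigonometric.Chebyshev.Basic

/-! Positivity: every inequality between polynomials gives one between the sizes. -/

set_option autoImplicit false

namespace Pool.Agent.Y139.SM

open Complex Filter Topology ComplexConjugate NumberField IsDedekindDomain Asymptotics
  Pool.Agent.W401.Cheb Pool.Agent.W540.BE Pool.Agent.W353.L1 Polynomial
open Pool.Agent.H341R2 (lam lam_tendsto)
open Pool.Agent.W353.AT (IsArtin exists_common)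

section
variable {K : Type} [Field K] [NumberField K]

/-- **Positivity.** -/
theorem lin_pos {κ : Type} [Fintype κ] {T : HeightOneSpectrum (𝓞 K) → ℝ} {s : ℝ} (hs : 0 ≤ s)
    (hT : ∀ v, |T v| ≤ s) (σ : HeightOneSpectrum (𝓞 K) → GK K) (r n : κ → ℕ)
    (χ : ∀ k, Representation ℂ (GK K) (Fin (n k) → ℂ)) (hχ : ∀ k, IsArtin (χ k))
    (x : κ → ℝ → ℝ) (hx : ∀ k, Tendsto (fun ε : ℝ =>
      (EP (nm K) ε fun v => T v ^ r k * RR (χ k) 0 σ v) / lam ε - x k ε) (𝓝[>] 0) (𝓝 0))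
    (c : κ → ℝ)
    (hc : ∀ t : ℝ, |t| ≤ s → ∀ g, 0 ≤ ∑ k, c k * (t ^ r k * ((χ k).character g).re))
    {η : ℝ} (hη : 0 < η) : ∀ᶠ ε : ℝ in 𝓝[>] 0, -η ≤ ∑ k, c k * x k ε := by
  classical
  obtain ⟨U, hUn, hU, hx1⟩ := exists_common χ hχ
  have hfin : Finite (GK K ⧸ U) := Subgroup.quotient_finite_of_isOpen U hU
  have hb : ∀ k v, |T v ^ r k * RR (χ k) 0 σ v| ≤ s ^ r k * n k := by
    intro k v
    rw [abs_mul, abs_pow]
    exact mul_le_mul (pow_le_pow_left₀ (abs_nonneg _) (hT v) _)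
      (abs_RR_le U (χ k) (hx1 k) _ _ _) (abs_nonneg _) (by positivity)
  have h1 : Tendsto (fun ε : ℝ => ∑ k, c k * ((EP (nm K) ε fun v =>
      T v ^ r k * RR (χ k) 0 σ v) / lam ε - x k ε)) (𝓝[>] 0) (𝓝 0) := by
    have h2 := tendsto_finsetSum (f := fun k ε => c k * ((EP (nm K) ε fun v =>
      T v ^ r k * RR (χ k) 0 σ v) / lam ε - x k ε)) (a := fun k => c k * 0) Finset.univ
      fun k _ => (hx k).const_mul (c k)
    simpa using h2
  filter_upwards [(Metric.tendsto_nhds.1 h1) η hη, lam_tendsto.eventually_gt_atTop 0,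
    self_mem_nhdsWithin] with ε h2 h3 h4
  have hε : (0 : ℝ) < ε := h4
  rw [Real.dist_eq, sub_zero] at h2
  have h5 : 0 ≤ EP (nm K) ε fun v => ∑ k, c k * (T v ^ r k * RR (χ k) 0 σ v) := by
    unfold EP
    refine tsum_nonneg fun v => mul_nonneg ?_ (wP_nonneg ε v)
    have := hc (T v) (hT v) (σ v)⁻¹
    simp only [RR_zero]
    exact this
  have h6 : (EP (nm K) ε fun v => ∑ k, c k * (T v ^ r k * RR (χ k) 0 σ v)) =
      ∑ k, c k * EP (nm K) ε fun v => T v ^ r k * RR (χ k) 0 σ v := by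
    rw [EP_sum normSys hε Finset.univ (fun k v => c k * (T v ^ r k * RR (χ k) 0 σ v))
      (fun k => |c k| * (s ^ r k * n k)) (by
        intro k _ v
        rw [abs_mul]
        exact mul_le_mul_of_nonneg_left (hb k v) (abs_nonneg _))]
    exact Finset.sum_congr rfl fun k _ => EP_const_mul _ _
  have h7 : ∑ k, c k * ((EP (nm K) ε fun v => T v ^ r k * RR (χ k) 0 σ v) / lam ε - x k ε) =
      (∑ k, c k * EP (nm K) ε fun v => T v ^ r k * RR (χ k) 0 σ v) / lam ε -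
        ∑ k, c k * x k ε := by
    rw [Finset.sum_div, ← Finset.sum_sub_distrib]
    refine Finset.sum_congr rfl fun k _ => ?_
    ring
  rw [h7, ← h6] at h2
  have h8 : 0 ≤ (EP (nm K) ε fun v => ∑ k, c k * (T v ^ r k * RR (χ k) 0 σ v)) / lam ε :=
    div_nonneg h5 h3.le
  have h9 := (abs_lt.1 h2).2
  linarith

end

/-! ### Chebyshev polynomials -/

/-- the coefficients of the odd Chebyshev polynomial, normalised to the linear coefficient `1` -/
noncomputable def chebC (s : ℝ) (R r : ℕ) : ℝ :=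
  ((Chebyshev.T ℝ (R : ℤ)).coeff 1)⁻¹ * s * ((Chebyshev.T ℝ (R : ℤ)).coeff r * (s⁻¹) ^ r)

theorem coeff_one_abs {R : ℕ} (hR : Odd R) : |(Chebyshev.T ℝ (R : ℤ)).coeff 1| = R := by
  have h1 : (Chebyshev.T ℝ (R : ℤ)).coeff 1 = (derivative (Chebyshev.T ℝ (R : ℤ))).eval 0 := by
    rw [← coeff_zero_eq_eval_zero, coeff_derivative]
    simp
  rw [h1, Chebyshev.T_derivative_eq_U, eval_mul, Chebyshev.U_eval_zero_of_even, abs_mul]
  · have h2 : |((((R : ℤ) - 1) / 2).negOnePow : ℝ)| = 1 := by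
      rcases Int.even_or_odd (((R : ℤ) - 1) / 2) with h | h
      · rw [Int.negOnePow_even _ h]
        simp
      · rw [Int.negOnePow_odd _ h]
        simp
    rw [h2, mul_one]
    simp
  · obtain ⟨k, hk⟩ := hR
    exact ⟨k, by push_cast [hk]; ring⟩

theorem coeff_even {R r : ℕ} (hR : Odd R) (hr : Even r) : (Chebyshev.T ℝ (R : ℤ)).coeff r = 0 := by
  have h1 : (Chebyshev.T ℝ (R : ℤ)).comp (-X) = -(Chebyshev.T ℝ (R : ℤ)) := by
    refine Polynomial.funext fun x => ?_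
    rw [eval_comp, eval_neg, eval_X, Chebyshev.T_eval_neg, eval_neg, Int.negOnePow_odd _ (by
      exact_mod_cast hR)]
    simp
  have h2 := congrArg (fun p => coeff p r) h1
  simp only [coeff_neg] at h2
  have h3 : ((Chebyshev.T ℝ (R : ℤ)).comp (-X)).coeff r =
      (-1) ^ r * (Chebyshev.T ℝ (R : ℤ)).coeff r := by
    have e : (-X : ℝ[X]) = C (-1) * X := by simp
    rw [e, comp_C_mul_X_coeff]
    ring
  rw [h3, hr.neg_one_pow, one_mul] at h2
  linarith

theorem abs_T_le (R : ℕ) {x : ℝ} (hx : |x| ≤ 1) : |(Chebyshev.T ℝ (R : ℤ)).eval x| ≤ 1 := by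
  have h := abs_le.1 hx
  rw [← Real.cos_arccos h.1 h.2, Chebyshev.T_real_cos]
  exact Real.abs_cos_le_one _

theorem chebC_one {s : ℝ} (hs : 0 < s) {R : ℕ} (hR : Odd R) : chebC s R 1 = 1 := by
  have h1 := coeff_one_abs hR
  have h2 : (Chebyshev.T ℝ (R : ℤ)).coeff 1 ≠ 0 := by
    intro h
    rw [h, abs_zero] at h1
    have : (R : ℝ) ≠ 0 := by exact_mod_cast hR.pos.ne'
    exact this h1.symm
  unfold chebC
  field_simp

theorem chebC_even {s : ℝ} {R r : ℕ} (hR : Odd R) (hr : Even r) : chebC s R r = 0 := by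
  unfold chebC
  rw [coeff_even hR hr]
  ring

theorem chebC_sum {s : ℝ} (hs : 0 < s) {R : ℕ} (hR : Odd R) {t : ℝ} (ht : |t| ≤ s) :
    |∑ r ∈ Finset.range (R + 1), chebC s R r * t ^ r| ≤ s / R := by
  have h0 : ∑ r ∈ Finset.range (R + 1), chebC s R r * t ^ r =
      ((Chebyshev.T ℝ (R : ℤ)).coeff 1)⁻¹ * s * (Chebyshev.T ℝ (R : ℤ)).eval (t / s) := by
    rw [eval_eq_sum_range' (n := R + 1) (by
      rw [Chebyshev.natDegree_T]
      simp), Finset.mul_sum]
    refine Finset.sum_congr rfl fun r _ => ?_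
    unfold chebC
    rw [div_eq_mul_inv, mul_pow]
    ring
  have h1 : |t / s| ≤ 1 := by
    rw [abs_div, abs_of_pos hs, div_le_one hs]
    exact ht
  have hR0 : (0 : ℝ) < R := by exact_mod_cast hR.pos
  rw [h0, abs_mul, abs_mul, abs_inv, coeff_one_abs hR, abs_of_pos hs]
  calc (R : ℝ)⁻¹ * s * |(Chebyshev.T ℝ (R : ℤ)).eval (t / s)| ≤ (R : ℝ)⁻¹ * s * 1 :=
        mul_le_mul_of_nonneg_left (abs_T_le R h1) (by positivity)
    _ = s / R := by rw [mul_one, div_eq_inv_mul]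

section
variable {K : Type} [Field K] [NumberField K]

/-- **Odd powers.** -/
theorem odd_powers {T : HeightOneSpectrum (𝓞 K) → ℝ} {s : ℝ} (hs : 0 < s)
    (hT : ∀ v, |T v| ≤ s) (σ : HeightOneSpectrum (𝓞 K) → GK K) {n : ℕ}
    (χ : Representation ℂ (GK K) (Fin n → ℂ)) (hχ : IsArtin χ) {R : ℕ} (hR : Odd R)
    (x : ℕ → ℝ → ℝ) (hx : ∀ r, Odd r → r ≤ R → Tendsto (fun ε : ℝ =>
      (EP (nm K) ε fun v => T v ^ r * RR χ 0 σ v) / lam ε - x r ε) (𝓝[>] 0) (𝓝 0))
    {η : ℝ} (hη : 0 < η) : ∀ᶠ ε : ℝ in 𝓝[>] 0,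
      |x 1 ε + ∑ r ∈ Finset.range (R + 1) with Odd r ∧ 3 ≤ r, chebC s R r * x r ε| ≤
        n * (s / R) + η := by
  classical
  obtain ⟨U, hUn, hU, hx1⟩ := exists_common (κ := Unit) (n := fun _ => n)
    (fun _ => χ) fun _ => hχ
  have hx1 : ∀ u ∈ U, χ u = 1 := hx1 ()
  have hfin : Finite (GK K ⧸ U) := Subgroup.quotient_finite_of_isOpen U hU
  have hR0 : (0 : ℝ) < R := by exact_mod_cast hR.pos
  set S : Finset ℕ := (Finset.range (R + 1)).filter fun r => Odd r with hS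
  have hmem : ∀ r ∈ S, Odd r ∧ r ≤ R := by
    intro r hr
    rw [hS, Finset.mem_filter, Finset.mem_range] at hr
    exact ⟨hr.2, by omega⟩
  have hsplit : ∀ f : ℕ → ℝ, ∑ r ∈ S, f r = f 1 +
      ∑ r ∈ Finset.range (R + 1) with Odd r ∧ 3 ≤ r, f r := by
    intro f
    have h1 : S = insert 1 ((Finset.range (R + 1)).filter fun r => Odd r ∧ 3 ≤ r) := by
      ext r
      rw [hS, Finset.mem_insert, Finset.mem_filter, Finset.mem_filter, Finset.mem_range]
      constructor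
      · rintro ⟨h1, h2⟩
        by_cases h3 : r = 1
        · exact Or.inl h3
        · obtain ⟨k, hk⟩ := h2
          exact Or.inr ⟨h1, ⟨k, hk⟩, by omega⟩
      · rintro (rfl | ⟨h1, h2, h3⟩)
        · exact ⟨by have := hR.pos; omega, odd_one⟩
        · exact ⟨h1, h2⟩
    rw [h1, Finset.sum_insert]
    rw [Finset.mem_filter]
    rintro ⟨-, -, h⟩
    omega
  have hpt : ∀ v, |∑ r ∈ S, chebC s R r * (T v ^ r * RR χ 0 σ v)| ≤ n * (s / R) := by
    intro v
    have h1 : ∑ r ∈ S, chebC s R r * (T v ^ r * RR χ 0 σ v) =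
        (∑ r ∈ Finset.range (R + 1), chebC s R r * T v ^ r) * RR χ 0 σ v := by
      rw [hS, Finset.sum_filter, Finset.sum_mul]
      refine Finset.sum_congr rfl fun r _ => ?_
      split_ifs with h
      · ring
      · rw [chebC_even hR (Nat.not_odd_iff_even.1 h)]
        ring
    rw [h1, abs_mul, mul_comm]
    exact mul_le_mul (abs_RR_le U χ hx1 _ _ _) (chebC_sum hs hR (hT v)) (abs_nonneg _)
      (Nat.cast_nonneg _)
  have hb : ∀ r v, |T v ^ r * RR χ 0 σ v| ≤ s ^ r * n := by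
    intro r v
    rw [abs_mul, abs_pow]
    exact mul_le_mul (pow_le_pow_left₀ (abs_nonneg _) (hT v) _)
      (abs_RR_le U χ hx1 _ _ _) (abs_nonneg _) (by positivity)
  have h1 : Tendsto (fun ε : ℝ => ∑ r ∈ S, chebC s R r * ((EP (nm K) ε fun v =>
      T v ^ r * RR χ 0 σ v) / lam ε - x r ε)) (𝓝[>] 0) (𝓝 0) := by
    have h2 := tendsto_finsetSum (f := fun r ε => chebC s R r * ((EP (nm K) ε fun v =>
      T v ^ r * RR χ 0 σ v) / lam ε - x r ε)) (a := fun r => chebC s R r * 0) S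
      fun r hr => (hx r (hmem r hr).1 (hmem r hr).2).const_mul (chebC s R r)
    simpa using h2
  have hA : Tendsto (fun ε : ℝ => n * (s / R) * ((EP (nm K) ε fun _ => 1) / lam ε)) (𝓝[>] 0)
      (𝓝 (n * (s / R) * 1)) := (EP_one K).const_mul _
  rw [mul_one] at hA
  filter_upwards [(Metric.tendsto_nhds.1 h1) (η / 2) (by positivity),
    (Metric.tendsto_nhds.1 hA) (η / 2) (by positivity), lam_tendsto.eventually_gt_atTop 0,
    self_mem_nhdsWithin] with ε h2 hA' h3 h4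
  have hε : (0 : ℝ) < ε := h4
  rw [Real.dist_eq, sub_zero] at h2
  rw [Real.dist_eq] at hA'
  have h5 : |EP (nm K) ε fun v => ∑ r ∈ S, chebC s R r * (T v ^ r * RR χ 0 σ v)| ≤
      n * (s / R) * EP (nm K) ε fun _ => 1 := by
    rw [← EP_const_mul]
    refine EP_abs_le (B := n * (s / R)) (fun v => ?_) (fun v => ?_) hε
    · rw [mul_one, abs_of_nonneg (by positivity)]
    · rw [mul_one]
      exact hpt v
  have h6 : (EP (nm K) ε fun v => ∑ r ∈ S, chebC s R r * (T v ^ r * RR χ 0 σ v)) =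
      ∑ r ∈ S, chebC s R r * EP (nm K) ε fun v => T v ^ r * RR χ 0 σ v := by
    rw [EP_sum normSys hε S (fun r v => chebC s R r * (T v ^ r * RR χ 0 σ v))
      (fun r => |chebC s R r| * (s ^ r * n)) (by
        intro k _ v
        rw [abs_mul]
        exact mul_le_mul_of_nonneg_left (hb k v) (abs_nonneg _))]
    exact Finset.sum_congr rfl fun k _ => EP_const_mul _ _
  have h7 : ∑ r ∈ S, chebC s R r * ((EP (nm K) ε fun v => T v ^ r * RR χ 0 σ v) / lam ε -
      x r ε) = (∑ r ∈ S, chebC s R r * EP (nm K) ε fun v => T v ^ r * RR χ 0 σ v) / lam ε -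
        ∑ r ∈ S, chebC s R r * x r ε := by
    rw [Finset.sum_div, ← Finset.sum_sub_distrib]
    refine Finset.sum_congr rfl fun k _ => ?_
    ring
  rw [h7, ← h6] at h2
  have h8 : |(EP (nm K) ε fun v => ∑ r ∈ S, chebC s R r * (T v ^ r * RR χ 0 σ v)) / lam ε| ≤
      n * (s / R) * ((EP (nm K) ε fun _ => 1) / lam ε) := by
    rw [abs_div, abs_of_pos h3, ← mul_div_assoc]
    exact div_le_div_of_nonneg_right h5 h3.le
  have h9 := (abs_lt.1 hA').2
  have h10 := hsplit fun r => chebC s R r * x r ε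
  simp only [chebC_one hs hR, one_mul] at h10
  rw [← h10]
  set P := (EP (nm K) ε fun v => ∑ r ∈ S, chebC s R r * (T v ^ r * RR χ 0 σ v)) / lam ε
  have h11 := abs_sub_abs_le_abs_sub (∑ r ∈ S, chebC s R r * x r ε) P
  rw [abs_sub_comm] at h11
  linarith

end

end Pool.Agent.Y139.SM
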