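import Pool.Agent.Y139.SM.Four

/-! The pole conjecture for the tensor square and the fourth tensor power. -/

set_option autoImplicit false

namespace Pool.Agent.Y139.SM

open Complex Filter Topology ComplexConjugate NumberField IsDedekindDomain Asymptotics
  Pool.Agent.W401.Cheb Pool.Agent.W540.BE Pool.Agent.W353.L1 Polynomial
open Pool.Agent.H341R2 (lam lam_tendsto)
open Pool.Agent.W353.TD (ch IsPart tF_sub_le)
open Pool.Agent.W353.PV (tF)
open Pool.Agent.W353.AT (tC abs_tC IsArtin exists_common coord coord_char tw_C IsTwistedSystem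
  twistRank TwistDefect)

section
variable {K : Type} [Field K] [NumberField K]

/-- the representation on the endomorphisms, in coordinates -/
noncomputable def endRep {n : ℕ} (χ : Representation ℂ (GK K) (Fin n → ℂ)) :
    Representation ℂ (GK K)
      (Fin (Module.finrank ℂ ((Fin n → ℂ) →ₗ[ℂ] (Fin n → ℂ))) → ℂ) :=
  coord (Module.finBasis ℂ ((Fin n → ℂ) →ₗ[ℂ] (Fin n → ℂ))).equivFun
    (Representation.linHom χ χ)

theorem endRep_char {n : ℕ} (χ : Representation ℂ (GK K) (Fin n → ℂ)) (hχ : IsArtin χ)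
    (g : GK K) : (endRep χ).character g = ((‖χ.character g‖ ^ 2 : ℝ) : ℂ) := by
  obtain ⟨U, hUn, hU, hx1⟩ := exists_common (κ := Unit) (n := fun _ => n)
    (fun _ => χ) fun _ => hχ
  have hx1 : ∀ u ∈ U, χ u = 1 := hx1 ()
  have hfin : Finite (GK K ⧸ U) := Subgroup.quotient_finite_of_isOpen U hU
  rw [endRep, coord_char, Representation.char_linHom]
  have h1 : χ.character g⁻¹ = conj (χ.character g) :=
    char_inv (qrep U χ hx1) (QuotientGroup.mk g)
  rw [h1, mul_comm, Complex.mul_conj, Complex.normSq_eq_norm_sq]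

theorem endRep_artin {n : ℕ} {χ : Representation ℂ (GK K) (Fin n → ℂ)} (hχ : IsArtin χ) :
    IsArtin (endRep χ) := by
  obtain ⟨U, hU, h⟩ := hχ
  refine ⟨U, hU, fun u hu => ?_⟩
  have h1 : Representation.linHom χ χ u = 1 := by
    refine LinearMap.ext fun f => ?_
    rw [Representation.linHom_apply, h u hu, h u⁻¹ (U.inv_mem hu)]
    rfl
  change (Module.finBasis ℂ ((Fin n → ℂ) →ₗ[ℂ] (Fin n → ℂ))).equivFun.conj
    (Representation.linHom χ χ u) = 1
  rw [h1]
  exact LinearEquiv.conj_id _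

/-- the invariants do not change under a transport -/
theorem coord_inv {Q : Type} [Group Q] {V : Type} [AddCommGroup V] [Module ℂ V] {r : ℕ}
    (e : V ≃ₗ[ℂ] (Fin r → ℂ)) (ρ : Representation ℂ Q V) :
    Module.finrank ℂ (coord e ρ).invariants = Module.finrank ℂ ρ.invariants := by
  have happ : ∀ g x, (coord e ρ) g (e x) = e (ρ g x) := by
    intro g x
    change e (ρ g (e.symm (e x))) = e (ρ g x)
    rw [e.symm_apply_apply]
  have h1 : (coord e ρ).invariants = ρ.invariants.map (e : V →ₗ[ℂ] (Fin r → ℂ)) := by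
    ext y
    constructor
    · intro hy
      refine ⟨e.symm y, fun g => ?_, e.apply_symm_apply y⟩
      apply e.injective
      rw [← happ, e.apply_symm_apply]
      exact hy g
    · rintro ⟨x, hx, rfl⟩ g
      change (coord e ρ) g (e x) = e x
      rw [happ, hx g]
  rw [h1]
  exact LinearEquiv.finrank_map_eq e _

theorem endRep_inv {n : ℕ} {χ : Representation ℂ (GK K) (Fin n → ℂ)} (h : χ.IsIrreducible) :
    Module.finrank ℂ (endRep χ).invariants = 1 := by
  have := h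
  rw [endRep, coord_inv, LinearEquiv.finrank_eq
    (Representation.invariantsEquivIntertwiningMap χ χ)]
  exact Representation.IsIrreducible.finrank_intertwiningMap_self χ

theorem one_inv : Module.finrank ℂ
    ((1 : Representation ℂ (GK K) (Fin 1 → ℂ)).invariants) = 1 := by
  have h1 : (1 : Representation ℂ (GK K) (Fin 1 → ℂ)).invariants = ⊤ := by
    rw [eq_top_iff]
    intro x _ g
    rfl
  rw [h1, finrank_top, Module.finrank_fin_fun]

theorem one_artin : IsArtin (1 : Representation ℂ (GK K) (Fin 1 → ℂ)) :=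
  ⟨⊤, isOpen_univ, fun _ _ => rfl⟩

theorem zz_zero (v : HeightOneSpectrum (𝓞 K)) : zz 0 v = 1 := by
  unfold zz
  rw [Complex.ofReal_zero, zero_mul, neg_zero, Complex.cpow_zero]

theorem RR_zero {n : ℕ} (χ : Representation ℂ (GK K) (Fin n → ℂ))
    (σ : HeightOneSpectrum (𝓞 K) → GK K) (v : HeightOneSpectrum (𝓞 K)) :
    RR χ 0 σ v = (χ.character (σ v)⁻¹).re := by
  unfold RR
  rw [zz_zero, mul_one]

theorem RR_one (σ : HeightOneSpectrum (𝓞 K) → GK K) (v : HeightOneSpectrum (𝓞 K)) :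
    RR (1 : Representation ℂ (GK K) (Fin 1 → ℂ)) 0 σ v = 1 := by
  rw [RR_zero]
  have : (1 : Representation ℂ (GK K) (Fin 1 → ℂ)).character (σ v)⁻¹ =
      LinearMap.trace ℂ (Fin 1 → ℂ) (1 : Module.End ℂ (Fin 1 → ℂ)) := rfl
  rw [this, LinearMap.trace_one]
  simp

/-- the mean value of the square of the absolute value of an irreducible character -/
theorem has_norm {n : ℕ} (χ : Representation ℂ (GK K) (Fin n → ℂ)) (hχ : IsArtin χ)
    (hirr : χ.IsIrreducible) (σ : HeightOneSpectrum (𝓞 K) → GK K) (hσ : ∀ v, IsFrob v (σ v)) :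
    Has (fun v => ‖χ.character (σ v)⁻¹‖ ^ 2) 1 := by
  classical
  obtain ⟨U, hUn, hU, hx1⟩ := exists_common (κ := Unit) (n := fun _ => n)
    (fun _ => χ) fun _ => hχ
  have hfin : Finite (GK K ⧸ U) := Subgroup.quotient_finite_of_isOpen U hU
  have h1 := has_kl U hU Finset.univ (fun _ : Unit => χ) hx1 (fun _ => 0) σ hσ
    (fun _ _ => hirr) (fun k _ k' _ h _ => absurd (Subsingleton.elim k k') h)
    (Finset.mem_univ ()) (Finset.mem_univ ())
  rw [if_pos rfl] at h1
  refine h1.congr (fun v => ?_) rfl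
  rw [sub_self]
  change ((χ.character (σ v)⁻¹ * conj (χ.character (σ v)⁻¹)) * zz 0 v).re = _
  rw [zz_zero, mul_one, Complex.mul_conj, Complex.normSq_eq_norm_sq, Complex.ofReal_re]

variable {l : ℕ} {X : Set (MvPolynomial (Fin l) (𝓞 K))}
  {d m N : ℕ} {V : Type} [AddCommGroup V] [Module ℚ V] [FiniteDimensional ℚ V]
  {ρ : Representation ℚ (GK K) V}

theorem good_of_part (hm : 2 * m ≤ 2 * d) (hV : IsPart X d m N ρ)
    {σ : HeightOneSpectrum (𝓞 K) → GK K} (hσ : ∀ v, IsFrob v (σ v)) :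
    ∀ᶠ v in cofinite, |tF X d (2 * m) N K v - ch ρ (σ v)⁻¹| ≤
      (N - Module.finrank ℚ V : ℕ) := by
  refine hV.2.mono fun v hv => ?_
  obtain ⟨α, h1, h2⟩ := hv (σ v) (hσ v)
  exact tF_sub_le (ρ := ρ) hm (σ := σ v) h1 h2

/-- the moments -/
theorem has_pow (hm : 2 * m ≤ 2 * d) (hV : IsPart X d m N ρ)
    {σ : HeightOneSpectrum (𝓞 K) → GK K} (hσ : ∀ v, IsFrob v (σ v)) {r n : ℕ}
    {χ : Representation ℂ (GK K) (Fin n → ℂ)} (hχ : IsArtin χ) {k : ℕ}
    (h : TensorPole X d m N ρ r χ k) :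
    Has (fun v => (tC ρ X d (2 * m) N (N - Module.finrank ℚ V) σ v) ^ r * RR χ 0 σ v) k := by
  obtain ⟨B, hB, hlim⟩ := h
  obtain ⟨U, hUn, hU, hx1⟩ := exists_common (κ := Unit) (n := fun _ => n)
    (fun _ => χ) fun _ => hχ
  have hx1 : ∀ u ∈ U, χ u = 1 := hx1 ()
  have hfin : Finite (GK K ⧸ U) := Subgroup.quotient_finite_of_isOpen U hU
  have h1 := (tensor_size hm hσ (good_of_part hm hV hσ) r χ hχ B hB).2
  refine ⟨⟨((N - Module.finrank ℚ V : ℕ) : ℝ) ^ r * n, fun v => ?_⟩, ?_⟩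
  · rw [abs_mul, abs_pow]
    exact mul_le_mul (pow_le_pow_left₀ (abs_nonneg _) (abs_tC _ _ _ _ _ _ _ _) r)
      (abs_RR_le U χ hx1 _ _ _) (abs_nonneg _) (by positivity)
  · have h2 := h1.add hlim
    rw [zero_add] at h2
    refine h2.congr fun ε => ?_
    ring

/-- **The pole conjecture for the tensor square and the fourth tensor power.** -/
theorem four_bound (hmd : m ≤ d) (hV : IsPart X d m N ρ)
    {n : ℕ} {χ : Representation ℂ (GK K) (Fin n → ℂ)} (hχ : IsArtin χ) (hirr : χ.IsIrreducible)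
    (h2 : TensorPole X d m N ρ 2 (1 : Representation ℂ (GK K) (Fin 1 → ℂ)) 1)
    (h2χ : TensorPole X d m N ρ 2 (endRep χ) 1) {k : ℕ}
    (h4 : TensorPole X d m N ρ 4 (1 : Representation ℂ (GK K) (Fin 1 → ℂ)) k)
    (B : HeightOneSpectrum (𝓞 K) → ℂ[X]) (hB : IsTwistedSystem X d (2 * m) N χ 0 B) :
    0 < n ∧ (∀ᶠ ε : ℝ in 𝓝[>] 0, Pool.Agent.W353.EF.LFun B
      (Pool.Agent.W353.EH.edgePoint (2 * m) 0 + ε) ≠ 0) ∧
    ∀ η : ℝ, 0 < η → ∀ᶠ ε : ℝ in 𝓝[>] 0,
      |Pool.Agent.W353.EH.size (2 * m) 0 B ε - twistRank ρ χ| ≤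
        1 - ((k : ℝ) - 1) / (2 * (((N - Module.finrank ℚ V : ℕ) : ℝ) + n) ^ 2) + η := by
  classical
  have hm : 2 * m ≤ 2 * d := by omega
  choose σ hσ using exists_isFrob (F := K)
  obtain ⟨U, hUn, hU, hx1⟩ := exists_common (κ := Unit) (n := fun _ => n)
    (fun _ => χ) fun _ => hχ
  have hx1 : ∀ u ∈ U, χ u = 1 := hx1 ()
  have hfin : Finite (GK K ⧸ U) := Subgroup.quotient_finite_of_isOpen U hU
  have hgood := good_of_part hm hV hσ
  have h1 := tw_C hm hσ hgood hV.1 ⟨n, χ⟩ hχ B hB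
  have hn : 0 < n := dim_pos U (fun _ : Unit => χ) (fun _ => hx1) (k := ()) hirr
  have hn' : (0 : ℝ) < n := by exact_mod_cast hn
  refine ⟨hn, h1.1, fun η hη => ?_⟩
  set s : ℕ := N - Module.finrank ℚ V with hs
  have g1 := has_pow hm hV hσ one_artin h2
  have g2 := has_pow hm hV hσ (endRep_artin hχ) h2χ
  have g3 := has_norm χ hχ hirr σ hσ
  have g4 := has_pow hm hV hσ one_artin h4
  have hx := h1.2
  refine core_four (F := K) (T := tC ρ X d (2 * m) N s σ)
    (c := fun v => χ.character (σ v)⁻¹) (s := s) (b := n) (fun v => abs_tC _ _ _ _ _ _ _ _)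
    (fun v => norm_char_le U χ hx1 (σ v)⁻¹) (by positivity) (k := k) ?_ ?_ g3 ?_ ?_ hη
  · refine g1.congr (fun v => ?_) (by push_cast; rfl)
    rw [RR_one, mul_one]
  · refine g2.congr (fun v => ?_) (by push_cast; rfl)
    rw [RR_zero, endRep_char χ hχ, Complex.ofReal_re]
  · refine g4.congr (fun v => ?_) rfl
    rw [RR_one, mul_one]
  · refine hx.congr fun ε => ?_
    simp only [RR_zero]

end

end Pool.Agent.Y139.SM
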