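import Pool.Agent.Y139.SM.Cube2

/-! Rigidity: a twist of order one and a simple pole of the tensor square determine all orders. -/

set_option autoImplicit false

namespace Pool.Agent.Y139.SM

open Complex Filter Topology ComplexConjugate NumberField IsDedekindDomain Asymptotics
  Pool.Agent.W401.Cheb Pool.Agent.W540.BE Pool.Agent.W353.L1 Polynomial
open Pool.Agent.H341R2 (lam lam_tendsto)
open Pool.Agent.W353.AT (IsArtin exists_common sumC_char)

section
variable {K : Type} [Field K] [NumberField K]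

theorem pow_sub_bound {a b : ℂ} {M : ℝ} (ha : ‖a‖ ≤ M) (hb : ‖b‖ ≤ M) (r : ℕ) :
    ‖a ^ r - b ^ r‖ ≤ r * M ^ (r - 1) * ‖a - b‖ := by
  have hM : 0 ≤ M := (norm_nonneg a).trans ha
  induction r with
  | zero => simp
  | succ r ih =>
    have h1 : a ^ (r + 1) - b ^ (r + 1) = a * (a ^ r - b ^ r) + (a - b) * b ^ r := by ring
    rw [h1, Nat.add_sub_cancel]
    refine (norm_add_le _ _).trans ?_
    rw [norm_mul, norm_mul, norm_pow]
    have h2 : ‖a‖ * ‖a ^ r - b ^ r‖ ≤ r * M ^ r * ‖a - b‖ := by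
      calc ‖a‖ * ‖a ^ r - b ^ r‖ ≤ M * (r * M ^ (r - 1) * ‖a - b‖) :=
            mul_le_mul ha ih (norm_nonneg _) hM
        _ = r * M ^ r * ‖a - b‖ := by
            rcases Nat.eq_zero_or_pos r with h | h
            · subst h
              simp
            · obtain ⟨k, rfl⟩ := Nat.exists_eq_add_of_le' h
              rw [Nat.add_sub_cancel, pow_succ]
              ring
    have h3 : ‖a - b‖ * ‖b‖ ^ r ≤ ‖a - b‖ * M ^ r :=
      mul_le_mul_of_nonneg_left (pow_le_pow_left₀ (norm_nonneg _) hb r) (norm_nonneg _)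
    push_cast
    linarith

/-- the mean value of a character -/
theorem has_char {n : ℕ} (θ : Representation ℂ (GK K) (Fin n → ℂ)) (hθ : IsArtin θ)
    (σ : HeightOneSpectrum (𝓞 K) → GK K) (hσ : ∀ v, IsFrob v (σ v)) :
    Has (fun v => RR θ 0 σ v) (Module.finrank ℂ θ.invariants) := by
  classical
  obtain ⟨U, hUn, hU, hx1⟩ := exists_common (κ := Unit) (n := fun _ => n)
    (fun _ => θ) fun _ => hθ
  have hx1 : ∀ u ∈ U, θ u = 1 := hx1 ()
  have hfin : Finite (GK K ⧸ U) := Subgroup.quotient_finite_of_isOpen U hU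
  let _ : Fintype (GK K ⧸ U) := Fintype.ofFinite _
  set Q := qrep U θ hx1 with hQ
  have hinv : Module.finrank ℂ Q.invariants = Module.finrank ℂ θ.invariants := by
    have e : Q.invariants = θ.invariants := by
      ext y
      constructor
      · intro h g
        exact h (QuotientGroup.mk g)
      · intro h g
        obtain ⟨g, rfl⟩ := QuotientGroup.mk_surjective g
        exact h g
    rw [e]
  have hmean : avC U (fun q => Q.character q⁻¹) =
      (((Module.finrank ℂ θ.invariants : ℕ) : ℝ) : ℂ) := by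
    unfold avC
    have e5 : ∑ q : GK K ⧸ U, Q.character q⁻¹ = ∑ q : GK K ⧸ U, Q.character q :=
      Equiv.sum_comp (Equiv.inv (GK K ⧸ U)) (fun q => Q.character q)
    rw [finsum_eq_sum_of_fintype, e5, sumC_char, Nat.card_eq_fintype_card, hinv]
    have h0 : (Fintype.card (GK K ⧸ U) : ℂ) ≠ 0 := by exact_mod_cast Fintype.card_ne_zero
    rw [inv_mul_cancel_left₀ h0]
    push_cast
    rfl
  have h1 := cheb_edge U hU (fun q => Q.character q⁻¹) (fun a g => by
    have h2 : (g * a * g⁻¹)⁻¹ = g * a⁻¹ * g⁻¹ := by group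
    rw [h2, Representation.char_conj]) _ hmean σ hσ 0
  rw [if_pos rfl] at h1
  have he : ∀ v, (Q.character (QuotientGroup.mk (σ v))⁻¹ *
      ((nm K v : ℕ) : ℂ) ^ (-(((0 : ℝ) : ℂ) * I))).re = RR θ 0 σ v := fun v => rfl
  refine ⟨⟨n, fun v => abs_RR_le U θ hx1 _ _ _⟩, ?_⟩
  refine h1.congr fun ε => ?_
  congr 2

/-- **Rigidity.** -/
theorem core_rigid {T : HeightOneSpectrum (𝓞 K) → ℝ} {c w : HeightOneSpectrum (𝓞 K) → ℂ}
    {s a b : ℝ} (hs : 0 ≤ s) (ha : 0 ≤ a) (hb : 0 ≤ b)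
    (hT : ∀ v, |T v| ≤ s) (hc : ∀ v, ‖c v‖ ≤ a) (hw : ∀ v, ‖w v‖ ≤ b)
    (h3 : Has (fun v => ‖c v‖ ^ 2) 1) {x S₂ y : ℝ → ℝ}
    (hS₂ : Tendsto (fun ε : ℝ => (EP (nm K) ε fun v => T v ^ 2) / lam ε - S₂ ε) (𝓝[>] 0) (𝓝 0))
    (hx : Tendsto (fun ε : ℝ => (EP (nm K) ε fun v => T v * (c v).re) / lam ε - x ε)
      (𝓝[>] 0) (𝓝 0)) (r : ℕ)
    (hy : Tendsto (fun ε : ℝ => (EP (nm K) ε fun v => T v ^ r * (w v).re) / lam ε - y ε)
      (𝓝[>] 0) (𝓝 0)) {z : ℝ} (hz : Has (fun v => (c v ^ r * w v).re) z)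
    {e : ℝ} (he : e = 1 ∨ e = -1) {δ η : ℝ} (hδ : 0 < δ) (hη : 0 < η) :
    ∀ᶠ ε : ℝ in 𝓝[>] 0, 0 ≤ S₂ ε + 2 * e * x ε + 1 + η ∧
      |y ε - (-e) ^ r * z| ≤
        r * (s + a) ^ (r - 1) * b * ((δ + (S₂ ε + 2 * e * x ε + 1) / δ) / 2) + η := by
  classical
  have hN : NormSys (nm K) := normSys
  have hee : e * e = 1 := by rcases he with h | h <;> rw [h] <;> norm_num
  have hea : |e| = 1 := by rcases he with h | h <;> rw [h] <;> norm_num
  set C : ℝ := r * (s + a) ^ (r - 1) * b with hC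
  have hC0 : 0 ≤ C := by positivity
  -- the square
  set D : HeightOneSpectrum (𝓞 K) → ℝ := fun v => T v ^ 2 + (2 * e * (T v * (c v).re) +
    ‖c v‖ ^ 2) with hD
  have hDn : ∀ v, D v = ‖(T v : ℂ) + e * c v‖ ^ 2 := by
    intro v
    simp only [hD]
    rw [← Complex.normSq_eq_norm_sq, ← Complex.normSq_eq_norm_sq, Complex.normSq_apply,
      Complex.normSq_apply]
    simp only [Complex.add_re, Complex.add_im, Complex.ofReal_re, Complex.ofReal_im,
      Complex.re_ofReal_mul, Complex.im_ofReal_mul, zero_add]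
    nlinarith
  have b1 : ∀ v, |T v ^ 2| ≤ s ^ 2 := fun v => by
    rw [abs_pow]
    exact pow_le_pow_left₀ (abs_nonneg _) (hT v) 2
  have b2 : ∀ v, |2 * e * (T v * (c v).re)| ≤ 2 * (s * a) := fun v => by
    rw [abs_mul, abs_mul, abs_mul, abs_two, hea, mul_one]
    refine mul_le_mul_of_nonneg_left ?_ (by norm_num)
    exact mul_le_mul (hT v) ((Complex.abs_re_le_norm _).trans (hc v)) (abs_nonneg _) hs
  have b3 : ∀ v, |‖c v‖ ^ 2| ≤ a ^ 2 := fun v => by
    rw [abs_of_nonneg (by positivity)]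
    exact pow_le_pow_left₀ (norm_nonneg _) (hc v) 2
  have b4 : ∀ v, |2 * e * (T v * (c v).re) + ‖c v‖ ^ 2| ≤ 2 * (s * a) + a ^ 2 := fun v =>
    (abs_add_le _ _).trans (add_le_add (b2 v) (b3 v))
  have b5 : ∀ v, |D v| ≤ s ^ 2 + (2 * (s * a) + a ^ 2) := fun v =>
    (abs_add_le _ _).trans (add_le_add (b1 v) (b4 v))
  have hED : ∀ ε : ℝ, 0 < ε → EP (nm K) ε D = (EP (nm K) ε fun v => T v ^ 2) +
      (2 * e * (EP (nm K) ε fun v => T v * (c v).re) + EP (nm K) ε fun v => ‖c v‖ ^ 2) := by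
    intro ε hε
    rw [hD, EP_add hN hε b1 b4, EP_add hN hε b2 b3, EP_const_mul]
  -- the difference
  have hpt : ∀ v, |T v ^ r * (w v).re - (-e) ^ r * (c v ^ r * w v).re| ≤
      C * ((δ * 1 + δ⁻¹ * D v) / 2) := by
    intro v
    have h1 : T v ^ r * (w v).re - (-e) ^ r * (c v ^ r * w v).re =
        ((((T v : ℂ)) ^ r - (-(e : ℂ) * c v) ^ r) * w v).re := by
      rw [sub_mul, Complex.sub_re, mul_pow, mul_assoc]
      have e1 : ((T v : ℂ) ^ r * w v).re = T v ^ r * (w v).re := by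
        rw [← Complex.ofReal_pow, Complex.re_ofReal_mul]
      have e2 : ((-(e : ℂ)) ^ r * (c v ^ r * w v)).re = (-e) ^ r * (c v ^ r * w v).re := by
        rw [← Complex.ofReal_neg, ← Complex.ofReal_pow, Complex.re_ofReal_mul]
      rw [e1, e2]
    have h2 : ‖(T v : ℂ)‖ ≤ s + a := by
      rw [Complex.norm_real, Real.norm_eq_abs]
      exact (hT v).trans (by linarith)
    have h3 : ‖-(e : ℂ) * c v‖ ≤ s + a := by
      rw [norm_mul, norm_neg, Complex.norm_real, Real.norm_eq_abs, hea, one_mul]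
      exact (hc v).trans (by linarith)
    have h4 := pow_sub_bound h2 h3 r
    have h5 : (T v : ℂ) - -(e : ℂ) * c v = (T v : ℂ) + e * c v := by ring
    rw [h5] at h4
    set g : ℝ := ‖(T v : ℂ) + e * c v‖ with hg
    have hg0 : 0 ≤ g := norm_nonneg _
    have h6 : g ≤ (δ * 1 + δ⁻¹ * D v) / 2 := by
      rw [hDn v, ← hg]
      have h7 : 0 ≤ δ⁻¹ * (g - δ) ^ 2 := by positivity
      have h8 : δ⁻¹ * (g - δ) ^ 2 = δ⁻¹ * g ^ 2 - 2 * g + δ := by
        field_simp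
        ring
      linarith
    rw [h1]
    calc |((((T v : ℂ)) ^ r - (-(e : ℂ) * c v) ^ r) * w v).re|
        ≤ ‖(((T v : ℂ)) ^ r - (-(e : ℂ) * c v) ^ r) * w v‖ := Complex.abs_re_le_norm _
      _ = ‖((T v : ℂ)) ^ r - (-(e : ℂ) * c v) ^ r‖ * ‖w v‖ := norm_mul _ _
      _ ≤ (r * (s + a) ^ (r - 1) * g) * b :=
          mul_le_mul h4 (hw v) (norm_nonneg _) (by positivity)
      _ = C * g := by rw [hC]; ring
      _ ≤ C * ((δ * 1 + δ⁻¹ * D v) / 2) := mul_le_mul_of_nonneg_left h6 hC0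
  have hEd : ∀ ε : ℝ, 0 < ε → |(EP (nm K) ε fun v => T v ^ r * (w v).re) -
      (-e) ^ r * (EP (nm K) ε fun v => (c v ^ r * w v).re)| ≤
      C * ((δ * (EP (nm K) ε fun _ => 1) + δ⁻¹ * EP (nm K) ε D) / 2) := by
    intro ε hε
    have c1 : ∀ v, |T v ^ r * (w v).re| ≤ s ^ r * b := fun v => by
      rw [abs_mul, abs_pow]
      exact mul_le_mul (pow_le_pow_left₀ (abs_nonneg _) (hT v) r)
        ((Complex.abs_re_le_norm _).trans (hw v)) (abs_nonneg _) (by positivity)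
    have c2 : ∀ v, |(-(-e) ^ r) * (c v ^ r * w v).re| ≤ a ^ r * b := fun v => by
      rw [abs_mul, abs_neg, abs_pow, abs_neg, hea, one_pow, one_mul]
      refine (Complex.abs_re_le_norm _).trans ?_
      rw [norm_mul, norm_pow]
      exact mul_le_mul (pow_le_pow_left₀ (norm_nonneg _) (hc v) r) (hw v) (norm_nonneg _)
        (by positivity)
    have e1 : (EP (nm K) ε fun v => T v ^ r * (w v).re) -
        (-e) ^ r * (EP (nm K) ε fun v => (c v ^ r * w v).re) =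
        EP (nm K) ε fun v => T v ^ r * (w v).re + (-(-e) ^ r) * (c v ^ r * w v).re := by
      rw [EP_add hN hε c1 c2, EP_const_mul]
      ring
    have c3 : ∀ v : HeightOneSpectrum (𝓞 K), |δ * 1| ≤ δ := fun _ => by
      rw [mul_one, abs_of_pos hδ]
    have c4 : ∀ v, |δ⁻¹ * D v| ≤ δ⁻¹ * (s ^ 2 + (2 * (s * a) + a ^ 2)) := fun v => by
      rw [abs_mul, abs_of_pos (inv_pos.2 hδ)]
      exact mul_le_mul_of_nonneg_left (b5 v) (inv_pos.2 hδ).le
    have e2 : C * ((δ * (EP (nm K) ε fun _ => 1) + δ⁻¹ * EP (nm K) ε D) / 2) =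
        EP (nm K) ε fun v => C / 2 * (δ * 1 + δ⁻¹ * D v) := by
      rw [EP_const_mul, EP_add hN hε c3 c4, EP_const_mul, EP_const_mul]
      ring
    rw [e1, e2]
    refine EP_abs_le (B := C / 2 * (δ + δ⁻¹ * (s ^ 2 + (2 * (s * a) + a ^ 2)))) (fun v => ?_)
      (fun v => ?_) hε
    · rw [abs_mul, abs_of_nonneg (by positivity : (0 : ℝ) ≤ C / 2)]
      exact mul_le_mul_of_nonneg_left ((abs_add_le _ _).trans (add_le_add (c3 v) (c4 v)))
        (by positivity)
    · have h1 := hpt v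
      have h2 : T v ^ r * (w v).re + (-(-e) ^ r) * (c v ^ r * w v).re =
          T v ^ r * (w v).re - (-e) ^ r * (c v ^ r * w v).re := by ring
      rw [h2]
      refine h1.trans (le_of_eq ?_)
      ring
  -- conclusion
  set L : ℝ := C * ((δ + δ⁻¹ * 4) / 2) + 6 with hL
  have hL0 : 0 < L := by positivity
  set θ : ℝ := η / (2 * L) with hθ
  have hθ0 : 0 < θ := by positivity
  filter_upwards [(Metric.tendsto_nhds.1 hS₂) θ hθ0, (Metric.tendsto_nhds.1 hx) θ hθ0,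
    (Metric.tendsto_nhds.1 hy) θ hθ0, (Metric.tendsto_nhds.1 hz.2) θ hθ0,
    (Metric.tendsto_nhds.1 h3.2) θ hθ0, (Metric.tendsto_nhds.1 (EP_one K)) θ hθ0,
    lam_tendsto.eventually_gt_atTop 0, self_mem_nhdsWithin] with ε k1 k2 k3 k4 k5 k6 k7 k8
  have hε : (0 : ℝ) < ε := k8
  rw [Real.dist_eq, sub_zero] at k1 k2 k3
  rw [Real.dist_eq] at k4 k5 k6
  have g1 := hEd ε hε
  have g2 : 0 ≤ EP (nm K) ε D := EP_nonneg fun v => by
    rw [hDn v]
    positivity
  rw [hED ε hε] at g1 g2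
  set e2 := (EP (nm K) ε fun v => T v ^ 2) / lam ε with he2
  set ex := (EP (nm K) ε fun v => T v * (c v).re) / lam ε with hex
  set ec := (EP (nm K) ε fun v => ‖c v‖ ^ 2) / lam ε with hec
  set ey := (EP (nm K) ε fun v => T v ^ r * (w v).re) / lam ε with hey
  set ez := (EP (nm K) ε fun v => (c v ^ r * w v).re) / lam ε with hez
  set eo := (EP (nm K) ε fun _ => 1) / lam ε with heo
  have r2 : (EP (nm K) ε fun v => T v ^ 2) = e2 * lam ε := by rw [he2, div_mul_cancel₀ _ k7.ne']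
  have rx : (EP (nm K) ε fun v => T v * (c v).re) = ex * lam ε := by
    rw [hex, div_mul_cancel₀ _ k7.ne']
  have rc : (EP (nm K) ε fun v => ‖c v‖ ^ 2) = ec * lam ε := by rw [hec, div_mul_cancel₀ _ k7.ne']
  have ry : (EP (nm K) ε fun v => T v ^ r * (w v).re) = ey * lam ε := by
    rw [hey, div_mul_cancel₀ _ k7.ne']
  have rz : (EP (nm K) ε fun v => (c v ^ r * w v).re) = ez * lam ε := by
    rw [hez, div_mul_cancel₀ _ k7.ne']
  have ro : (EP (nm K) ε fun _ => 1) = eo * lam ε := by rw [heo, div_mul_cancel₀ _ k7.ne']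
  rw [r2, rx, rc] at g1 g2
  rw [ry, rz, ro] at g1
  have g3 : 0 ≤ e2 + (2 * e * ex + ec) := by
    by_contra hcon
    rw [not_le] at hcon
    have := mul_neg_of_neg_of_pos hcon k7
    nlinarith
  have g4 : |ey - (-e) ^ r * ez| ≤ C * ((δ * eo + δ⁻¹ * (e2 + (2 * e * ex + ec))) / 2) := by
    have h1 : ey * lam ε - (-e) ^ r * (ez * lam ε) = (ey - (-e) ^ r * ez) * lam ε := by ring
    have h2 : C * ((δ * (eo * lam ε) + δ⁻¹ * (e2 * lam ε + (2 * e * (ex * lam ε) + ec * lam ε))) / 2)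
        = C * ((δ * eo + δ⁻¹ * (e2 + (2 * e * ex + ec))) / 2) * lam ε := by ring
    rw [h1, h2, abs_mul, abs_of_pos k7] at g1
    exact le_of_mul_le_mul_right g1 k7
  have k1' := abs_lt.1 k1
  have k2' := abs_lt.1 k2
  have k3' := abs_lt.1 k3
  have k4' := abs_lt.1 k4
  have k5' := abs_lt.1 k5
  have k6' := abs_lt.1 k6
  have m1 : |2 * e * (ex - x ε)| ≤ 2 * θ := by
    rw [abs_mul, abs_mul, abs_two, hea, mul_one]
    exact mul_le_mul_of_nonneg_left k2.le (by norm_num)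
  have m1' := abs_le.1 m1
  have hLθ : L * θ = η / 2 := by
    rw [hθ]
    field_simp
  have hL6 : 6 ≤ L := by
    rw [hL]
    have : 0 ≤ C * ((δ + δ⁻¹ * 4) / 2) := by positivity
    linarith
  have h6θ : 6 * θ ≤ η / 2 := by
    rw [← hLθ]
    exact mul_le_mul_of_nonneg_right hL6 hθ0.le
  have hq : e2 + (2 * e * ex + ec) ≤ S₂ ε + 2 * e * x ε + 1 + 4 * θ := by linarith
  refine ⟨by linarith, ?_⟩
  have m2 : |(-e) ^ r * (ez - z)| ≤ θ := by
    rw [abs_mul, abs_pow, abs_neg, hea, one_pow, one_mul]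
    exact k4.le
  have m3 : |y ε - (-e) ^ r * z| ≤ |ey - (-e) ^ r * ez| + 2 * θ := by
    have h1 : y ε - (-e) ^ r * z = (ey - (-e) ^ r * ez) + ((-e) ^ r * (ez - z) - (ey - y ε)) := by
      ring
    rw [h1]
    refine (abs_add_le _ _).trans (add_le_add le_rfl ?_)
    have h2 := abs_le.1 m2
    rw [abs_le]
    constructor <;> linarith
  have m4 : C * ((δ * eo + δ⁻¹ * (e2 + (2 * e * ex + ec))) / 2) ≤
      C * ((δ + (S₂ ε + 2 * e * x ε + 1) / δ) / 2) + C * ((δ + δ⁻¹ * 4) / 2) * θ := by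
    have h1 : δ * eo ≤ δ * (1 + θ) := mul_le_mul_of_nonneg_left (by linarith) hδ.le
    have h2 : δ⁻¹ * (e2 + (2 * e * ex + ec)) ≤ δ⁻¹ * (S₂ ε + 2 * e * x ε + 1 + 4 * θ) :=
      mul_le_mul_of_nonneg_left hq (inv_pos.2 hδ).le
    have h3 : C * ((δ + (S₂ ε + 2 * e * x ε + 1) / δ) / 2) + C * ((δ + δ⁻¹ * 4) / 2) * θ =
        C * ((δ * (1 + θ) + δ⁻¹ * (S₂ ε + 2 * e * x ε + 1 + 4 * θ)) / 2) := by
      field_simp
      ring
    rw [h3]
    refine mul_le_mul_of_nonneg_left ?_ hC0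
    linarith
  have m5 : C * ((δ + δ⁻¹ * 4) / 2) * θ + 6 * θ = η / 2 := by
    rw [← hLθ, hL]
    ring
  linarith

end

end Pool.Agent.Y139.SM
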