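import Pool.Agent.Y139.SM.Rigid

/-! Rigidity for the tensor powers of `H^i(X)` and of the transcendental part. -/

set_option autoImplicit false

namespace Pool.Agent.Y139.SM

open Complex Filter Topology ComplexConjugate NumberField IsDedekindDomain Asymptotics
  Pool.Agent.W401.Cheb Pool.Agent.W540.BE Pool.Agent.W353.L1 Polynomial
open Pool.Agent.H341R2 (lam lam_tendsto)
open Pool.Agent.W353.TD (ch IsPart rank)
open Pool.Agent.W353.PV (tF)
open Pool.Agent.W353.EF (LFun)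
open Pool.Agent.W353.EH (edgePoint size HasOrder)
open Pool.Agent.W353.AT (tC abs_tC IsArtin exists_common tw_C IsTwistedSystem
  twistRank TwistDefect)

section
variable {K : Type} [Field K] [NumberField K]

/-- the limit form: if the sizes tend to the extreme values, the others are determined -/
theorem rigid_lim {C : ℝ} (hC : 0 ≤ C) {Q y : ℝ → ℝ} {z : ℝ}
    (hQ : Tendsto Q (𝓝[>] 0) (𝓝 0))
    (h : ∀ δ η : ℝ, 0 < δ → 0 < η → ∀ᶠ ε : ℝ in 𝓝[>] 0,
      |y ε - z| ≤ C * ((δ + Q ε / δ) / 2) + η) :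
    Tendsto y (𝓝[>] 0) (𝓝 z) := by
  rw [Metric.tendsto_nhds]
  intro η hη
  set δ : ℝ := η / (2 * (C + 1)) with hδ
  have hδ0 : 0 < δ := by positivity
  filter_upwards [h δ (η / 4) hδ0 (by positivity),
    (Metric.tendsto_nhds.1 hQ) (δ ^ 2 / 2) (by positivity)] with ε h1 h2
  rw [Real.dist_eq, sub_zero] at h2
  rw [Real.dist_eq]
  have h3 : Q ε / δ ≤ δ / 2 := by
    rw [div_le_iff₀ hδ0]
    have := (abs_lt.1 h2).2
    nlinarith
  have h4 : C * ((δ + Q ε / δ) / 2) ≤ C * (3 / 4 * δ) :=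
    mul_le_mul_of_nonneg_left (by linarith) hC
  have h5 : C * (3 / 4 * δ) < η / 2 := by
    have h6 : (C + 1) * δ = η / 2 := by
      rw [hδ]
      field_simp
    nlinarith
  linarith

theorem char_pow_mul {n n' n'' : ℕ} {χ : Representation ℂ (GK K) (Fin n → ℂ)}
    {ψ : Representation ℂ (GK K) (Fin n' → ℂ)} {θ : Representation ℂ (GK K) (Fin n'' → ℂ)}
    {r : ℕ} (h : ∀ g, θ.character g = χ.character g ^ r * ψ.character g)
    (hθ : IsArtin θ) (σ : HeightOneSpectrum (𝓞 K) → GK K) (hσ : ∀ v, IsFrob v (σ v)) :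
    Has (fun v => (χ.character (σ v)⁻¹ ^ r * ψ.character (σ v)⁻¹).re)
      (Module.finrank ℂ θ.invariants) := by
  refine (has_char θ hθ σ hσ).congr (fun v => ?_) rfl
  rw [RR_zero, h]

variable {l : ℕ} {X : Set (MvPolynomial (Fin l) (𝓞 K))} {d i N : ℕ}

/-- **Rigidity for the tensor powers of the cohomology.** -/
theorem rigidH (hi : i ≤ 2 * d) {n : ℕ} {χ : Representation ℂ (GK K) (Fin n → ℂ)}
    (hχ : IsArtin χ) (hirr : χ.IsIrreducible) {B₁ B₂ : HeightOneSpectrum (𝓞 K) → ℂ[X]}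
    (hB₁ : IsPowerSystem X d i N 1 χ B₁)
    (hB₂ : IsPowerSystem X d i N 2 (1 : Representation ℂ (GK K) (Fin 1 → ℂ)) B₂)
    {e : ℝ} (he : e = 1 ∨ e = -1)
    (r : ℕ) {n' : ℕ} {ψ : Representation ℂ (GK K) (Fin n' → ℂ)} (hψ : IsArtin ψ)
    {n'' : ℕ} {θ : Representation ℂ (GK K) (Fin n'' → ℂ)} (hθ : IsArtin θ)
    (hc : ∀ g, θ.character g = χ.character g ^ r * ψ.character g)
    {B : HeightOneSpectrum (𝓞 K) → ℂ[X]} (hB : IsPowerSystem X d i N r ψ B)
    {δ η : ℝ} (hδ : 0 < δ) (hη : 0 < η) :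
    ∀ᶠ ε : ℝ in 𝓝[>] 0,
      0 ≤ size (2 * i) 0 B₂ ε + 2 * e * size (1 * i) 0 B₁ ε + 1 + η ∧
      |size (r * i) 0 B ε - (-e) ^ r * Module.finrank ℂ θ.invariants| ≤
        r * ((N : ℝ) + n) ^ (r - 1) * n' *
          ((δ + (size (2 * i) 0 B₂ ε + 2 * e * size (1 * i) 0 B₁ ε + 1) / δ) / 2) + η := by
  classical
  choose σ hσ using exists_isFrob (F := K)
  obtain ⟨U, hUn, hU, hx1⟩ := exists_common (κ := Unit) (n := fun _ => n)
    (fun _ => χ) fun _ => hχ
  have hx1 : ∀ u ∈ U, χ u = 1 := hx1 ()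
  have hfin : Finite (GK K ⧸ U) := Subgroup.quotient_finite_of_isOpen U hU
  obtain ⟨U', hUn', hU', hx1'⟩ := exists_common (κ := Unit) (n := fun _ => n')
    (fun _ => ψ) fun _ => hψ
  have hx1' : ∀ u ∈ U', ψ u = 1 := hx1' ()
  have hfin' : Finite (GK K ⧸ U') := Subgroup.quotient_finite_of_isOpen U' hU'
  have g1 := (power_size hi hσ 1 χ hχ B₁ hB₁).2
  have g2 := (power_size hi hσ 2 _ one_artin B₂ hB₂).2
  have g3 := (power_size hi hσ r ψ hψ B hB).2
  refine core_rigid (K := K) (T := tF X d i N K) (c := fun v => χ.character (σ v)⁻¹)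
    (w := fun v => ψ.character (σ v)⁻¹) (s := N) (a := n) (b := n') (Nat.cast_nonneg _)
    (Nat.cast_nonneg _) (Nat.cast_nonneg _) (fun v => abs_tr_le _ _ _)
    (fun v => norm_char_le U χ hx1 (σ v)⁻¹) (fun v => norm_char_le U' ψ hx1' (σ v)⁻¹)
    (has_norm χ hχ hirr σ hσ) (S₂ := size (2 * i) 0 B₂) (x := size (1 * i) 0 B₁)
    (y := size (r * i) 0 B) ?_ ?_ r ?_ (char_pow_mul hc hθ σ hσ) he hδ hη
  · refine g2.congr fun ε => ?_
    simp only [RR_one, mul_one]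
  · refine g1.congr fun ε => ?_
    simp only [RR_zero, pow_one]
  · refine g3.congr fun ε => ?_
    simp only [RR_zero]

/-- the consequences for the orders -/
theorem rigidH_orders (hi : i ≤ 2 * d) {n : ℕ} {χ : Representation ℂ (GK K) (Fin n → ℂ)}
    (hχ : IsArtin χ) (hirr : χ.IsIrreducible) {B₁ B₂ : HeightOneSpectrum (𝓞 K) → ℂ[X]}
    (hB₁ : IsPowerSystem X d i N 1 χ B₁)
    (hB₂ : IsPowerSystem X d i N 2 (1 : Representation ℂ (GK K) (Fin 1 → ℂ)) B₂)
    {k₁ k₂ : ℤ} (h1 : HasOrder (1 * i) 0 B₁ k₁) (h2 : HasOrder (2 * i) 0 B₂ k₂)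
    (hk₂ : -1 ≤ k₂) (hk₁ : k₁ ≠ 0) :
    (k₁ = 1 ∨ k₁ = -1) ∧ k₂ = -1 ∧
    ∀ (r n' n'' : ℕ) (ψ : Representation ℂ (GK K) (Fin n' → ℂ))
      (θ : Representation ℂ (GK K) (Fin n'' → ℂ)) (B : HeightOneSpectrum (𝓞 K) → ℂ[X]),
      IsArtin ψ → IsArtin θ → (∀ g, θ.character g = χ.character g ^ r * ψ.character g) →
      IsPowerSystem X d i N r ψ B →
      Tendsto (size (r * i) 0 B) (𝓝[>] 0) (𝓝 ((-k₁ : ℤ) ^ r * Module.finrank ℂ θ.invariants)) ∧
      ∀ k : ℤ, HasOrder (r * i) 0 B k →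
        k = -((-k₁) ^ r * (Module.finrank ℂ θ.invariants : ℤ)) := by
  classical
  choose σ hσ using exists_isFrob (F := K)
  have n1 := (power_size hi hσ 1 χ hχ B₁ hB₁).1
  have n2 := (power_size hi hσ 2 _ one_artin B₂ hB₂).1
  have t1 := size_of_order n1 h1
  have t2 := size_of_order n2 h2
  -- the sign
  obtain ⟨e, he, hek⟩ : ∃ e : ℤ, (e = 1 ∨ e = -1) ∧ 1 ≤ e * k₁ := by
    rcases lt_or_gt_of_ne hk₁ with h | h
    · exact ⟨-1, Or.inr rfl, by omega⟩
    · exact ⟨1, Or.inl rfl, by omega⟩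
  have he' : (e : ℝ) = 1 ∨ (e : ℝ) = -1 := by
    rcases he with h | h
    · left; rw [h]; norm_num
    · right; rw [h]; norm_num
  have hQ : Tendsto (fun ε => size (2 * i) 0 B₂ ε + 2 * (e : ℝ) * size (1 * i) 0 B₁ ε + 1) (𝓝[>] 0)
      (𝓝 (-(k₂ : ℝ) + 2 * (e : ℝ) * (-(k₁ : ℝ)) + 1)) := (t2.add (t1.const_mul _)).add_const _
  have hQ0 : (0 : ℝ) ≤ -(k₂ : ℝ) + 2 * (e : ℝ) * (-(k₁ : ℝ)) + 1 := by
    refine le_of_forall_pos_le_add fun η hη => ?_
    refine ge_of_tendsto (hQ.add_const η) ?_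
    obtain ⟨U, hUn, hU, hx1⟩ := exists_common (κ := Unit) (n := fun _ => n)
      (fun _ => χ) fun _ => hχ
    have h0 : ∀ g, (1 : Representation ℂ (GK K) (Fin 1 → ℂ)).character g =
        χ.character g ^ 0 * (1 : Representation ℂ (GK K) (Fin 1 → ℂ)).character g := fun g => by
      rw [pow_zero, one_mul]
    have h3 : IsPowerSystem X d i N 2 (1 : Representation ℂ (GK K) (Fin 1 → ℂ)) B₂ := hB₂
    -- use the statement for `r = 2`, `ψ = 1` only through positivity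
    have hpos : ∀ᶠ ε : ℝ in 𝓝[>] 0,
        0 ≤ size (2 * i) 0 B₂ ε + 2 * (e : ℝ) * size (1 * i) 0 B₁ ε + 1 + η := by
      have hone : Has (fun v => (χ.character (σ v)⁻¹ ^ 0 *
          (1 : Representation ℂ (GK K) (Fin 1 → ℂ)).character (σ v)⁻¹).re)
          (Module.finrank ℂ (1 : Representation ℂ (GK K) (Fin 1 → ℂ)).invariants) :=
        char_pow_mul h0 one_artin σ hσ
      have hfin : Finite (GK K ⧸ U) := Subgroup.quotient_finite_of_isOpen U hU
      have hx1 : ∀ u ∈ U, χ u = 1 := hx1 ()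
      have g1 := (power_size hi hσ 1 χ hχ B₁ hB₁).2
      have g2 := (power_size hi hσ 2 _ one_artin B₂ hB₂).2
      have h4 := core_rigid (K := K) (T := tF X d i N K) (c := fun v => χ.character (σ v)⁻¹)
        (w := fun v => (1 : Representation ℂ (GK K) (Fin 1 → ℂ)).character (σ v)⁻¹)
        (s := N) (a := n) (b := 1) (Nat.cast_nonneg _)
        (Nat.cast_nonneg _) zero_le_one (fun v => abs_tr_le _ _ _)
        (fun v => norm_char_le U χ hx1 (σ v)⁻¹) (fun v => by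
          have : (1 : Representation ℂ (GK K) (Fin 1 → ℂ)).character (σ v)⁻¹ =
            LinearMap.trace ℂ (Fin 1 → ℂ) (1 : Module.End ℂ (Fin 1 → ℂ)) := rfl
          rw [this, LinearMap.trace_one]
          simp)
        (has_norm χ hχ hirr σ hσ) (S₂ := size (2 * i) 0 B₂) (x := size (1 * i) 0 B₁)
        (y := fun ε => (EP (nm K) ε fun v => (tF X d i N K v) ^ 0 *
          ((1 : Representation ℂ (GK K) (Fin 1 → ℂ)).character (σ v)⁻¹).re) / lam ε)
        (by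
          refine g2.congr fun ε => ?_
          simp only [RR_one, mul_one]) (by
          refine g1.congr fun ε => ?_
          simp only [RR_zero, pow_one]) 0 (by simp) hone he' zero_lt_one hη
      exact h4.mono fun ε hε => hε.1
    exact hpos
  have hk2' : (-1 : ℝ) ≤ k₂ := by exact_mod_cast hk₂
  have hek' : (1 : ℝ) ≤ (e : ℝ) * k₁ := by exact_mod_cast hek
  have e1 : (e : ℝ) * k₁ = 1 := by nlinarith
  have e2 : (k₂ : ℝ) = -1 := by nlinarith
  have e1' : e * k₁ = 1 := by exact_mod_cast e1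
  have e2' : k₂ = -1 := by exact_mod_cast e2
  have hke : k₁ = e := by
    rcases he with h | h
    · rw [h] at e1' ⊢
      omega
    · rw [h] at e1' ⊢
      omega
  have hz : -(k₂ : ℝ) + 2 * (e : ℝ) * (-(k₁ : ℝ)) + 1 = 0 := by
    rw [e2]
    linarith
  rw [hz] at hQ
  refine ⟨by rw [hke]; exact he, e2', fun r n' n'' ψ θ B hψ hθ hc hB => ?_⟩
  have hlim : Tendsto (size (r * i) 0 B) (𝓝[>] 0)
      (𝓝 ((-k₁ : ℤ) ^ r * Module.finrank ℂ θ.invariants)) := by
    have h5 := rigid_lim (C := r * ((N : ℝ) + n) ^ (r - 1) * n') (by positivity) hQ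
      (y := size (r * i) 0 B) (z := (-(e : ℝ)) ^ r * Module.finrank ℂ θ.invariants)
      (fun δ η hδ hη => (rigidH hi hχ hirr hB₁ hB₂ he' r hψ hθ hc hB hδ hη).mono
        fun ε hε => hε.2)
    rw [hke]
    push_cast
    exact h5
  refine ⟨hlim, fun k hk => ?_⟩
  have t3 := size_of_order (power_size hi hσ r ψ hψ B hB).1 hk
  have h6 := tendsto_nhds_unique t3 hlim
  have h7 : -k = (-k₁) ^ r * (Module.finrank ℂ θ.invariants : ℤ) := by exact_mod_cast h6
  omega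

end

end Pool.Agent.Y139.SM
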