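import Pool.Agent.W353.AT.Link
import Pool.Agent.Y139.SM.Defs

/-! The sizes of the `L`-functions of the tensor powers of the transcendental part. -/

set_option autoImplicit false

namespace Pool.Agent.Y139.SM

open Complex Filter Topology ComplexConjugate NumberField IsDedekindDomain Asymptotics
  Pool.Agent.W401.Cheb Pool.Agent.W540.BE Pool.Agent.W353.L1 Polynomial
open Pool.Agent.H341R2 (lam lam_tendsto)
open Pool.Agent.W353.TD (ch eig eig_card eig_sum)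
open Pool.Agent.W353.PV (tF Eig alp pick_spec)
open Pool.Agent.W353.AT (tC abs_tC IsArtin exists_common)

section
variable {K : Type} [Field K] [NumberField K] {l : ℕ} {X : Set (MvPolynomial (Fin l) (𝓞 K))}
  {d m N : ℕ} {V : Type} [AddCommGroup V] [Module ℚ V] [FiniteDimensional ℚ V]
  {ρ : Representation ℚ (GK K) V}

/-- the eigenvalues on the transcendental part -/
theorem tr_facts (hm : 2 * m ≤ 2 * d) {v : HeightOneSpectrum (𝓞 K)}
    {β : Fin (N - Module.finrank ℚ V) → ℂ} (h : IsTranscendental X d m N ρ v β) {σ : GK K}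
    (hσ : IsFrob v σ) :
    (∀ j, ‖β j‖ = (nm K v : ℝ) ^ m) ∧
    ((tF X d (2 * m) N K v - ch ρ σ⁻¹ : ℝ) : ℂ) * ((nm K v : ℕ) : ℂ) ^ m = ∑ j, β j := by
  classical
  obtain ⟨α, hα, hadd⟩ := h
  have hγ := hadd σ hσ
  replace hα : Eig X d (2 * m) v α := hα
  have h3 : Eig X d (2 * m) v (alp X d (2 * m) N K v) := pick_spec ⟨α, hα⟩
  have h4 := hα.unique' hm h3
  have hq : (1 : ℝ) < (Ideal.absNorm v.asIdeal : ℝ) := Pool.Agent.W353.PV.one_lt_norm v
  have hq0 : (0 : ℝ) < (Ideal.absNorm v.asIdeal : ℝ) := by linarith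
  have hqC : (Ideal.absNorm v.asIdeal : ℂ) ≠ 0 := by
    exact_mod_cast hq0.ne'
  refine ⟨fun j => ?_, ?_⟩
  · have h5 : β j ∈ Finset.univ.val.map α := by
      rw [hγ]
      exact Multiset.mem_add.2 (Or.inl (Multiset.mem_map.2 ⟨j, Finset.mem_univ_val j, rfl⟩))
    obtain ⟨j', -, h6⟩ := Multiset.mem_map.1 h5
    rw [← h6, hα.norm j']
    have e : (((2 * m : ℕ) : ℝ) / 2) = (m : ℝ) := by push_cast; ring
    rw [e, Real.rpow_natCast]
    rfl
  · have hsum : ∑ j, alp X d (2 * m) N K v j = ∑ j, β j +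
        (Ideal.absNorm v.asIdeal : ℂ) ^ m * ((LinearMap.trace ℚ V (ρ σ⁻¹) : ℚ) : ℂ) := by
      have h5 := congrArg Multiset.sum (h4.symm.trans hγ)
      rw [Multiset.sum_add] at h5
      have h6 : ((Pool.Agent.W353.TD.eigenvalues (ρ σ⁻¹)).map
          (fun z => (Ideal.absNorm v.asIdeal : ℂ) ^ m * z)).sum =
          (Ideal.absNorm v.asIdeal : ℂ) ^ m * ((LinearMap.trace ℚ V (ρ σ⁻¹) : ℚ) : ℂ) := by
        rw [Multiset.sum_map_mul_left, Multiset.map_id']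
        congr 1
        exact eig_sum _
      rw [h6] at h5
      exact h5
    have htr : ((tF X d (2 * m) N K v : ℝ) : ℂ) = (∑ j, alp X d (2 * m) N K v j) *
        ((Ideal.absNorm v.asIdeal : ℕ) : ℂ) ^ (-((((2 * m : ℕ) : ℝ) / 2 : ℝ) : ℂ)) :=
      tr_eq (w := ((2 * m : ℕ) : ℝ) / 2) (α := alp X d (2 * m) N K) (fun j => h3.norm j) (h3.im hm)
    have hpow : ((Ideal.absNorm v.asIdeal : ℕ) : ℂ) ^ (-((((2 * m : ℕ) : ℝ) / 2 : ℝ) : ℂ)) =
        ((Ideal.absNorm v.asIdeal : ℂ) ^ m)⁻¹ := by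
      have e : ((((2 * m : ℕ) : ℝ) / 2 : ℝ) : ℂ) = (m : ℂ) := by push_cast; ring
      rw [e, Complex.cpow_neg, Complex.cpow_natCast]
    have h7 : (Ideal.absNorm v.asIdeal : ℂ) ^ m ≠ 0 := pow_ne_zero _ hqC
    rw [Complex.ofReal_sub, htr, hpow, hsum, ch]
    change ((∑ j, β j + (Ideal.absNorm v.asIdeal : ℂ) ^ m *
      ((LinearMap.trace ℚ V (ρ σ⁻¹) : ℚ) : ℂ)) * ((Ideal.absNorm v.asIdeal : ℂ) ^ m)⁻¹ -
      (((LinearMap.trace ℚ V (ρ σ⁻¹) : ℚ) : ℝ) : ℂ)) * ((Ideal.absNorm v.asIdeal : ℕ) : ℂ) ^ m = _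
    field_simp
    push_cast
    ring

/-- the chosen lists -/
noncomputable def bet (X : Set (MvPolynomial (Fin l) (𝓞 K))) (d m N : ℕ)
    (ρ : Representation ℚ (GK K) V) (r : ℕ) {n : ℕ}
    (χ : Representation ℂ (GK K) (Fin n → ℂ)) (B : HeightOneSpectrum (𝓞 K) → ℂ[X])
    (v : HeightOneSpectrum (𝓞 K)) : Fin (N - Module.finrank ℚ V) → ℂ :=
  Pool.Agent.W353.PV.pick fun β => IsTranscendental X d m N ρ v β ∧
    ∀ σ, IsFrob v σ → ∀ z : ℂ, (B v).eval z =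
      ∏ f : Fin r → Fin (N - Module.finrank ℚ V),
        LinearMap.det (1 - ((∏ i, β (f i)) * z) • χ σ⁻¹)

/-- the products -/
noncomputable def prods {s : ℕ} (r : ℕ) (β : Fin s → ℂ) (j : Fin (s ^ r)) : ℂ :=
  ∏ i, β ((finFunctionFinEquiv (m := s) (n := r)).symm j i)

theorem prods_sum {s r : ℕ} (β : Fin s → ℂ) : ∑ j, prods r β j = (∑ j, β j) ^ r := by
  unfold prods
  rw [Equiv.sum_comp (finFunctionFinEquiv (m := s) (n := r)).symm (fun f => ∏ i, β (f i))]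
  rw [← Fintype.piFinset_univ, ← Finset.sum_pow']

theorem prods_prod {s r : ℕ} (β : Fin s → ℂ) (F : ℂ → ℂ) :
    ∏ j, F (prods r β j) = ∏ f : Fin r → Fin s, F (∏ i, β (f i)) := by
  unfold prods
  exact Equiv.prod_comp (finFunctionFinEquiv (m := s) (n := r)).symm (fun f => F (∏ i, β (f i)))

/-- bounded functions that are equal at almost all primes -/
theorem EP_cofinite {φ ψ : HeightOneSpectrum (𝓞 K) → ℝ} {B C : ℝ} (hφ : ∀ v, |φ v| ≤ B)
    (hψ : ∀ v, |ψ v| ≤ C) (h : ∀ᶠ v in cofinite, φ v = ψ v) :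
    Tendsto (fun ε : ℝ => (EP (nm K) ε φ) / lam ε - (EP (nm K) ε ψ) / lam ε) (𝓝[>] 0) (𝓝 0) := by
  classical
  have hbad : {v | ¬ φ v = ψ v}.Finite := by rwa [Filter.eventually_cofinite] at h
  have hbd : ∀ ε : ℝ, 0 < ε → |EP (nm K) ε fun v => φ v + (-1) * ψ v| ≤
      hbad.toFinset.card * (B + C) := by
    intro ε hε
    refine EP_finsupp normSys hbad.toFinset _ (fun v hv => ?_) _ (fun v => ?_) hε
    · rw [Set.Finite.mem_toFinset] at hv
      have h2 : φ v = ψ v := by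
        by_contra h
        exact hv h
      rw [h2]
      ring
    · refine (abs_add_le _ _).trans (add_le_add (hφ v) ?_)
      rw [abs_mul, abs_neg, abs_one, one_mul]
      exact hψ v
  have h3 : Tendsto (fun ε : ℝ => (hbad.toFinset.card * (B + C) : ℝ) /
      lam ε) (𝓝[>] 0) (𝓝 0) := tendsto_const_nhds.div_atTop lam_tendsto
  rw [tendsto_zero_iff_abs_tendsto_zero]
  refine squeeze_zero' (Eventually.of_forall fun ε => abs_nonneg _) ?_ h3
  filter_upwards [self_mem_nhdsWithin, lam_tendsto.eventually_gt_atTop 0] with ε hε hε'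
  have hε0 : (0 : ℝ) < ε := hε
  have e1 : (EP (nm K) ε fun v => φ v + (-1) * ψ v) = EP (nm K) ε φ - EP (nm K) ε ψ := by
    have h1 : ∀ v, |(-1 : ℝ) * ψ v| ≤ C := by
      intro v
      rw [abs_mul, abs_neg, abs_one, one_mul]
      exact hψ v
    rw [EP_add normSys hε0 hφ h1, EP_const_mul]
    ring
  rw [Function.comp_apply, ← sub_div, ← e1, abs_div, abs_of_pos hε']
  exact div_le_div_of_nonneg_right (hbd ε hε) hε'.le

theorem edge_pow (r : ℕ) : (((r * m : ℕ) : ℝ) : ℂ) + 1 + ((0 : ℝ) : ℂ) * I =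
    Pool.Agent.W353.EH.edgePoint (2 * (r * m)) 0 := by
  unfold Pool.Agent.W353.EH.edgePoint
  push_cast
  ring

/-- **The sizes of the tensor powers.** -/
theorem tensor_size (hm : 2 * m ≤ 2 * d) {σ : HeightOneSpectrum (𝓞 K) → GK K}
    (hσ : ∀ v, IsFrob v (σ v))
    (hgood : ∀ᶠ v in cofinite, |tF X d (2 * m) N K v - ch ρ (σ v)⁻¹| ≤
      (N - Module.finrank ℚ V : ℕ))
    (r : ℕ) {n : ℕ} (χ : Representation ℂ (GK K) (Fin n → ℂ)) (hχ : IsArtin χ)
    (B : HeightOneSpectrum (𝓞 K) → ℂ[X]) (hB : IsTensorSystem X d m N ρ r χ B) :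
    (∀ᶠ ε : ℝ in 𝓝[>] 0, Pool.Agent.W353.EF.LFun B
      (Pool.Agent.W353.EH.edgePoint (2 * (r * m)) 0 + ε) ≠ 0) ∧
    Tendsto (fun ε : ℝ => (EP (nm K) ε fun v =>
      (tC ρ X d (2 * m) N (N - Module.finrank ℚ V) σ v) ^ r * RR χ 0 σ v) / lam ε -
      Pool.Agent.W353.EH.size (2 * (r * m)) 0 B ε) (𝓝[>] 0) (𝓝 0) := by
  classical
  obtain ⟨U, hUn, hU, hx1⟩ := exists_common (κ := Unit) (n := fun _ => n)
    (fun _ => χ) fun _ => hχ
  have hx1 : ∀ u ∈ U, χ u = 1 := hx1 ()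
  have hfin : Finite (GK K ⧸ U) := Subgroup.quotient_finite_of_isOpen U hU
  set s : ℕ := N - Module.finrank ℚ V with hs
  set β : HeightOneSpectrum (𝓞 K) → Fin s → ℂ := bet X d m N ρ r χ B with hβ
  have hb : ∀ᶠ v in cofinite, IsTranscendental X d m N ρ v (β v) ∧
      ∀ σ, IsFrob v σ → ∀ z : ℂ, (B v).eval z =
        ∏ f : Fin r → Fin s, LinearMap.det (1 - ((∏ i, β v (f i)) * z) • χ σ⁻¹) :=
    hB.1.mono fun v hv => pick_spec hv
  have hf : ∀ᶠ v in cofinite, (∀ j, ‖β v j‖ = (nm K v : ℝ) ^ m) ∧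
      ((tF X d (2 * m) N K v - ch ρ (σ v)⁻¹ : ℝ) : ℂ) * ((nm K v : ℕ) : ℂ) ^ m = ∑ j, β v j :=
    hb.mono fun v hv => tr_facts hm hv.1 (hσ v)
  have hnorm : ∀ᶠ v in cofinite, ∀ j, ‖prods r (β v) j‖ = (nm K v : ℝ) ^ (((r * m : ℕ) : ℝ)) := by
    refine hf.mono fun v hv j => ?_
    unfold prods
    rw [norm_prod, Finset.prod_congr rfl fun i _ => hv.1 _, Finset.prod_const, Finset.card_univ,
      Fintype.card_fin, Real.rpow_natCast, ← pow_mul, mul_comm]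
  have hsum : ∀ᶠ v in cofinite, ∑ j, prods r (β v) j =
      (((tF X d (2 * m) N K v - ch ρ (σ v)⁻¹) ^ r : ℝ) : ℂ) * ((nm K v : ℕ) : ℂ) ^ (r * m) := by
    refine hf.mono fun v hv => ?_
    rw [prods_sum, ← hv.2, mul_pow, ← pow_mul, mul_comm m r]
    push_cast
    ring
  have hreal : ∀ᶠ v in cofinite, (∑ j, prods r (β v) j).im = 0 := by
    refine hsum.mono fun v hv => ?_
    rw [hv]
    have e : (((tF X d (2 * m) N K v - ch ρ (σ v)⁻¹) ^ r : ℝ) : ℂ) *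
        ((nm K v : ℕ) : ℂ) ^ (r * m) =
        (((tF X d (2 * m) N K v - ch ρ (σ v)⁻¹) ^ r * (nm K v : ℝ) ^ (r * m) : ℝ) : ℂ) := by
      push_cast
      ring
    rw [e, Complex.ofReal_im]
  have hsz := size_corr (((r * m : ℕ) : ℝ)) (fun v => prods r (β v)) hnorm hreal U χ hx1 0 B
    (hb.mono fun v hv g hg z => by
      rw [hv.2 g hg z]
      exact (prods_prod (β v) (fun y => LinearMap.det (1 - (y * z) • χ g⁻¹))).symm)
    (by
      rw [edge_pow]
      exact hB.2) (Pool.Agent.W353.EF.LFun B) (fun s _ => rfl) σ hσ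
  simp only [edge_pow] at hsz
  refine ⟨hsz.1, ?_⟩
  have htr : ∀ᶠ v in cofinite, tr (((r * m : ℕ) : ℝ)) (fun v => prods r (β v)) v =
      (tC ρ X d (2 * m) N s σ v) ^ r := by
    filter_upwards [hnorm, hreal, hsum, hgood] with v h1 h2 h3 h4
    have h5 := tr_eq (w := ((r * m : ℕ) : ℝ)) (α := fun v => prods r (β v)) (v := v) h1 h2
    rw [h3] at h5
    unfold tC
    rw [if_pos h4]
    have h6 : ((nm K v : ℕ) : ℂ) ≠ 0 := by
      have := Pool.Agent.W353.L1.nm_pos v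
      exact_mod_cast this.ne'
    have h7 : ((nm K v : ℕ) : ℂ) ^ (r * m) * ((nm K v : ℕ) : ℂ) ^ (-((((r * m : ℕ) : ℝ)) : ℂ)) =
        1 := by
      have e : ((((r * m : ℕ) : ℝ)) : ℂ) = ((r * m : ℕ) : ℂ) := by push_cast; ring
      rw [e, Complex.cpow_neg, Complex.cpow_natCast, mul_inv_cancel₀ (pow_ne_zero _ h6)]
    rw [mul_assoc, h7, mul_one] at h5
    exact_mod_cast h5
  have hcong := EP_cofinite (K := K)
    (φ := fun v => (tC ρ X d (2 * m) N s σ v) ^ r * RR χ 0 σ v)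
    (ψ := fun v => tr (((r * m : ℕ) : ℝ)) (fun v => prods r (β v)) v * RR χ 0 σ v)
    (B := (s : ℝ) ^ r * n) (C := ((s ^ r : ℕ) : ℝ) * n)
    (fun v => by
      rw [abs_mul, abs_pow]
      exact mul_le_mul (pow_le_pow_left₀ (abs_nonneg _) (abs_tC _ _ _ _ _ _ _ _) r)
        (abs_RR_le U χ hx1 _ _ _) (abs_nonneg _) (by positivity))
    (fun v => by
      rw [abs_mul]
      exact mul_le_mul (abs_tr_le _ _ _) (abs_RR_le U χ hx1 _ _ _) (abs_nonneg _) (by positivity))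
    (htr.mono fun v hv => by rw [hv])
  have h8 := hcong.add hsz.2
  rw [add_zero] at h8
  refine h8.congr fun ε => ?_
  have e : (fun v => ((tr (((r * m : ℕ) : ℝ)) (fun v => prods r (β v)) v : ℂ) *
      (χ.character (σ v)⁻¹ * zz 0 v)).re) =
      fun v => tr (((r * m : ℕ) : ℝ)) (fun v => prods r (β v)) v * RR χ 0 σ v := by
    funext v
    rw [Complex.re_ofReal_mul]
    rfl
  rw [e]
  unfold Pool.Agent.W353.EH.size
  ring

end

end Pool.Agent.Y139.SM
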